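import Pool.Agent.Lib.MP_af3a4a_an.P1.H80.Normal
import Pool.Agent.Lib.MP_af3a4a_an.P1.CHK.H80.F5

/-!
# The certificate at a point `y = t e` off the ray (council 2, helper80)

`y = t e₁`, `|e₁| = 1`, `t > 0`, `s = R - y`. The integral is the one of the rotated numbers
`e₁ u_k`, with mean `e₁ m`.
-/

namespace Pool.Agent.Lib.MP_af3a4a_an.P1.H80

open Finset MeasureTheory intervalIntegral ComplexConjugate
open Pool.Agent.Lib.MP_af3a4a_an.SV (uu av sq EE)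
open Pool.Agent.Lib.MP_af3a4a_an.P1.CHK.H80 (gg)

section amgm

variable {N : ℕ} {u : Fin N → ℂ}

/-- AM-GM: `|q(x)|² ≤ (1 - 2 x m₁ + x²)^N` for all real `x` -/
theorem qq_sq_le (hN : 1 ≤ N) (hu : ∀ k, ‖u k‖ ≤ 1) (x : ℝ) :
    ‖qq u x‖ ^ 2 ≤ gg (av u).re x ^ N := by
  have hNpos : (0 : ℝ) < N := by exact_mod_cast hN
  have h1 : ‖qq u x‖ ^ 2 = ∏ k, ‖1 - (x : ℂ) * u k‖ ^ 2 := by
    unfold qq
    rw [norm_prod, Finset.prod_pow]
  have h2 : ∀ k, ‖1 - (x : ℂ) * u k‖ ^ 2 ≤ 1 - 2 * x * (u k).re + x ^ 2 := by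
    intro k
    have h3 := hu k
    have h4 : ‖u k‖ ^ 2 ≤ 1 := by nlinarith [norm_nonneg (u k)]
    rw [norm_sq_re_im] at h4 ⊢
    simp only [Complex.sub_re, Complex.sub_im, Complex.one_re, Complex.one_im,
      Complex.re_ofReal_mul, Complex.im_ofReal_mul]
    nlinarith [mul_le_mul_of_nonneg_left h4 (sq_nonneg x)]
  have h0 : ∀ k, 0 ≤ 1 - 2 * x * (u k).re + x ^ 2 := fun k => (sq_nonneg _).trans (h2 k)
  have h3 : ∏ k, ‖1 - (x : ℂ) * u k‖ ^ 2 ≤ ∏ k, (1 - 2 * x * (u k).re + x ^ 2) :=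
    Finset.prod_le_prod (fun k _ => sq_nonneg _) fun k _ => h2 k
  have h5 : ∏ k, (1 - 2 * x * (u k).re + x ^ 2) ≤
      ((∑ k, (1 - 2 * x * (u k).re + x ^ 2)) / (N : ℝ)) ^ N := by
    have h6 := Real.geom_mean_le_arith_mean_weighted (Finset.univ : Finset (Fin N))
      (fun _ => (1 : ℝ) / N) (fun k => 1 - 2 * x * (u k).re + x ^ 2)
      (fun _ _ => by positivity) (by simp [hNpos.ne']) (fun k _ => h0 k)
    have h7 : ∏ k, (1 - 2 * x * (u k).re + x ^ 2) ^ ((1 : ℝ) / N) =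
        (∏ k, (1 - 2 * x * (u k).re + x ^ 2)) ^ ((1 : ℝ) / N) :=
      Real.finsetProd_rpow _ _ (fun k _ => h0 k) _
    rw [h7, ← Finset.mul_sum] at h6
    have hP : 0 ≤ ∏ k, (1 - 2 * x * (u k).re + x ^ 2) := Finset.prod_nonneg fun k _ => h0 k
    have h8 : ((∏ k, (1 - 2 * x * (u k).re + x ^ 2)) ^ ((1 : ℝ) / N)) ^ N =
        ∏ k, (1 - 2 * x * (u k).re + x ^ 2) := by
      rw [← Real.rpow_natCast, ← Real.rpow_mul hP, one_div, inv_mul_cancel₀ hNpos.ne',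
        Real.rpow_one]
    rw [← h8]
    apply pow_le_pow_left₀ (Real.rpow_nonneg hP _)
    refine h6.trans (le_of_eq ?_)
    ring
  have h6 : (∑ k, (1 - 2 * x * (u k).re + x ^ 2)) / (N : ℝ) = gg (av u).re x := by
    have h7 : (av u).re = (∑ k, (u k).re) / N := by
      unfold av
      have : (1 / (N : ℂ)) * ∑ k, u k = ((1 / (N : ℝ) : ℝ) : ℂ) * ∑ k, u k := by
        push_cast; ring
      rw [this, Complex.re_ofReal_mul, Complex.re_sum]
      ring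
    unfold gg
    rw [h7, Finset.sum_add_distrib, Finset.sum_sub_distrib, ← Finset.mul_sum]
    simp only [Finset.sum_const, Finset.card_univ, Fintype.card_fin, nsmul_eq_mul]
    field_simp
  rw [h1, ← h6]
  exact h3.trans h5

end amgm

section

variable {N : ℕ} {z w : Fin N → ℂ} {R : ℝ} {σ : Fin N → ℂ}

/-- the rotated numbers -/
noncomputable def ru (w : Fin N → ℂ) (ω : ℂ) : Fin N → ℂ := fun k => ω * uu w k

theorem Cfg2.ru_le (hC : Cfg2 N z w R σ) {ω : ℂ} (hω : ‖ω‖ = 1) (k : Fin N) :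
    ‖ru w ω k‖ ≤ 1 := by
  unfold ru
  rw [norm_mul, hω, one_mul]
  exact hC.u_le k

theorem av_ru (w : Fin N → ℂ) (ω : ℂ) : av (ru w ω) = ω * av (uu w) := av_mul ω (uu w)

/-- the certificate at `y = t ω` -/
theorem Cfg2.cert_off (hC : Cfg2 N z w R σ) {a l t G : ℝ} {e ω : ℂ} (he : ‖e‖ = 1)
    (hω : ‖ω‖ = 1) (ht : 0 < t) (hc : CertAt a l e ((R : ℂ) - (t : ℂ) * ω))
    (ha : a * ((N + 1) / N) ≤ 3 / 10) (h2 : (1 + a) * ‖(R : ℂ) - (t : ℂ) * ω‖ ≤ 1)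
    (h3 : t + 2 * ‖(R : ℂ) - (t : ℂ) * ω‖ ≤ 3)
    (h4 : (1 - a) * (t - 2 * ‖(R : ℂ) - (t : ℂ) * ω‖) ≤ 2) (hG : 0 < G)
    (hf : G ≤ ‖∫ x in (0 : ℝ)..t, qq (ru w ω) x‖) :
    N * (1 + Real.log (1 - a ^ 2) / 2 - l)
      + a * (N * t * (conj e * ω).re - ((N : ℝ) + 1) * (conj e * conj (av (uu w))).re)
      + t * ω.re + kap a * e.re + Real.log (((N : ℝ) + 1) * G / t) < N + 1 := by
  have hty : ‖(t : ℂ) * ω‖ = t := by
    rw [norm_mul, hω, mul_one, Complex.norm_real, Real.norm_of_nonneg ht.le]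
  have h5 := H80.fI_eq w ω t
  have h6 := congrArg norm h5
  rw [norm_mul, Complex.norm_real, Real.norm_of_nonneg ht.le] at h6
  have h7 : ‖fI w ((t : ℂ) * ω)‖ = ‖∫ x in (0 : ℝ)..t, qq (ru w ω) x‖ / t := by
    rw [eq_div_iff ht.ne', mul_comm, h6]
    rfl
  have hpos : 0 < ‖fI w ((t : ℂ) * ω)‖ := by
    rw [h7]
    exact div_pos (hG.trans_le hf) ht
  have h := hC.cfg.m5_free_one (by linarith [hC.hN]) he hc ha h2
    (by rw [hty]; linarith) (by rw [hty]; linarith) (norm_pos_iff.1 hpos)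
  have e1 : (conj e * (N * ((t : ℂ) * ω) - ((N : ℂ) + 1) * conj (av (uu w)))).re =
      N * t * (conj e * ω).re - ((N : ℝ) + 1) * (conj e * conj (av (uu w))).re := by
    have : conj e * (N * ((t : ℂ) * ω) - ((N : ℂ) + 1) * conj (av (uu w))) =
        ((N * t : ℝ) : ℂ) * (conj e * ω) - (((N : ℝ) + 1 : ℝ) : ℂ) * (conj e * conj (av (uu w))) := by
      push_cast
      ring
    rw [this, Complex.sub_re, Complex.re_ofReal_mul, Complex.re_ofReal_mul]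
  have e2 : (conj (-1 : ℂ) * ((t : ℂ) * ω)).re = -(t * ω.re) := by
    rw [map_neg, map_one, neg_one_mul, Complex.neg_re, Complex.re_ofReal_mul]
  have e3 : (conj e * (-1 : ℂ)).re = -e.re := by
    rw [mul_neg_one, Complex.neg_re, Complex.conj_re]
  rw [e1, e2, e3] at h
  have h8 : Real.log (((N : ℝ) + 1) * G / t) ≤ Real.log (((N : ℝ) + 1) * ‖fI w ((t : ℂ) * ω)‖) := by
    apply Real.log_le_log (by positivity)
    rw [h7, ← mul_div_assoc]
    apply div_le_div_of_nonneg_right _ ht.le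
    exact mul_le_mul_of_nonneg_left hf (by positivity)
  linarith

end

end Pool.Agent.Lib.MP_af3a4a_an.P1.H80
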