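import Pool.Agent.Lib.MP_af3a4a_an.P1.H80.Cont3D1
import Pool.Agent.Lib.MP_af3a4a_an.P1.H80.Cont3D2
import Pool.Agent.Lib.MP_af3a4a_an.P1.H80.Cont3D3

/-!
# `N = 3`: no counterexample with `R ≥ 57/40` (council 2, helper80)
-/

namespace Pool.Agent.Lib.MP_af3a4a_an.P1.H80

open C3

/-- **the contour method for `N = 3`** -/
theorem n3_contour {z w : Fin 3 → ℂ} {R : ℝ} {σ : Fin 3 → ℂ} (hC : Cfg2 3 z w R σ) :
    R < 57 / 40 := by
  by_contra hcon
  push Not at hcon
  have h1 := large_R hC
  have h2 : R < 5 / 2 := by
    have e : (((3 : ℕ) : ℝ) + 2) / 2 = 5 / 2 := by norm_num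
    rwa [e] at h1
  rcases le_total R ((580 : ℕ) / 400) with h580 | h580
  · exact rchk_sound c570 hC (by push_cast; linarith) h580
  rcases le_total R ((590 : ℕ) / 400) with h590 | h590
  · exact rchk_sound c580 hC (by push_cast; linarith) h590
  rcases le_total R ((600 : ℕ) / 400) with h600 | h600
  · exact rchk_sound c590 hC (by push_cast; linarith) h600
  rcases le_total R ((620 : ℕ) / 400) with h620 | h620
  · exact rchk_sound c600 hC (by push_cast; linarith) h620
  rcases le_total R ((640 : ℕ) / 400) with h640 | h640
  · exact rchk_sound c620 hC (by push_cast; linarith) h640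
  rcases le_total R ((660 : ℕ) / 400) with h660 | h660
  · exact rchk_sound c640 hC (by push_cast; linarith) h660
  rcases le_total R ((680 : ℕ) / 400) with h680 | h680
  · exact rchk_sound c660 hC (by push_cast; linarith) h680
  rcases le_total R ((700 : ℕ) / 400) with h700 | h700
  · exact rchk_sound c680 hC (by push_cast; linarith) h700
  rcases le_total R ((720 : ℕ) / 400) with h720 | h720
  · exact rchk_sound c700 hC (by push_cast; linarith) h720
  rcases le_total R ((740 : ℕ) / 400) with h740 | h740
  · exact rchk_sound c720 hC (by push_cast; linarith) h740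
  rcases le_total R ((760 : ℕ) / 400) with h760 | h760
  · exact rchk_sound c740 hC (by push_cast; linarith) h760
  rcases le_total R ((780 : ℕ) / 400) with h780 | h780
  · exact rchk_sound c760 hC (by push_cast; linarith) h780
  rcases le_total R ((800 : ℕ) / 400) with h800 | h800
  · exact rchk_sound c780 hC (by push_cast; linarith) h800
  rcases le_total R ((820 : ℕ) / 400) with h820 | h820
  · exact rchk_sound c800 hC (by push_cast; linarith) h820
  rcases le_total R ((840 : ℕ) / 400) with h840 | h840
  · exact rchk_sound c820 hC (by push_cast; linarith) h840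
  rcases le_total R ((860 : ℕ) / 400) with h860 | h860
  · exact rchk_sound c840 hC (by push_cast; linarith) h860
  rcases le_total R ((880 : ℕ) / 400) with h880 | h880
  · exact rchk_sound c860 hC (by push_cast; linarith) h880
  rcases le_total R ((900 : ℕ) / 400) with h900 | h900
  · exact rchk_sound c880 hC (by push_cast; linarith) h900
  rcases le_total R ((920 : ℕ) / 400) with h920 | h920
  · exact rchk_sound c900 hC (by push_cast; linarith) h920
  rcases le_total R ((940 : ℕ) / 400) with h940 | h940
  · exact rchk_sound c920 hC (by push_cast; linarith) h940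
  rcases le_total R ((960 : ℕ) / 400) with h960 | h960
  · exact rchk_sound c940 hC (by push_cast; linarith) h960
  rcases le_total R ((980 : ℕ) / 400) with h980 | h980
  · exact rchk_sound c960 hC (by push_cast; linarith) h980
  rcases le_total R ((1000 : ℕ) / 400) with h1000 | h1000
  · exact rchk_sound c980 hC (by push_cast; linarith) h1000
  push_cast at h1000
  linarith

end Pool.Agent.Lib.MP_af3a4a_an.P1.H80
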