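import Pool.Agent.Lib.MP_af3a4a_an.P1.H80.Normal

/-!
# The contour lemma (council 2, helper80)

If `F'` has no zero in `|x| ≤ r < 1`, then for some `|x| = r`
`∑_j Re ((R' - x)/(z_j - x)) ≤ Re ((R' - x)/x)`.
Consequence: `R < (N + 2)/2`.
-/

namespace Pool.Agent.Lib.MP_af3a4a_an.P1.H80

open Finset MeasureTheory intervalIntegral ComplexConjugate
open Pool.Agent.Lib.MP_af3a4a_an.SV (uu av sq EE)

/-- mean value / maximum principle -/
theorem exists_re_nonneg {H : ℂ → ℂ} {r : ℝ} (hr : 0 < r)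
    (hH : ∀ x : ℂ, ‖x‖ ≤ r → DifferentiableAt ℂ H x) (h0 : H 0 = 0) :
    ∃ x : ℂ, ‖x‖ = r ∧ 0 ≤ (H x).re := by
  by_contra hcon
  push Not at hcon
  have hcont : ContinuousOn (fun x => (H x).re) (Metric.sphere (0 : ℂ) r) := by
    intro x hx
    rw [mem_sphere_zero_iff_norm] at hx
    exact (Complex.continuous_re.continuousAt.comp (hH x hx.le).continuousAt).continuousWithinAt
  have hne : (Metric.sphere (0 : ℂ) r).Nonempty := by
    refine ⟨(r : ℂ), ?_⟩
    rw [mem_sphere_zero_iff_norm, Complex.norm_real, Real.norm_of_nonneg hr.le]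
  obtain ⟨x₀, hx₀, hmax⟩ := (isCompact_sphere (0 : ℂ) r).exists_isMaxOn hne hcont
  rw [mem_sphere_zero_iff_norm] at hx₀
  have hneg := hcon x₀ hx₀
  have h1 : ‖(fun x => Complex.exp (H x)) 0‖ ≤ Real.exp (H x₀).re := by
    apply Complex.norm_le_of_forall_mem_frontier_norm_le (U := Metric.ball 0 r)
      (f := fun x => Complex.exp (H x)) Metric.isBounded_ball
    · constructor
      · intro x hx
        rw [mem_ball_zero_iff] at hx
        exact ((hH x hx.le).cexp).differentiableWithinAt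
      · rw [closure_ball (0 : ℂ) hr.ne']
        intro x hx
        rw [mem_closedBall_zero_iff] at hx
        exact ((hH x hx).continuousAt.cexp).continuousWithinAt
    · intro x hx
      rw [frontier_ball (0 : ℂ) hr.ne'] at hx
      rw [Complex.norm_exp]
      exact Real.exp_le_exp.2 (hmax hx)
    · rw [closure_ball (0 : ℂ) hr.ne', mem_closedBall_zero_iff, norm_zero]
      exact hr.le
  simp only [h0, Complex.exp_zero, norm_one] at h1
  have h2 : Real.exp (H x₀).re < Real.exp 0 := Real.exp_lt_exp.2 hneg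
  rw [Real.exp_zero] at h2
  linarith

section

variable {N : ℕ} {z w : Fin N → ℂ} {c : ℂ} {σ : Fin N → ℂ} {σ₀ : ℂ}

/-- `F'(x) = P(x) (1 + ∑ x/(x - z_j))` -/
theorem Cfg1.deriv_eq (hC : Cfg1 N z w c σ σ₀) {x : ℂ} (hx : ∀ j, x ≠ z j) :
    ((N : ℂ) + 1) * ∏ k, (x - w k) = (∏ j, (x - z j)) * (1 + ∑ j, x / (x - z j)) := by
  have h1 := hC.hderiv x
  have hd : ∀ j ∈ (Finset.univ : Finset (Fin N)),
      HasDerivAt (fun x : ℂ => x - z j) 1 x := by
    intro j _
    exact (hasDerivAt_id x).sub_const (z j)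
  have h2 := (hasDerivAt_id x).mul (HasDerivAt.fun_finsetProd hd)
  have h3 := h1.unique h2
  rw [h3]
  simp only [id, one_mul, smul_eq_mul, mul_one]
  rw [mul_add, mul_one, Finset.mul_sum, Finset.mul_sum]
  congr 1
  refine Finset.sum_congr rfl fun j hj => ?_
  have hne : x - z j ≠ 0 := sub_ne_zero.2 (hx j)
  have e := Finset.mul_prod_erase Finset.univ (fun j => x - z j) hj
  rw [← e]
  field_simp

/-- **the contour lemma** -/
theorem Cfg1.contour (hC : Cfg1 N z w c σ σ₀) {r R' : ℝ} (hr0 : 0 < r) (hr1 : r < 1)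
    (hR' : r < R') (hz : ∀ j, r < ‖z j‖) :
    ∃ x : ℂ, ‖x‖ = r ∧
      ∑ j, (((R' : ℂ) - x) / (z j - x)).re ≤ (((R' : ℂ) - x) / x).re := by
  have hQ : ∀ x : ℂ, ‖x‖ ≤ r → ∏ k, (x - w k) ≠ 0 := by
    intro x hx
    rw [Finset.prod_ne_zero_iff]
    intro k _ h
    have : x = w k := sub_eq_zero.1 h
    have h2 := hC.far k
    rw [← this] at h2
    linarith
  have hRx : ∀ x : ℂ, ‖x‖ ≤ r → (R' : ℂ) - x ≠ 0 := by
    intro x hx h
    have : x = (R' : ℂ) := (sub_eq_zero.1 h).symm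
    rw [this, Complex.norm_real, Real.norm_of_nonneg (by linarith)] at hx
    linarith
  set H : ℂ → ℂ := fun x => x * (∏ j, (x - z j)) /
    ((((N : ℂ) + 1) * ∏ k, (x - w k)) * ((R' : ℂ) - x)) with hH
  have hN1 : (N : ℂ) + 1 ≠ 0 := by exact_mod_cast Nat.succ_ne_zero N
  have hdiff : ∀ x : ℂ, ‖x‖ ≤ r → DifferentiableAt ℂ H x := by
    intro x hx
    apply DifferentiableAt.div
    · fun_prop
    · fun_prop
    · exact mul_ne_zero (mul_ne_zero hN1 (hQ x hx)) (hRx x hx)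
  obtain ⟨x, hx, hre⟩ := exists_re_nonneg hr0 hdiff (by simp [hH])
  refine ⟨x, hx, ?_⟩
  have hx0 : x ≠ 0 := by
    intro h
    rw [h, norm_zero] at hx
    linarith
  have hxz : ∀ j, x ≠ z j := by
    intro j h
    have := hz j
    rw [← h, hx] at this
    linarith
  have hP : ∏ j, (x - z j) ≠ 0 := by
    rw [Finset.prod_ne_zero_iff]
    intro j _
    exact sub_ne_zero.2 (hxz j)
  have hR := hRx x hx.le
  -- the function `G`
  set G : ℂ := (∑ j, 1 / (z j - x)) - 1 / x with hG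
  have hF : ((N : ℂ) + 1) * ∏ k, (x - w k) = -(x * (∏ j, (x - z j)) * G) := by
    rw [hC.deriv_eq hxz, hG]
    have e1 : ∑ j, x / (x - z j) = -(x * ∑ j, 1 / (z j - x)) := by
      rw [Finset.mul_sum, ← Finset.sum_neg_distrib]
      refine Finset.sum_congr rfl fun j _ => ?_
      rw [← neg_sub (z j) x, div_neg, mul_one_div]
    rw [e1]
    field_simp
    ring
  have hG0 : G ≠ 0 := by
    intro h
    rw [h, mul_zero, neg_zero] at hF
    exact mul_ne_zero hN1 (hQ x hx.le) hF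
  have hHx : H x = -((G * ((R' : ℂ) - x))⁻¹) := by
    rw [hH]
    simp only
    rw [hF]
    field_simp
  rw [hHx, Complex.neg_re, Complex.inv_re] at hre
  have hpos : 0 < Complex.normSq (G * ((R' : ℂ) - x)) :=
    Complex.normSq_pos.2 (mul_ne_zero hG0 hR)
  have h3 : (G * ((R' : ℂ) - x)).re ≤ 0 := by
    by_contra h4
    push Not at h4
    have := div_pos h4 hpos
    linarith
  have h5 : G * ((R' : ℂ) - x) = (∑ j, ((R' : ℂ) - x) / (z j - x)) - ((R' : ℂ) - x) / x := by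
    rw [hG, sub_mul, Finset.sum_mul]
    congr 1
    · refine Finset.sum_congr rfl fun j _ => ?_
      rw [one_div_mul_eq_div]
    · rw [one_div_mul_eq_div]
  rw [h5, Complex.sub_re, Complex.re_sum] at h3
  linarith

end

/-- `Re (A/(A+δ)) ≥ |A|/(|A|+|δ|)` if `|δ| < |A|` -/
theorem re_div_ge {A δ : ℂ} (h : ‖δ‖ < ‖A‖) : ‖A‖ / (‖A‖ + ‖δ‖) ≤ (A / (A + δ)).re := by
  have hA : 0 < ‖A‖ := (norm_nonneg δ).trans_lt h
  have hne : A + δ ≠ 0 := by
    intro h0
    have : A = -δ := eq_neg_of_add_eq_zero_left h0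
    rw [this, norm_neg] at h
    exact lt_irrefl _ h
  have hn : 0 < ‖A + δ‖ ^ 2 := by positivity
  have e1 : (A / (A + δ)).re = (‖A‖ ^ 2 + (conj δ * A).re) / ‖A + δ‖ ^ 2 := by
    rw [Complex.div_re, ← Complex.normSq_eq_norm_sq, ← Complex.normSq_eq_norm_sq, ← add_div]
    congr 1
    rw [Complex.normSq_apply]
    simp only [Complex.add_re, Complex.add_im, Complex.mul_re, Complex.conj_re, Complex.conj_im]
    ring
  have e2 : ‖A + δ‖ ^ 2 = ‖A‖ ^ 2 + 2 * (conj δ * A).re + ‖δ‖ ^ 2 := by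
    rw [norm_sq_re_im, norm_sq_re_im, norm_sq_re_im]
    simp only [Complex.add_re, Complex.add_im, Complex.mul_re, Complex.conj_re, Complex.conj_im]
    ring
  have hle : (conj δ * A).re ≤ ‖A‖ * ‖δ‖ := by
    refine (Complex.re_le_norm _).trans (le_of_eq ?_)
    rw [norm_mul, Complex.norm_conj]
    ring
  rw [e1, div_le_div_iff₀ (by positivity) hn, e2]
  have h3 : 0 ≤ (‖A‖ - ‖δ‖) * (‖A‖ * ‖δ‖ - (conj δ * A).re) :=
    mul_nonneg (by linarith) (by linarith)
  nlinarith [norm_nonneg δ]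

section

variable {N : ℕ} {z w : Fin N → ℂ} {R : ℝ} {σ : Fin N → ℂ}

theorem Cfg2.mass' (hC : Cfg2 N z w R σ) : R + ∑ j, ‖z j - (R : ℂ)‖ < (N : ℝ) + 1 := by
  have h := hC.cfg.mass
  rwa [Complex.norm_real, Real.norm_of_nonneg hC.hR.le] at h

/-- **there is no counterexample with `R ≥ (N + 2)/2`** -/
theorem large_R (hC : Cfg2 N z w R σ) : R < ((N : ℝ) + 2) / 2 := by
  by_contra hcon
  push Not at hcon
  have hN3 := hC.hN
  have hN : (3 : ℝ) ≤ N := by exact_mod_cast hN3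
  have hmass := hC.mass'
  set S := ∑ j, ‖z j - (R : ℂ)‖ with hS
  have hS0 : 0 ≤ S := Finset.sum_nonneg fun j _ => norm_nonneg _
  have hRn : R < N + 1 := by linarith
  have hSj : ∀ j, ‖z j - (R : ℂ)‖ ≤ S := fun j =>
    Finset.single_le_sum (fun j _ => norm_nonneg (z j - (R : ℂ))) (Finset.mem_univ j)
  -- the radius
  obtain ⟨r, hr0, hr1, hr⟩ : ∃ r : ℝ, 0 < r ∧ r < 1 ∧ N * R + S < r * (N ^ 2 + N) := by
    have h1 : N * R + S < (N : ℝ) ^ 2 + N := by nlinarith
    have hpos : (0 : ℝ) < (N : ℝ) ^ 2 + N := by positivity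
    have h2 : (N * R + S) / ((N : ℝ) ^ 2 + N) < 1 := (div_lt_one hpos).2 h1
    obtain ⟨r, hr1, hr2⟩ := exists_between h2
    refine ⟨r, ?_, hr2, (div_lt_iff₀ hpos).1 hr1⟩
    have : 0 ≤ (N * R + S) / ((N : ℝ) ^ 2 + N) := by
      apply div_nonneg _ hpos.le
      have : 0 ≤ (N : ℝ) * R := mul_nonneg (by linarith) hC.hR.le
      linarith
    linarith
  have hzj : ∀ j, r < ‖z j‖ := by
    intro j
    have h1 : ‖(R : ℂ)‖ ≤ ‖z j‖ + ‖z j - (R : ℂ)‖ := by
      have h2 : (R : ℂ) = z j - (z j - (R : ℂ)) := by ring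
      calc ‖(R : ℂ)‖ = ‖z j - (z j - (R : ℂ))‖ := by rw [← h2]
        _ ≤ _ := norm_sub_le _ _
    rw [Complex.norm_real, Real.norm_of_nonneg hC.hR.le] at h1
    have h3 := hSj j
    linarith
  obtain ⟨x, hx, hle⟩ := hC.cfg.contour (R' := R) hr0 hr1 (by linarith) hzj
  set A : ℂ := (R : ℂ) - x with hA
  have hx2 : x.re ^ 2 + x.im ^ 2 = r ^ 2 := by rw [← norm_sq_re_im, hx]
  have hA2 : ‖A‖ ^ 2 = R ^ 2 - 2 * R * x.re + r ^ 2 := by
    rw [norm_sq_re_im, hA]
    simp only [Complex.sub_re, Complex.sub_im, Complex.ofReal_re, Complex.ofReal_im]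
    linear_combination hx2
  have hAge : R - r ≤ ‖A‖ := by
    have h1 : ‖(R : ℂ)‖ ≤ ‖A‖ + ‖x‖ := by
      calc ‖(R : ℂ)‖ = ‖A + x‖ := by rw [hA]; congr 1; ring
        _ ≤ _ := norm_add_le _ _
    rw [Complex.norm_real, Real.norm_of_nonneg hC.hR.le, hx] at h1
    linarith
  set a := ‖A‖ with ha
  have hapos : 0 < a := by linarith
  have hSa : S < a := by linarith
  have hterm : ∀ j, a / (a + ‖z j - (R : ℂ)‖) ≤ (A / (z j - x)).re := by
    intro j
    have h1 : ‖z j - (R : ℂ)‖ < ‖A‖ := (hSj j).trans_lt hSa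
    have h2 := re_div_ge h1
    have e : A + (z j - (R : ℂ)) = z j - x := by rw [hA]; ring
    rwa [e] at h2
  have hsum : (N : ℝ) ^ 2 * a / (N * a + S) ≤ ∑ j, (A / (z j - x)).re := by
    have hpos : ∀ j ∈ (Finset.univ : Finset (Fin N)), 0 < a + ‖z j - (R : ℂ)‖ := fun j _ => by
      have := norm_nonneg (z j - (R : ℂ))
      linarith
    have h1 := Finset.sq_sum_div_le_sum_sq_div (Finset.univ : Finset (Fin N)) (fun _ => (1 : ℝ)) hpos
    simp only [Finset.sum_const, Finset.card_univ, Fintype.card_fin, nsmul_eq_mul, mul_one,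
      one_pow, Finset.sum_add_distrib] at h1
    rw [← hS] at h1
    calc (N : ℝ) ^ 2 * a / (N * a + S) = a * ((N : ℝ) ^ 2 / (N * a + S)) := by ring
      _ ≤ a * ∑ j, 1 / (a + ‖z j - (R : ℂ)‖) := mul_le_mul_of_nonneg_left h1 hapos.le
      _ = ∑ j, a / (a + ‖z j - (R : ℂ)‖) := by
          rw [Finset.mul_sum]
          refine Finset.sum_congr rfl fun j _ => ?_
          ring
      _ ≤ _ := Finset.sum_le_sum fun j _ => hterm j
  have hAx : (A / x).re = (R ^ 2 - r ^ 2 - a ^ 2) / (2 * r ^ 2) := by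
    have h1 : (A / x).re = (R * x.re - r ^ 2) / r ^ 2 := by
      rw [Complex.div_re, ← add_div, Complex.normSq_eq_norm_sq, hx]
      congr 1
      rw [hA]
      simp only [Complex.sub_re, Complex.sub_im, Complex.ofReal_re, Complex.ofReal_im]
      linear_combination -hx2
    rw [h1, hA2]
    field_simp
    ring
  rw [hAx] at hle
  have hfin := hsum.trans hle
  have hNaS : 0 < N * a + S := by positivity
  rw [div_le_div_iff₀ hNaS (by positivity)] at hfin
  -- contradiction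
  obtain ⟨t, ht⟩ : ∃ t, t = a - (R - r) := ⟨_, rfl⟩
  have ht0 : 0 ≤ t := by linarith
  have hat : a = (R - r) + t := by linarith
  have hb : 2 * r ≤ R := by linarith
  have hK : N * (R - r) + S < r * N ^ 2 := by linarith
  have e : (R ^ 2 - r ^ 2 - a ^ 2) * (N * a + S) =
      (2 * r * (R - r) - 2 * (R - r) * t - t ^ 2) * (N * (R - r) + S + N * t) := by
    rw [hat]; ring
  rw [e, hat] at hfin
  have hbr : 0 < R - r := by linarith
  have hN0 : (0 : ℝ) < N := by linarith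
  have k1 : 0 ≤ t ^ 2 * (N * (R - r) + S + N * t) := by positivity
  have k2 : 0 ≤ 2 * (R - r) * N * t ^ 2 := by positivity
  have k3 : 0 ≤ 2 * (R - r) * t * (N * (R - r) + S - r * N) := by
    apply mul_nonneg (by positivity)
    have : r * N ≤ N * (R - r) := by nlinarith
    linarith
  have k4 : 2 * r * (R - r) * (N * (R - r) + S) < 2 * r * (R - r) * (r * N ^ 2) :=
    mul_lt_mul_of_pos_left hK (by positivity)
  have k5 : 0 ≤ 2 * r ^ 2 * N ^ 2 * t := by positivity
  nlinarith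

end

end Pool.Agent.Lib.MP_af3a4a_an.P1.H80
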