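import Pool.Agent.Lib.MP_af3a4a_an.P1.H80.Cfg

/-!
# The certificate M5 without `E` and without the centroid of the critical points (helper80)

The pointwise inequality is strengthened by `θ(ζ) = (1 - 1/L₁) ((1-a)(|ζ| - 2|s|) - L₁)_+`; with
the inequality of de Bruijn and Springer for the convex function `θ` the terms
`b log |w_k| - a (n/N) (|w_k| - 1/|w_k|)` are compensated for all `|w_k| ≥ 1`.
-/

namespace Pool.Agent.Lib.MP_af3a4a_an.P1.H80

open Finset ComplexConjugate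
open Pool.Agent.Lib.MP_af3a4a_an.SV (uu av sq EE)

/-- growth of `X - log |X + iD|` to the right of `L₁` -/
theorem ff_growth {D L₁ X : ℝ} (hL : 1 ≤ L₁) (hX : L₁ ≤ X) :
    ff D L₁ + (1 - 1 / L₁) * (X - L₁) ≤ ff D X := by
  have hmono : MonotoneOn (fun x => ff D x - (1 - 1 / L₁) * x) (Set.Icc L₁ X) := by
    have hd : ∀ x ∈ Set.Icc L₁ X, HasDerivAt (fun x => ff D x - (1 - 1 / L₁) * x)
        ((x ^ 2 - x + D ^ 2) / (x ^ 2 + D ^ 2) - (1 - 1 / L₁)) x := by
      intro x hx
      have hx0 : 0 < x := by linarith only [hL, hx, hx.1]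
      have h1 := (ff_hasDerivAt (D := D) (X := x) (by positivity)).sub
        ((hasDerivAt_id x).const_mul (1 - 1 / L₁))
      exact h1.congr_deriv (by ring)
    apply monotoneOn_of_deriv_nonneg (convex_Icc _ _)
    · exact fun x hx => (hd x hx).continuousAt.continuousWithinAt
    · exact fun x hx => (hd x (interior_subset hx)).differentiableAt.differentiableWithinAt
    · intro x hx
      have hx' := interior_subset hx
      rw [(hd x hx').deriv]
      have hx0 : 0 < x := by linarith only [hL, hx', hx'.1]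
      have hL0 : 0 < L₁ := by linarith only [hL]
      have e1 : (x ^ 2 - x + D ^ 2) / (x ^ 2 + D ^ 2) - (1 - 1 / L₁) =
          1 / L₁ - x / (x ^ 2 + D ^ 2) := by
        have : x ^ 2 + D ^ 2 ≠ 0 := by positivity
        field_simp
        ring
      rw [e1, sub_nonneg, div_le_div_iff₀ (by positivity) hL0]
      nlinarith only [hx', hx0, hx'.1, sq_nonneg D]
  have := hmono ⟨le_rfl, hX⟩ ⟨hX, le_rfl⟩ hX
  simp only at this
  linarith only [this]

/-- the growth term -/
noncomputable def gr (L₁ X : ℝ) : ℝ := (1 - 1 / L₁) * max 0 (X - L₁)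

theorem gr_nonneg {L₁ X : ℝ} (hL : 1 ≤ L₁) : 0 ≤ gr L₁ X := by
  unfold gr
  apply mul_nonneg _ (le_max_left _ _)
  rw [sub_nonneg, div_le_one (by linarith only [hL])]
  exact hL

theorem gr_mono {L₁ X Y : ℝ} (hL : 1 ≤ L₁) (h : X ≤ Y) : gr L₁ X ≤ gr L₁ Y := by
  unfold gr
  apply mul_le_mul_of_nonneg_left
  · exact max_le_max le_rfl (by linarith only [h])
  · rw [sub_nonneg, div_le_one (by linarith only [hL])]
    exact hL

theorem ff_min' {D X₀ X L₁ : ℝ} (hX : X₀ ≤ X) (hP : 0 < X ^ 2 + D ^ 2) (hL : 1 ≤ L₁)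
    (hX0 : X₀ ≤ L₁) :
    ff D X₀ + gr L₁ X ≤ ff D X ∨
      (D ^ 2 ≤ 1 / 4 ∧ 1 - D ^ 2 / 2 - (D ^ 2) ^ 2 / 2 + gr L₁ X ≤ ff D X) := by
  rcases le_total X L₁ with h | h
  · have h0 : gr L₁ X = 0 := by
      unfold gr
      rw [max_eq_left (by linarith only [h]), mul_zero]
    rw [h0, add_zero, add_zero]
    exact ff_min hX hP
  · have h0 : gr L₁ X = (1 - 1 / L₁) * (X - L₁) := by
      unfold gr
      rw [max_eq_right (by linarith only [h])]
    have h1 := ff_growth (D := D) hL h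
    rcases ff_min (D := D) hX0 (by
      have : 0 < L₁ := by linarith only [hL]
      positivity) with h2 | ⟨h2, h3⟩
    · left; rw [h0]; linarith only [h1, h2]
    · right; exact ⟨h2, by rw [h0]; linarith only [h1, h3]⟩

theorem pointwise_real' {a k l p q T U ρ L₁ : ℝ} (h : Cert a k l p q)
    (hTU : T ^ 2 + U ^ 2 = 1) (hρ : 0 ≤ ρ) (hs : 0 < p ^ 2 + q ^ 2)
    (hζ : 0 < (p + ρ * T) ^ 2 + (q + ρ * U) ^ 2) (hL : 1 ≤ L₁)
    (hs1 : (1 + a) ^ 2 * (p ^ 2 + q ^ 2) ≤ 1) :
    1 + Real.log (1 - a ^ 2) / 2 - l + gr L₁ ((1 - a) * (T * (p + ρ * T) + U * (q + ρ * U))) ≤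
      (T * (p + ρ * T) + U * (q + ρ * U)) + a * (p + ρ * T) - kap a * T
        - Real.log ((p + ρ * T) ^ 2 + (q + ρ * U) ^ 2) / 2 := by
  obtain ⟨a0, a1, hk, hl, hA, hd, hB⟩ := h
  have hT1 : T ≤ 1 := by linarith only [hTU, sq_nonneg U, sq_nonneg (T - 1)]
  have hT0 : -1 ≤ T := by linarith only [hTU, sq_nonneg U, sq_nonneg (T + 1)]
  have hgap := gap_lower a0 a1 hT0 hT1
  set L := 1 + a * T with hLd
  have hLpos : 0 < L := by rw [hLd]; nlinarith only [a0, a1, hT0]
  have hL1 : L ≤ 1 + a := by rw [hLd]; nlinarith only [a0, hT1]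
  have hL2 : 1 - a ≤ L := by rw [hLd]; nlinarith only [a0, hT0]
  set x := ρ + (p * T + q * U) with hx
  set d := p * U - q * T with hd'
  have e1 : T * (p + ρ * T) + U * (q + ρ * U) = x := by
    rw [hx]; linear_combination ρ * hTU
  have e2 : p + ρ * T = x * T + d * U := by
    rw [hx, hd']; linear_combination (-p) * hTU
  have e3 : (p + ρ * T) ^ 2 + (q + ρ * U) ^ 2 = x ^ 2 + d ^ 2 := by
    rw [hx, hd']; linear_combination (ρ ^ 2 - (p ^ 2 + q ^ 2)) * hTU
  rw [e3] at hζ ⊢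
  rw [e1]
  have e4 : Real.log ((L * x) ^ 2 + (L * d) ^ 2) = 2 * Real.log L + Real.log (x ^ 2 + d ^ 2) := by
    rw [show (L * x) ^ 2 + (L * d) ^ 2 = L ^ 2 * (x ^ 2 + d ^ 2) by ring,
      Real.log_mul (by positivity) hζ.ne', Real.log_pow]
    norm_num
  have e5 : x + a * (p + ρ * T) - kap a * T - Real.log (x ^ 2 + d ^ 2) / 2 =
      ff (L * d) (L * x) + a * d * U - kap a * T + Real.log L := by
    unfold ff
    rw [e4, e2, hLd]
    ring
  rw [e5]
  have e6 : (p * T + q * U) ^ 2 + d ^ 2 = p ^ 2 + q ^ 2 := by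
    rw [hd']; linear_combination (p ^ 2 + q ^ 2) * hTU
  have hdd : d ^ 2 ≤ p ^ 2 + q ^ 2 := by linarith only [e6, sq_nonneg (p * T + q * U)]
  set X0 := L * (p * T + q * U) with hX0
  have hP : 0 < (L * x) ^ 2 + (L * d) ^ 2 := by
    rw [show (L * x) ^ 2 + (L * d) ^ 2 = L ^ 2 * (x ^ 2 + d ^ 2) by ring]
    positivity
  have hXX : X0 ≤ L * x := by
    rw [hX0, hx]
    exact mul_le_mul_of_nonneg_left (by linarith only [hρ]) hLpos.le
  have hX0L : X0 ≤ L₁ := by
    have h1 : X0 ^ 2 ≤ 1 := by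
      rw [hX0, mul_pow]
      calc L ^ 2 * (p * T + q * U) ^ 2 ≤ (1 + a) ^ 2 * (p ^ 2 + q ^ 2) := by
            apply mul_le_mul (pow_le_pow_left₀ hLpos.le hL1 2) (by linarith only [e6, sq_nonneg d])
              (sq_nonneg _) (sq_nonneg _)
        _ ≤ 1 := hs1
    have h2 : X0 ≤ 1 := by nlinarith only [h1]
    linarith only [hL, h2]
  -- comparison of the growth terms
  have hgr : gr L₁ ((1 - a) * x) ≤ gr L₁ (L * x) := by
    rcases le_total 0 x with h0 | h0
    · exact gr_mono hL (mul_le_mul_of_nonneg_right hL2 h0)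
    · have z1 : gr L₁ ((1 - a) * x) = 0 := by
        unfold gr
        have : (1 - a) * x ≤ 0 := mul_nonpos_of_nonneg_of_nonpos (by linarith only [a1]) h0
        rw [max_eq_left (by linarith only [hL, this]), mul_zero]
      rw [z1]
      exact gr_nonneg hL
  rcases ff_min' hXX hP hL hX0L with h1 | ⟨h1, h2⟩
  · have e7 : ff (L * d) X0 + a * d * U - kap a * T + Real.log L =
        (p - kap a) * T + q * U + a * p - Real.log (p ^ 2 + q ^ 2) / 2 := by
      unfold ff
      rw [hX0, show (L * (p * T + q * U)) ^ 2 + (L * d) ^ 2 =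
        L ^ 2 * ((p * T + q * U) ^ 2 + d ^ 2) by ring, e6,
        Real.log_mul (by positivity) hs.ne', Real.log_pow, hLd, hd']
      push_cast
      linear_combination a * p * hTU
    have h3 := cauchy_neg (A := p - kap a) (B := q) hTU.le
    linarith only [hB, hgr, h1, e7, h3]
  · have hD2 : (L * d) ^ 2 ≤ (1 + a) ^ 2 * d ^ 2 := by
      rw [mul_pow]
      apply mul_le_mul_of_nonneg_right _ (sq_nonneg d)
      exact pow_le_pow_left₀ hLpos.le hL1 2
    have hD3 : (L * d) ^ 2 ≤ (1 + a) ^ 2 * (p ^ 2 + q ^ 2) :=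
      hD2.trans (mul_le_mul_of_nonneg_left hdd (sq_nonneg _))
    have hmin : (L * d) ^ 2 ≤ min (1 / 4) ((1 + a) ^ 2 * (p ^ 2 + q ^ 2)) := le_min h1 hD3
    have hk0 : 0 ≤ k := by
      have : 0 ≤ min (1 / 4) ((1 + a) ^ 2 * (p ^ 2 + q ^ 2)) := le_min (by norm_num) (by positivity)
      linarith only [hk, this]
    have h3 : (L * d) ^ 2 / 2 + ((L * d) ^ 2) ^ 2 / 2 ≤ k * (1 + a) ^ 2 * d ^ 2 := by
      have h4 : (L * d) ^ 2 * (1 / 2 + (L * d) ^ 2 / 2) ≤ (L * d) ^ 2 * k :=
        mul_le_mul_of_nonneg_left (by linarith only [hk, hmin]) (sq_nonneg _)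
      have h5 : (L * d) ^ 2 * k ≤ (1 + a) ^ 2 * d ^ 2 * k := mul_le_mul_of_nonneg_right hD2 hk0
      linarith only [h4, h5, show (L * d) ^ 2 * (1 / 2 + (L * d) ^ 2 / 2) = (L * d) ^ 2 / 2 + ((L * d) ^ 2) ^ 2 / 2 by ring]
    have h6 := quad_nonneg (U := U) (T := T) hA (sub_nonneg.2 hl) hd
    have h7 : (ww a + a * p - k * (1 + a) ^ 2 * p ^ 2 + l) * U ^ 2 +
        (2 * (k * (1 + a) ^ 2) * p - a) * q * (U * T) + (l - k * (1 + a) ^ 2 * q ^ 2) * T ^ 2 =
        ww a * (1 - T ^ 2) + a * d * U - k * (1 + a) ^ 2 * d ^ 2 + l := by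
      rw [hd']
      linear_combination (ww a + l) * hTU
    rw [h7] at h6
    linarith only [hgap, hgr, h2, h3, h6]

theorem pointwise_zero' {a T ρ L₁ : ℝ} (a0 : 0 ≤ a) (a1 : a < 1) (hT0 : -1 ≤ T) (hT1 : T ≤ 1)
    (hρ : 0 < ρ) (hL1 : 1 ≤ L₁) :
    1 + Real.log (1 - a ^ 2) / 2 + gr L₁ ((1 - a) * ρ) ≤
      ρ + a * (ρ * T) - kap a * T - Real.log ρ := by
  have hgap := gap_lower a0 a1 hT0 hT1
  have hw := ww_nonneg a0 a1
  have hL : 0 < 1 + a * T := by nlinarith only [a0, a1, hT0]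
  have hL2 : 1 - a ≤ 1 + a * T := by nlinarith only [a0, hT0]
  have hLρ : 0 < (1 + a * T) * ρ := mul_pos hL hρ
  have h1 : 1 + gr L₁ ((1 + a * T) * ρ) ≤ (1 + a * T) * ρ - Real.log ((1 + a * T) * ρ) := by
    have e : ∀ x : ℝ, 0 < x → ff 0 x = x - Real.log x := by
      intro x hx
      unfold ff
      rw [show x ^ 2 + (0 : ℝ) ^ 2 = x ^ 2 by ring, Real.log_pow]
      push_cast
      ring
    rcases le_total ((1 + a * T) * ρ) L₁ with h | h
    · have h0 : gr L₁ ((1 + a * T) * ρ) = 0 := by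
        unfold gr
        rw [max_eq_left (by linarith only [h]), mul_zero]
      have := Real.log_le_sub_one_of_pos hLρ
      rw [h0]; linarith only [this]
    · have h0 : gr L₁ ((1 + a * T) * ρ) = (1 - 1 / L₁) * ((1 + a * T) * ρ - L₁) := by
        unfold gr
        rw [max_eq_right (by linarith only [h])]
      have h2 := ff_growth (D := 0) hL1 h
      rw [e _ hLρ, e L₁ (by linarith only [hL1])] at h2
      have := Real.log_le_sub_one_of_pos (show 0 < L₁ by linarith only [hL1])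
      rw [h0]; linarith only [h2, this]
  rw [Real.log_mul hL.ne' hρ.ne'] at h1
  have h2 : 0 ≤ 1 - T ^ 2 := by nlinarith only [hT0, hT1]
  have h3 := mul_nonneg hw h2
  have h4 : gr L₁ ((1 - a) * ρ) ≤ gr L₁ ((1 + a * T) * ρ) :=
    gr_mono hL1 (mul_le_mul_of_nonneg_right hL2 hρ.le)
  linarith only [hgap, h1, h3, h4, show (1 + a * T) * ρ = ρ + a * (ρ * T) by ring]

/-- the pointwise inequality with growth -/
theorem pointwise' {a l L₁ : ℝ} {e s σ ζ : ℂ} (he : ‖e‖ = 1) (hσ : ‖σ‖ ≤ 1)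
    (h : (conj σ * (ζ - s)).re = ‖ζ - s‖) (hζ : ζ ≠ 0) (hc : CertAt a l e s) (hL1 : 1 ≤ L₁)
    (hs1 : (1 + a) * ‖s‖ ≤ 1) :
    1 + Real.log (1 - a ^ 2) / 2 - l + gr L₁ ((1 - a) * (‖ζ‖ - 2 * ‖s‖)) ≤
      (conj σ * ζ).re + a * (conj e * ζ).re - kap a * (conj e * σ).re - Real.log ‖ζ‖ := by
  obtain ⟨a0, a1, hc'⟩ := hc
  have hes : ∀ x : ℂ, (conj e * x).re ^ 2 + (conj e * x).im ^ 2 = ‖x‖ ^ 2 := by
    intro x
    rw [← norm_sq_re_im, norm_mul, Complex.norm_conj, he, one_mul]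
  have hee : e.re ^ 2 + e.im ^ 2 = 1 := by rw [← norm_sq_re_im, he]; norm_num
  have hlog : Real.log ‖ζ‖ = Real.log ((conj e * ζ).re ^ 2 + (conj e * ζ).im ^ 2) / 2 := by
    rw [hes, Real.log_pow]; push_cast; ring
  have hσζ : (conj σ * ζ).re = (conj e * σ).re * (conj e * ζ).re +
      (conj e * σ).im * (conj e * ζ).im := by
    simp only [Complex.mul_re, Complex.mul_im, Complex.conj_re, Complex.conj_im]
    linear_combination (-(σ.re * ζ.re + σ.im * ζ.im)) * hee
  rcases hc' with ⟨hs, hl⟩ | ⟨hs, k, hk⟩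
  · subst hs
    rw [sub_zero] at h
    obtain ⟨h1, h2⟩ := eq_dir hσ h hζ
    have hT := hes σ
    rw [h2] at hT
    have hT0 : -1 ≤ (conj e * σ).re := by nlinarith only [hT, sq_nonneg (conj e * σ).im]
    have hT1 : (conj e * σ).re ≤ 1 := by nlinarith only [hT, sq_nonneg (conj e * σ).im]
    have h3 := pointwise_zero' a0 a1 hT0 hT1 (norm_pos_iff.2 hζ) hL1
    rw [h, norm_zero, mul_zero, sub_zero]
    have h4 : (conj e * ζ).re = ‖ζ‖ * (conj e * σ).re := by
      conv_lhs => rw [h1]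
      simp only [Complex.mul_re, Complex.mul_im, Complex.ofReal_re, Complex.ofReal_im]
      ring
    rw [h4]
    linarith only [hl, h3]
  · rcases eq_or_ne ζ s with hζs | hζs
    · have h3 := pointwise he hσ h hζ ⟨a0, a1, Or.inr ⟨hs, k, hk⟩⟩
      have h4 : gr L₁ ((1 - a) * (‖ζ‖ - 2 * ‖s‖)) = 0 := by
        unfold gr
        rw [hζs]
        have : (1 - a) * (‖s‖ - 2 * ‖s‖) ≤ 0 := by
          nlinarith only [a1, norm_nonneg s]
        rw [max_eq_left (by linarith only [hL1, this]), mul_zero]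
      rw [h4]
      linarith only [h3]
    · have hs2 : 0 < (conj e * s).re ^ 2 + (conj e * s).im ^ 2 := by
        rw [hes]
        have := norm_pos_iff.2 hs
        positivity
      obtain ⟨h1, h2⟩ := eq_dir hσ h (sub_ne_zero.2 hζs)
      set ρ := ‖ζ - s‖ with hρ
      have hTU := hes σ
      rw [h2] at hTU
      have hz : conj e * ζ = conj e * s + (ρ : ℂ) * (conj e * σ) := by
        have : ζ = s + (ρ : ℂ) * σ := by rw [← h1]; ring
        conv_lhs => rw [this]
        ring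
      have hre : (conj e * ζ).re = (conj e * s).re + ρ * (conj e * σ).re := by
        rw [hz]; simp
      have him : (conj e * ζ).im = (conj e * s).im + ρ * (conj e * σ).im := by
        rw [hz]; simp
      have hpos : 0 < (conj e * ζ).re ^ 2 + (conj e * ζ).im ^ 2 := by
        rw [hes]
        have := norm_pos_iff.2 hζ
        positivity
      have hs3 : (1 + a) ^ 2 * ((conj e * s).re ^ 2 + (conj e * s).im ^ 2) ≤ 1 := by
        rw [hes, ← mul_pow]
        exact pow_le_one₀ (mul_nonneg (by linarith only [a0]) (norm_nonneg _)) hs1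
      have h3 := pointwise_real' (T := (conj e * σ).re) (U := (conj e * σ).im) (ρ := ρ) hk
        (by rw [hTU]; norm_num) (norm_nonneg _) hs2 (by rw [← hre, ← him]; exact hpos) hL1 hs3
      have h5 : ‖ζ‖ - 2 * ‖s‖ ≤ (conj σ * ζ).re := by
        have e1 : (conj σ * ζ).re = ρ + (conj σ * s).re := by
          rw [← h, ← Complex.add_re]; congr 1; ring
        have e2 : -‖s‖ ≤ (conj σ * s).re := by
          have := Complex.abs_re_le_norm (conj σ * s)
          rw [norm_mul, Complex.norm_conj, h2, one_mul] at this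
          linarith only [this, (abs_le.1 this).1]
        have e3 : ‖ζ‖ ≤ ρ + ‖s‖ := by
          calc ‖ζ‖ = ‖(ζ - s) + s‖ := by congr 1; ring
            _ ≤ _ := norm_add_le _ _
        linarith only [e1, e2, e3]
      have h6 : gr L₁ ((1 - a) * (‖ζ‖ - 2 * ‖s‖)) ≤ gr L₁ ((1 - a) * (conj σ * ζ).re) :=
        gr_mono hL1 (mul_le_mul_of_nonneg_left h5 (by linarith only [a1]))
      rw [hlog]
      rw [← hre, ← him, ← hσζ] at h3
      linarith only [h3, h6]

/-- the convex function `θ` in the variable `z` -/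
noncomputable def tht (a L₁ b : ℝ) (s y z : ℂ) : ℝ :=
  gr L₁ ((1 - a) * (‖z - y‖ / b - 2 * ‖s‖))

theorem tht_convex {a L₁ b : ℝ} {s y : ℂ} (ha : a ≤ 1) (hb : 0 < b) (hL : 1 ≤ L₁) :
    ConvexOn ℝ Set.univ (tht a L₁ b s y) := by
  have h1 : ConvexOn ℝ Set.univ fun x : ℂ => ‖x - y‖ := by
    have h2 := (convexOn_univ_norm (E := ℂ)).translate_left (-y)
    simpa [Function.comp_def, sub_eq_add_neg] using h2
  have hk : 0 ≤ 1 - 1 / L₁ := by
    rw [sub_nonneg, div_le_one (by linarith only [hL])]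
    exact hL
  have h2 : ConvexOn ℝ Set.univ fun x : ℂ => ((1 - a) / b) * ‖x - y‖ +
      (-(2 * (1 - a) * ‖s‖) - L₁) := by
    refine ((h1.smul (c := (1 - a) / b) (div_nonneg (by linarith only [ha]) hb.le)).add_const
      (-(2 * (1 - a) * ‖s‖) - L₁)).congr ?_
    intro x _
    simp
  have h3 : ConvexOn ℝ Set.univ fun x : ℂ => max 0 (((1 - a) / b) * ‖x - y‖ +
      (-(2 * (1 - a) * ‖s‖) - L₁)) := (convexOn_const 0 convex_univ).sup h2
  have h4 := h3.smul hk
  refine h4.congr ?_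
  intro x _
  simp only [tht, gr, smul_eq_mul]
  congr 2
  field_simp
  ring

/-- **M5 without `E`**: the hypothesis `hE` holds for all `x ≥ 1` for instance if `b = 1`,
`a (N+1)/N ≤ 3/10`, see `efree_ok`. -/
theorem Cfg1.m5_free {N : ℕ} {z w : Fin N → ℂ} {c : ℂ} {σ : Fin N → ℂ} {σ₀ : ℂ} (hN : 1 ≤ N)
    (hC : Cfg1 N z w c σ σ₀) {a l b L₁ : ℝ} {e y : ℂ} (he : ‖e‖ = 1)
    (hb : 0 < b) (hc : CertAt a l e ((c - y) / b)) (hL1 : 1 ≤ L₁)
    (hs1 : (1 + a) * (‖c - y‖ / b) ≤ 1)
    (hy : (1 - a) * (‖y‖ / b - 2 * (‖c - y‖ / b)) ≤ L₁)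
    (hE : ∀ x : ℝ, 1 ≤ x → a * ((N + 1) / N) * (x - 1 / x) ≤
      b * Real.log x + b * ((N + 1) / N) * gr L₁ ((1 - a) * ((x - ‖y‖) / b - 2 * (‖c - y‖ / b))))
    (hf : fI w y ≠ 0) :
    N * b * (1 + Real.log (1 - a ^ 2) / 2 - l - Real.log b)
      + a * (conj e * (N * y - ((N : ℂ) + 1) * conj (av (uu w)))).re - (conj σ₀ * y).re
      - b * kap a * (conj e * σ₀).re + b * Real.log (((N : ℝ) + 1) * ‖fI w y‖) < (N : ℝ) + 1 := by
  have hm := hC.med
  have hbC : (b : ℂ) ≠ 0 := by exact_mod_cast hb.ne'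
  have hN0 : (0 : ℝ) < N := by exact_mod_cast hN
  have hw := hC.w_ne
  have hprod := hC.prod_eq y
  have hEE : 0 < EE w := by
    unfold EE
    exact Finset.prod_pos fun k _ => norm_pos_iff.2 (hw k)
  have hfn : 0 < ‖fI w y‖ := norm_pos_iff.2 hf
  have hyz : ∀ j, z j ≠ y := by
    intro j hj
    have h1 : ∏ j, ‖y - z j‖ = 0 :=
      Finset.prod_eq_zero (Finset.mem_univ j) (by rw [hj, sub_self, norm_zero])
    rw [hprod] at h1
    have : 0 < ((N : ℝ) + 1) * EE w * ‖fI w y‖ := by positivity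
    linarith only [h1, this]
  have hsn : ‖(c - y) / (b : ℂ)‖ = ‖c - y‖ / b := by
    rw [norm_div, Complex.norm_real, Real.norm_of_nonneg hb.le]
  have key : ∀ j, b * (1 + Real.log (1 - a ^ 2) / 2 - l - Real.log b)
      + a * (conj e * (y - z j)).re + (conj (σ j) * y).re + b * kap a * (conj e * σ j).re
      + b * Real.log ‖z j - y‖ + b * tht a L₁ b ((c - y) / b) y (z j) ≤
      ‖z j - c‖ + (conj (σ j) * c).re := by
    intro j
    have hzy : z j - y ≠ 0 := sub_ne_zero.2 (hyz j)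
    have h1 : (conj (σ j) * ((z j - y) / b - (c - y) / b)).re = ‖(z j - y) / b - (c - y) / b‖ := by
      rw [← sub_div, show z j - y - (c - y) = z j - c by ring, norm_div, Complex.norm_real,
        Real.norm_of_nonneg hb.le, ← hm.sub j, ← mul_div_assoc, Complex.div_ofReal_re]
    have h2 := pointwise' he (hm.hσ j) h1 (div_ne_zero hzy hbC) hc hL1 (by rw [hsn]; exact hs1)
    rw [norm_div (z j - y), Complex.norm_real, Real.norm_of_nonneg hb.le,
      Real.log_div (norm_ne_zero_iff.2 hzy) hb.ne', ← mul_div_assoc, ← mul_div_assoc,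
      Complex.div_ofReal_re, Complex.div_ofReal_re] at h2
    have h3 := mul_le_mul_of_nonneg_left h2 hb.le
    have e1 : b * ((conj (σ j) * (z j - y)).re / b + a * ((conj e * (z j - y)).re / b) -
        kap a * (conj e * σ j).re - (Real.log ‖z j - y‖ - Real.log b)) =
        (conj (σ j) * (z j - y)).re + a * (conj e * (z j - y)).re -
        b * kap a * (conj e * σ j).re - b * Real.log ‖z j - y‖ + b * Real.log b := by
      field_simp
      ring
    rw [e1] at h3
    have h4 := hm.sub j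
    have e2 : (conj (σ j) * (z j - y)).re = (conj (σ j) * (z j - c)).re + (conj (σ j) * c).re
        - (conj (σ j) * y).re := by
      rw [← Complex.add_re, ← Complex.sub_re]; congr 1; ring
    have e3 : (conj e * (z j - y)).re = -(conj e * (y - z j)).re := by
      rw [← Complex.neg_re]; congr 1; ring
    rw [e2, e3, h4] at h3
    unfold tht
    linarith only [h3]
  have hsum := Finset.sum_le_sum (fun j (_ : j ∈ Finset.univ) => key j)
  simp only [Finset.sum_add_distrib, Finset.sum_const, Finset.card_univ, Fintype.card_fin,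
    nsmul_eq_mul, ← Finset.mul_sum] at hsum
  have hS : ∑ j, σ j = -σ₀ := by
    have := hm.sum
    linear_combination this
  have s1 : ∑ j, (conj e * (y - z j)).re = (conj e * (N * y - ∑ j, z j)).re := by
    rw [← Complex.re_sum, ← Finset.mul_sum, Finset.sum_sub_distrib]
    simp
  have s2 : ∀ x : ℂ, ∑ j, (conj (σ j) * x).re = -(conj σ₀ * x).re := by
    intro x
    rw [← Complex.re_sum, ← Finset.sum_mul, ← map_sum, hS, ← Complex.neg_re]
    congr 1
    simp
  have s3 : ∑ j, (conj e * σ j).re = -(conj e * σ₀).re := by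
    rw [← Complex.re_sum, ← Finset.mul_sum, hS, ← Complex.neg_re]
    congr 1
    simp
  rw [s1, s2, s2, s3] at hsum
  have h0 : -(conj σ₀ * c).re = ‖c‖ := by
    rw [← hm.sub₀, ← Complex.neg_re]; congr 1; ring
  rw [h0, hC.sum_z hN] at hsum
  -- the logarithms
  have hlogs : ∑ j, Real.log ‖z j - y‖ =
      Real.log (((N : ℝ) + 1) * ‖fI w y‖) + ∑ k, Real.log ‖w k‖ := by
    have e1 : ∑ j, Real.log ‖z j - y‖ = Real.log (∏ j, ‖y - z j‖) := by
      rw [Real.log_prod fun j _ => norm_ne_zero_iff.2 (sub_ne_zero.2 (hyz j).symm)]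
      exact Finset.sum_congr rfl fun j _ => by rw [norm_sub_rev]
    rw [e1, hprod, show ((N : ℝ) + 1) * EE w * ‖fI w y‖ = ((N : ℝ) + 1) * ‖fI w y‖ * EE w by ring,
      Real.log_mul (by positivity) hEE.ne']
    congr 1
    unfold EE
    exact Real.log_prod fun k _ => norm_ne_zero_iff.2 (hw k)
  -- de Bruijn - Springer for `θ`
  have hmaj := hC.maj _ (tht_convex (a := a) (L₁ := L₁) (b := b) (s := (c - y) / b) (y := y)
    hc.2.1.le hb hL1)
  have hth0 : tht a L₁ b ((c - y) / b) y 0 = 0 := by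
    unfold tht gr
    rw [zero_sub, norm_neg, hsn, max_eq_left (by linarith only [hy]), mul_zero]
  rw [hth0, zero_add] at hmaj
  have hth : ((N : ℝ) + 1) / N * ∑ k, tht a L₁ b ((c - y) / b) y (w k) ≤
      ∑ j, tht a L₁ b ((c - y) / b) y (z j) := by
    rw [div_mul_eq_mul_div, div_le_iff₀ hN0]
    linarith only [hmaj]
  -- each critical point
  have hwk : ∀ k, a * ((N + 1) / N) * (conj e * (w k - conj (uu w k))).re ≤
      b * Real.log ‖w k‖ + b * (((N : ℝ) + 1) / N) * tht a L₁ b ((c - y) / b) y (w k) := by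
    intro k
    have hx := hC.far k
    have hx0 : 0 < ‖w k‖ := by linarith only [hx]
    have a0 := hc.1
    have e1 : ‖w k - conj (uu w k)‖ = ‖w k‖ - 1 / ‖w k‖ := by
      have e2 : w k - conj (uu w k) = w k * ((1 - 1 / ‖w k‖ ^ 2 : ℝ) : ℂ) := by
        have e3 : conj (uu w k) = w k / ((‖w k‖ ^ 2 : ℝ) : ℂ) := by
          unfold uu
          rw [Complex.inv_def, map_mul, Complex.conj_conj, Complex.conj_ofReal,
            Complex.normSq_eq_norm_sq, Complex.ofReal_inv, div_eq_mul_inv]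
        rw [e3]
        push_cast
        ring
      rw [e2, norm_mul, Complex.norm_real, Real.norm_of_nonneg]
      · field_simp
      · rw [sub_nonneg, div_le_one (by positivity)]
        exact one_le_pow₀ hx
    have e2 : (conj e * (w k - conj (uu w k))).re ≤ ‖w k‖ - 1 / ‖w k‖ := by
      refine (Complex.re_le_norm _).trans ?_
      rw [norm_mul, Complex.norm_conj, he, one_mul, e1]
    have e3 : a * ((N + 1) / N) * (conj e * (w k - conj (uu w k))).re ≤
        a * ((N + 1) / N) * (‖w k‖ - 1 / ‖w k‖) :=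
      mul_le_mul_of_nonneg_left e2 (by positivity)
    have e4 : gr L₁ ((1 - a) * ((‖w k‖ - ‖y‖) / b - 2 * (‖c - y‖ / b))) ≤
        tht a L₁ b ((c - y) / b) y (w k) := by
      unfold tht
      rw [hsn]
      apply gr_mono hL1
      apply mul_le_mul_of_nonneg_left _ (by linarith only [hc, hc.2.1])
      have : (‖w k‖ - ‖y‖) / b ≤ ‖w k - y‖ / b := by
        apply div_le_div_of_nonneg_right _ hb.le
        exact norm_sub_norm_le _ _
      linarith only [this]
    have e5 : b * (((N : ℝ) + 1) / N) *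
        gr L₁ ((1 - a) * ((‖w k‖ - ‖y‖) / b - 2 * (‖c - y‖ / b))) ≤
        b * (((N : ℝ) + 1) / N) * tht a L₁ b ((c - y) / b) y (w k) :=
      mul_le_mul_of_nonneg_left e4 (by positivity)
    linarith only [hE, hx, e3, e5, hE _ hx]
  have hwsum := Finset.sum_le_sum (fun k (_ : k ∈ Finset.univ) => hwk k)
  simp only [Finset.sum_add_distrib, ← Finset.mul_sum] at hwsum
  have s4 : a * ((N + 1) / N) * ∑ k, (conj e * (w k - conj (uu w k))).re =
      a * (conj e * (((N : ℂ) + 1) * av w - ((N : ℂ) + 1) * conj (av (uu w)))).re := by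
    rw [← Complex.re_sum, ← Finset.mul_sum, Finset.sum_sub_distrib, ← map_sum]
    have e1 : ((N : ℂ) + 1) * av w - ((N : ℂ) + 1) * conj (av (uu w)) =
        (((N + 1) / N : ℝ) : ℂ) * (∑ k, w k - conj (∑ k, uu w k)) := by
      unfold av
      rw [map_mul, map_div₀, map_one, map_natCast]
      push_cast
      ring
    rw [e1, mul_left_comm, Complex.re_ofReal_mul]
    ring
  rw [s4] at hwsum
  have hmass := hC.mass
  have e6 : a * (conj e * (N * y - ((N : ℂ) + 1) * conj (av (uu w)))).re =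
      a * (conj e * (N * y - ((N : ℂ) + 1) * av w)).re +
      a * (conj e * (((N : ℂ) + 1) * av w - ((N : ℂ) + 1) * conj (av (uu w)))).re := by
    rw [← mul_add, ← Complex.add_re]
    congr 2
    ring
  rw [e6]
  rw [hlogs] at hsum
  have hth' := mul_le_mul_of_nonneg_left hth hb.le
  have e7 : b * (((N : ℝ) + 1) / N) * ∑ k, tht a L₁ b ((c - y) / b) y (w k) =
      b * (((N : ℝ) + 1) / N * ∑ k, tht a L₁ b ((c - y) / b) y (w k)) := by ring
  rw [e7] at hwsum
  linarith only [hsum, hwsum, hmass, hth']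

theorem log_six : (7 : ℝ) / 4 ≤ Real.log 6 := by
  rw [Real.le_log_iff_exp_le (by norm_num)]
  have h1 : Real.exp (7 / 4) = Real.exp 1 * Real.exp (3 / 4) := by
    rw [← Real.exp_add]; norm_num
  have h2 : Real.exp (3 / 4 : ℝ) ^ 4 = Real.exp 1 ^ 3 := by
    rw [← Real.exp_nat_mul, ← Real.exp_nat_mul]; norm_num
  have h3 := Real.exp_one_lt_d9
  have h4 : 0 < Real.exp 1 := Real.exp_pos _
  have h5 : Real.exp (7 / 4) ^ 4 ≤ 6 ^ 4 := by
    rw [h1, mul_pow, h2]
    have h6 : Real.exp 1 ^ 7 ≤ 2.7182818286 ^ 7 := pow_le_pow_left₀ h4.le h3.le 7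
    calc Real.exp 1 ^ 4 * Real.exp 1 ^ 3 = Real.exp 1 ^ 7 := by ring
      _ ≤ _ := h6
      _ ≤ 6 ^ 4 := by norm_num
  exact le_of_pow_le_pow_left₀ (by norm_num) (by norm_num) h5

/-- `(3/10) (x - 1/x) ≤ log x` for `1 ≤ x ≤ 6`, and the excess grows at most with slope `3/10` -/
theorem log_lower {x : ℝ} (hx : 1 ≤ x) :
    3 / 10 * (x - 1 / x) ≤ Real.log x + 3 / 10 * max 0 (x - 6) := by
  have hd : ∀ t : ℝ, 0 < t → HasDerivAt (fun t => Real.log t - 3 / 10 * (t - 1 / t))
      (1 / t - 3 / 10 * (1 + 1 / t ^ 2)) t := by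
    intro t ht
    have h1 : HasDerivAt (fun t : ℝ => 1 / t) (-(1 / t ^ 2)) t := by
      have := hasDerivAt_inv ht.ne'
      simpa [one_div] using this
    have h2 := (Real.hasDerivAt_log ht.ne').sub (((hasDerivAt_id t).sub h1).const_mul (3 / 10))
    exact h2.congr_deriv (by rw [one_div t]; ring)
  have hsgn : ∀ t : ℝ, 0 < t → 1 / t - 3 / 10 * (1 + 1 / t ^ 2) =
      (3 * t - 1) * (3 - t) / (10 * t ^ 2) := by
    intro t ht
    field_simp
    ring
  -- on [1, 3]
  have h3 : ∀ t, 1 ≤ t → t ≤ 3 → 0 ≤ Real.log t - 3 / 10 * (t - 1 / t) := by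
    intro t h1 h2
    have hmono : MonotoneOn (fun t => Real.log t - 3 / 10 * (t - 1 / t)) (Set.Icc 1 t) := by
      apply monotoneOn_of_deriv_nonneg (convex_Icc _ _)
      · exact fun x hx => (hd x (by linarith only [hx, hx.1])).continuousAt.continuousWithinAt
      · exact fun x hx => (hd x (by linarith only [hx, (interior_subset hx).1])).differentiableAt.differentiableWithinAt
      · intro x hx
        have hx' := interior_subset hx
        have hx0 : 0 < x := by linarith only [hx', hx'.1]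
        rw [(hd x hx0).deriv, hsgn x hx0]
        apply div_nonneg _ (by positivity)
        apply mul_nonneg <;> linarith [hx'.1, hx'.2]
    have := hmono ⟨le_rfl, h1⟩ ⟨h1, le_rfl⟩ h1
    norm_num at this
    norm_num
    linarith only [this]
  -- on [3, 6]
  have h6 : ∀ t, 3 ≤ t → t ≤ 6 → 0 ≤ Real.log t - 3 / 10 * (t - 1 / t) := by
    intro t h1 h2
    have hanti : AntitoneOn (fun t => Real.log t - 3 / 10 * (t - 1 / t)) (Set.Icc t 6) := by
      apply antitoneOn_of_deriv_nonpos (convex_Icc _ _)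
      · exact fun x hx => (hd x (by linarith only [h1, hx, hx.1])).continuousAt.continuousWithinAt
      · exact fun x hx => (hd x (by linarith only [h1, hx, (interior_subset hx).1])).differentiableAt.differentiableWithinAt
      · intro x hx
        have hx' := interior_subset hx
        have hx0 : 0 < x := by linarith only [h1, hx', hx'.1]
        rw [(hd x hx0).deriv, hsgn x hx0]
        apply div_nonpos_of_nonpos_of_nonneg _ (by positivity)
        apply mul_nonpos_of_nonneg_of_nonpos <;> linarith [hx'.1, hx'.2]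
    have := hanti ⟨le_rfl, h2⟩ ⟨h2, le_rfl⟩ h2
    have h7 := log_six
    simp only at this
    have e : (3 : ℝ) / 10 * (6 - 1 / 6) = 7 / 4 := by norm_num
    rw [e] at this
    linarith only [this, h7]
  rcases le_total x 3 with h | h
  · have := h3 x hx h
    have := le_max_left 0 (x - 6)
    linarith
  rcases le_total x 6 with h' | h'
  · have := h6 x h h'
    have := le_max_left 0 (x - 6)
    linarith
  · have h10 : (0 : ℝ) < x := by linarith only [h']
    have h9 := Real.one_sub_inv_le_log_of_pos (show 0 < x / 6 by positivity)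
    rw [Real.log_div h10.ne' (by norm_num), inv_div] at h9
    rw [max_eq_right (by linarith only [h'])]
    have h7 := log_six
    have h12 : 1 / x ≤ 1 / 6 := one_div_le_one_div_of_le (by norm_num) h'
    have h13 : 6 / x = 6 * (1 / x) := by ring
    linarith only [h9, h7, h12, h13]

/-- The hypothesis `hE` of `m5_free` for `b = 1`, `L₁ = 2`. -/
theorem efree_ok {N : ℕ} (hN : 1 ≤ N) {a : ℝ} {c y : ℂ} (a0 : 0 ≤ a)
    (ha : a * ((N + 1) / N) ≤ 3 / 10) (hy : ‖y‖ + 2 * ‖c - y‖ ≤ 3) (x : ℝ) (hx : 1 ≤ x) :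
    a * ((N + 1) / N) * (x - 1 / x) ≤
      1 * Real.log x + 1 * ((N + 1) / N) * gr 2 ((1 - a) * ((x - ‖y‖) / 1 - 2 * (‖c - y‖ / 1))) := by
  have hN0 : (0 : ℝ) < N := by exact_mod_cast hN
  have hn : 1 ≤ ((N : ℝ) + 1) / N := by rw [le_div_iff₀ hN0]; linarith only []
  have ha' : a ≤ 3 / 10 := by nlinarith only [a0, ha, hn]
  have hx0 : 0 < x := by linarith only [hx]
  have h1 : 0 ≤ x - 1 / x := by
    rw [sub_nonneg, div_le_iff₀ hx0]
    nlinarith only [hx]
  have h2 : a * ((N + 1) / N) * (x - 1 / x) ≤ 3 / 10 * (x - 1 / x) :=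
    mul_le_mul_of_nonneg_right ha h1
  refine h2.trans ((log_lower hx).trans ?_)
  rw [one_mul, one_mul, div_one, div_one]
  have hg0 : 0 ≤ gr 2 ((1 - a) * (x - ‖y‖ - 2 * ‖c - y‖)) := gr_nonneg (by norm_num)
  have hg : 3 / 10 * max 0 (x - 6) ≤ gr 2 ((1 - a) * (x - ‖y‖ - 2 * ‖c - y‖)) := by
    unfold gr
    rcases le_total x 6 with h | h
    · rw [max_eq_left (by linarith only [h]), mul_zero]
      apply mul_nonneg (by norm_num) (le_max_left _ _)
    · rw [max_eq_right (by linarith only [h] : (0 : ℝ) ≤ x - 6)]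
      have h3 : (7 / 10 : ℝ) * (x - 3) ≤ (1 - a) * (x - ‖y‖ - 2 * ‖c - y‖) := by
        apply mul_le_mul (by linarith only [ha']) (by linarith only [hy]) (by linarith only [h]) (by linarith only [ha'])
      have h4 : (7 / 10 : ℝ) * (x - 3) - 2 ≤
          max 0 ((1 - a) * (x - ‖y‖ - 2 * ‖c - y‖) - 2) :=
        le_max_of_le_right (by linarith only [h3])
      have h5 := mul_le_mul_of_nonneg_left h4 (show (0 : ℝ) ≤ 1 - 1 / 2 by norm_num)
      linarith only [h, h4]
  have h3 : gr 2 ((1 - a) * (x - ‖y‖ - 2 * ‖c - y‖)) ≤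
      ((N + 1) / N) * gr 2 ((1 - a) * (x - ‖y‖ - 2 * ‖c - y‖)) := by
    nlinarith only [hn, hg0]
  linarith only [hg, h3]

/-- **M5 without `E`, `b = 1`**: for `a (N+1)/N ≤ 3/10`, `|y| + 2|c - y| ≤ 3`, `(1+a)|c-y| ≤ 1`. -/
theorem Cfg1.m5_free_one {N : ℕ} {z w : Fin N → ℂ} {c : ℂ} {σ : Fin N → ℂ} {σ₀ : ℂ} (hN : 1 ≤ N)
    (hC : Cfg1 N z w c σ σ₀) {a l : ℝ} {e y : ℂ} (he : ‖e‖ = 1) (hc : CertAt a l e (c - y))
    (ha : a * ((N + 1) / N) ≤ 3 / 10) (hs1 : (1 + a) * ‖c - y‖ ≤ 1)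
    (hy : ‖y‖ + 2 * ‖c - y‖ ≤ 3) (hy2 : (1 - a) * (‖y‖ - 2 * ‖c - y‖) ≤ 2) (hf : fI w y ≠ 0) :
    N * (1 + Real.log (1 - a ^ 2) / 2 - l)
      + a * (conj e * (N * y - ((N : ℂ) + 1) * conj (av (uu w)))).re - (conj σ₀ * y).re
      - kap a * (conj e * σ₀).re + Real.log (((N : ℝ) + 1) * ‖fI w y‖) < (N : ℝ) + 1 := by
  have h := hC.m5_free hN (b := 1) (L₁ := 2) (l := l) he one_pos (by simpa using hc)
    (by norm_num) (by simpa using hs1) (by simpa using hy2)
    (efree_ok hN hc.1 ha hy) hf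
  simpa using h

end Pool.Agent.Lib.MP_af3a4a_an.P1.H80
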