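import Pool.Agent.Lib.MP_af3a4a_an.P1.H80.Cfg

/-!
# Borcea's inequality for `p = 1`: `n = 2` and `n = 3` (helper80)

`n = 3`: with `ω` a primitive cube root of unity, `3A = ω² z₁ + ω z₂`, `3B = ω z₁ + ω² z₂`, the sum of
distances is at least `3 max(|A|,|B|)`, and the critical points are `-(A+B) ± √(AB)`.
-/

namespace Pool.Agent.Lib.MP_af3a4a_an.P1.H80

open Finset ComplexConjugate

/-- the smaller one of `|α² + β² ± αβ|` is at most `max (|α|², |β|²)` -/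
theorem min_aux {α β : ℂ} (h : ‖β‖ ≤ ‖α‖) :
    ‖α ^ 2 + β ^ 2 + α * β‖ ≤ ‖α‖ ^ 2 ∨ ‖α ^ 2 + β ^ 2 - α * β‖ ≤ ‖α‖ ^ 2 := by
  set p := ‖α‖ with hp
  set q := ‖β‖ with hq
  have hp0 : 0 ≤ p := norm_nonneg _
  have hq0 : 0 ≤ q := norm_nonneg _
  set x := (conj α * β).re with hx
  have hxle : |x| ≤ p * q := by
    have := Complex.abs_re_le_norm (conj α * β)
    rwa [norm_mul, Complex.norm_conj] at this
  have hp2 : p ^ 2 = α.re ^ 2 + α.im ^ 2 := norm_sq_re_im α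
  have hq2 : q ^ 2 = β.re ^ 2 + β.im ^ 2 := norm_sq_re_im β
  have hx' : x = α.re * β.re + α.im * β.im := by
    rw [hx]; simp [Complex.mul_re]
  have e1 : ‖α ^ 2 + β ^ 2 + α * β‖ ^ 2 =
      (p ^ 2 - q ^ 2) ^ 2 + 4 * x ^ 2 + p ^ 2 * q ^ 2 + 2 * (p ^ 2 + q ^ 2) * x := by
    rw [norm_sq_re_im, hp2, hq2, hx']
    simp only [Complex.add_re, Complex.add_im, Complex.mul_re, Complex.mul_im, pow_two]
    ring
  have e2 : ‖α ^ 2 + β ^ 2 - α * β‖ ^ 2 =
      (p ^ 2 - q ^ 2) ^ 2 + 4 * x ^ 2 + p ^ 2 * q ^ 2 - 2 * (p ^ 2 + q ^ 2) * x := by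
    rw [norm_sq_re_im, hp2, hq2, hx']
    simp only [Complex.add_re, Complex.add_im, Complex.sub_re, Complex.sub_im, Complex.mul_re,
      Complex.mul_im, pow_two]
    ring
  have hqp : q ^ 2 ≤ p ^ 2 := pow_le_pow_left₀ hq0 h 2
  have key : ∀ y : ℝ, 0 ≤ y → y ≤ p * q →
      (p ^ 2 - q ^ 2) ^ 2 + 4 * y ^ 2 + p ^ 2 * q ^ 2 - 2 * (p ^ 2 + q ^ 2) * y ≤ (p ^ 2) ^ 2 := by
    intro y hy0 hy
    have h1 : 4 * y ^ 2 ≤ 4 * y * (p * q) := by nlinarith only [hy0, hy]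
    have h2 : 0 ≤ 2 * y * (p - q) ^ 2 := by positivity
    have h3 : 0 ≤ q ^ 2 * (p ^ 2 - q ^ 2) := mul_nonneg (sq_nonneg _) (by linarith only [hqp])
    linarith only [h1, h2, h3]
  rcases le_total 0 x with h0 | h0
  · right
    have h1 := key x h0 (by rw [abs_of_nonneg h0] at hxle; exact hxle)
    rw [← e2] at h1
    exact le_of_sq_le_sq h1 (by positivity)
  · left
    have h1 := key (-x) (by linarith only [h0]) (by rw [abs_of_nonpos h0] at hxle; exact hxle)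
    have h2 : ‖α ^ 2 + β ^ 2 + α * β‖ ^ 2 ≤ (p ^ 2) ^ 2 := by rw [e1]; linarith only [h1]
    exact le_of_sq_le_sq h2 (by positivity)
where
  le_of_sq_le_sq {a b : ℝ} (h : a ^ 2 ≤ b ^ 2) (hb : 0 ≤ b) : a ≤ b :=
    le_trans (le_abs_self a) (by
      have := Real.sqrt_le_sqrt h
      rwa [Real.sqrt_sq_eq_abs, Real.sqrt_sq hb] at this)

/-- a primitive cube root of unity -/
theorem exists_omega : ∃ ω : ℂ, ω ^ 2 + ω + 1 = 0 ∧ ‖ω‖ = 1 := by
  obtain ⟨s, hs⟩ := IsAlgClosed.exists_pow_nat_eq (-3 : ℂ) (n := 2) (by norm_num)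
  refine ⟨(-1 + s) / 2, ?_, ?_⟩
  · linear_combination hs / 4
  · have h3 : ((-1 + s) / 2) ^ 3 = 1 := by
      linear_combination (s - 3) / 8 * hs
    have h4 := congrArg norm h3
    rw [norm_pow, norm_one] at h4
    exact (pow_eq_one_iff_of_nonneg (norm_nonneg _) (by norm_num)).1 h4

theorem n12 (N : ℕ) (z w : Fin N → ℂ) (c : ℂ) (σ : Fin N → ℂ) (σ₀ : ℂ) (hN : 1 ≤ N)
    (hN2 : N ≤ 2) : ¬ Cfg1 N z w c σ σ₀ := by
  intro hC
  have hfar := hC.far
  have hmass := hC.mass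
  have hsum := hC.sum_w hN
  have hprod := SV.FAB.prod_eq hC.hd
  interval_cases N
  · simp only [Fin.sum_univ_one, Fin.prod_univ_one] at *
    have h1 : z 0 = 2 * w 0 := by
      push_cast at hsum
      linear_combination -hsum
    have h2 : ‖z 0‖ ≤ ‖c‖ + ‖z 0 - c‖ := by
      calc ‖z 0‖ = ‖c + (z 0 - c)‖ := by congr 1; ring
        _ ≤ _ := norm_add_le _ _
    have h3 := hfar 0
    rw [h1, norm_mul, Complex.norm_ofNat] at h2
    rw [h1] at hmass
    push_cast at hmass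
    linarith only [h2, h3, hmass]
  · rw [Fin.sum_univ_two] at hmass
    rw [Fin.sum_univ_two, Fin.sum_univ_two] at hsum
    rw [Fin.prod_univ_two, Fin.prod_univ_two] at hprod
    push_cast at hmass hsum hprod
    set z1 := z 0
    set z2 := z 1
    set w1 := w 0
    set w2 := w 1
    have hw1 : 1 ≤ ‖w1‖ := hfar 0
    have hw2 : 1 ≤ ‖w2‖ := hfar 1
    obtain ⟨ω, hω, hω1⟩ := exists_omega
    have hω3 : ω ^ 3 = 1 := by linear_combination (ω - 1) * hω
    set A := (ω ^ 2 * z1 + ω * z2) / 3 with hA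
    set B := (ω * z1 + ω ^ 2 * z2) / 3 with hB
    have hbd : ∀ a b : ℂ, ‖a‖ = 1 → ‖b‖ = 1 → 1 + a + b = 0 → ‖a * z1 + b * z2‖ < 3 := by
      intro a b ha hb hab
      have h1 : a * z1 + b * z2 = -c + a * (z1 - c) + b * (z2 - c) := by
        linear_combination c * hab
      rw [h1]
      calc ‖-c + a * (z1 - c) + b * (z2 - c)‖ ≤ ‖-c + a * (z1 - c)‖ + ‖b * (z2 - c)‖ :=
            norm_add_le _ _
        _ ≤ ‖-c‖ + ‖a * (z1 - c)‖ + ‖b * (z2 - c)‖ := by
            gcongr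
            exact norm_add_le _ _
        _ = ‖c‖ + (‖z1 - c‖ + ‖z2 - c‖) := by
            rw [norm_neg, norm_mul, norm_mul, ha, hb]; ring
        _ < 3 := by linarith only [hmass]
    have hA1 : ‖A‖ < 1 := by
      rw [hA, norm_div, Complex.norm_ofNat, div_lt_one (by norm_num)]
      exact hbd _ _ (by rw [norm_pow, hω1, one_pow]) hω1 (by linear_combination hω)
    have hB1 : ‖B‖ < 1 := by
      rw [hB, norm_div, Complex.norm_ofNat, div_lt_one (by norm_num)]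
      exact hbd _ _ hω1 (by rw [norm_pow, hω1, one_pow]) (by linear_combination hω)
    have hs : w1 + w2 = -(2 * (A + B)) := by
      have : A + B = -(z1 + z2) / 3 := by
        rw [hA, hB]
        linear_combination (z1 + z2) / 3 * hω
      rw [this]
      linear_combination hsum / 3
    have hp : w1 * w2 = (A + B) ^ 2 - A * B := by
      have h1 : A * B = (z1 ^ 2 + z2 ^ 2 - z1 * z2) / 9 := by
        have e1 : A * B = (ω ^ 3 * (z1 ^ 2 + z2 ^ 2) + (ω ^ 3 * ω + ω ^ 2) * (z1 * z2)) / 9 := by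
          rw [hA, hB]; ring
        rw [e1, hω3]
        linear_combination z1 * z2 / 9 * hω
      have h2 : A + B = -(z1 + z2) / 3 := by
        rw [hA, hB]
        linear_combination (z1 + z2) / 3 * hω
      rw [h1, h2]
      linear_combination -hprod / 3
    obtain ⟨α, hα⟩ := IsAlgClosed.exists_pow_nat_eq A (n := 2) (by norm_num)
    obtain ⟨β, hβ⟩ := IsAlgClosed.exists_pow_nat_eq B (n := 2) (by norm_num)
    have hsq : (w1 + (A + B) - α * β) * (w1 + (A + B) + α * β) = 0 := by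
      have e1 : (w1 + (A + B) - α * β) * (w1 + (A + B) + α * β) =
          (w1 + (A + B)) ^ 2 - α ^ 2 * β ^ 2 := by ring
      rw [e1, hα, hβ]
      linear_combination w1 * hs - hp
    have hww : (w1 = -(α ^ 2 + β ^ 2 - α * β) ∧ w2 = -(α ^ 2 + β ^ 2 + α * β)) ∨
        (w1 = -(α ^ 2 + β ^ 2 + α * β) ∧ w2 = -(α ^ 2 + β ^ 2 - α * β)) := by
      rw [hα, hβ]
      rcases mul_eq_zero.1 hsq with h | h
      · left
        exact ⟨by linear_combination h, by linear_combination hs - h⟩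
      · right
        exact ⟨by linear_combination h, by linear_combination hs - h⟩
    have hmax : ∀ a b : ℂ, ‖b‖ ≤ ‖a‖ → ‖a‖ ^ 2 < 1 →
        1 ≤ ‖a ^ 2 + b ^ 2 + a * b‖ → 1 ≤ ‖a ^ 2 + b ^ 2 - a * b‖ → False := by
      intro a b h1 h2 h3 h4
      rcases min_aux h1 with h | h <;> linarith
    have hα1 : ‖α‖ ^ 2 < 1 := by rw [← norm_pow, hα]; exact hA1
    have hβ1 : ‖β‖ ^ 2 < 1 := by rw [← norm_pow, hβ]; exact hB1
    have hpl : 1 ≤ ‖α ^ 2 + β ^ 2 + α * β‖ := by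
      rcases hww with ⟨-, h⟩ | ⟨h, -⟩
      · rw [← norm_neg, ← h]; exact hw2
      · rw [← norm_neg, ← h]; exact hw1
    have hmi : 1 ≤ ‖α ^ 2 + β ^ 2 - α * β‖ := by
      rcases hww with ⟨h, -⟩ | ⟨-, h⟩
      · rw [← norm_neg, ← h]; exact hw1
      · rw [← norm_neg, ← h]; exact hw2
    rcases le_total ‖β‖ ‖α‖ with h | h
    · exact hmax α β h hα1 hpl hmi
    · exact hmax β α h hβ1 (by rwa [add_comm (β ^ 2), mul_comm β]) (by rwa [add_comm (β ^ 2), mul_comm β])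

end Pool.Agent.Lib.MP_af3a4a_an.P1.H80
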