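import Pool.Agent.Lib.MP_af3a4a_an.P1.H80.Formula
import Pool.Agent.Lib.MP_af3a4a_an.P1.H80.N12
import Pool.Agent.Lib.MP_af3a4a_an.P1.H80.EFree
import Mathlib.Analysis.Calculus.Deriv.Star

/-!
# Normal form: `c = R > 0` real, `Im m ≥ 0`, `N ≥ 3` (council 2, helper80)
-/

namespace Pool.Agent.Lib.MP_af3a4a_an.P1.H80

open Finset MeasureTheory ComplexConjugate
open Pool.Agent.Lib.MP_af3a4a_an.SV (uu av sq EE)

section

variable {N : ℕ} {z w : Fin N → ℂ} {c : ℂ} {σ : Fin N → ℂ} {σ₀ : ℂ}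

theorem conj_mul_unit {ω : ℂ} (hω : ‖ω‖ = 1) : conj ω * ω = 1 := by
  rw [mul_comm, Complex.mul_conj, Complex.normSq_eq_norm_sq, hω]
  norm_num

/-- rotation -/
theorem Cfg1.rot (hC : Cfg1 N z w c σ σ₀) {ω : ℂ} (hω : ‖ω‖ = 1) :
    Cfg1 N (fun j => ω * z j) (fun k => ω * w k) (ω * c) (fun j => ω * σ j) (ω * σ₀) := by
  have hω0 : ω ≠ 0 := by
    intro h
    rw [h, norm_zero] at hω
    norm_num at hω
  have hcw := conj_mul_unit hω
  have hin : ∀ a b : ℂ, (conj (ω * a) * (ω * b)).re = (conj a * b).re := by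
    intro a b
    congr 1
    rw [map_mul]
    linear_combination (conj a * b) * hcw
  refine ⟨?_, ?_, ⟨?_, ?_, ?_, ?_, ?_⟩, ?_⟩
  · intro x
    have h1 := hC.hderiv (ω⁻¹ * x)
    have h2 : HasDerivAt (fun x : ℂ => ω⁻¹ * x) ω⁻¹ x := by
      simpa using (hasDerivAt_id x).const_mul ω⁻¹
    have h3 := (h1.comp x h2).const_mul (ω ^ (N + 1))
    have e1 : (fun x : ℂ => x * ∏ j, (x - ω * z j)) = fun x =>
        ω ^ (N + 1) * ((fun x : ℂ => x * ∏ j, (x - z j)) ∘ fun x : ℂ => ω⁻¹ * x) x := by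
      funext x
      simp only [Function.comp]
      have e2 : ∀ j, x - ω * z j = ω * (ω⁻¹ * x - z j) := by
        intro j
        rw [mul_sub, mul_inv_cancel_left₀ hω0]
      simp only [e2]
      rw [Finset.prod_mul_distrib]
      simp only [Finset.prod_const, Finset.card_univ, Fintype.card_fin]
      rw [pow_succ]
      field_simp
    rw [e1]
    refine h3.congr_deriv ?_
    have e2 : ∀ j, x - ω * w j = ω * (ω⁻¹ * x - w j) := by
      intro j
      rw [mul_sub, mul_inv_cancel_left₀ hω0]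
    simp only [e2]
    rw [Finset.prod_mul_distrib]
    simp only [Finset.prod_const, Finset.card_univ, Fintype.card_fin]
    rw [pow_succ]
    field_simp
  · intro k
    rw [norm_mul, hω, one_mul]
    exact hC.far k
  · intro j
    rw [norm_mul, hω, one_mul]
    exact hC.med.hσ j
  · rw [norm_mul, hω, one_mul]
    exact hC.med.hσ₀
  · intro j
    rw [← mul_sub, hin, norm_mul, hω, one_mul]
    exact hC.med.sub j
  · have : (0 : ℂ) - ω * c = ω * (0 - c) := by ring
    rw [this, hin, norm_mul, hω, one_mul]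
    exact hC.med.sub₀
  · rw [← Finset.mul_sum, ← mul_add, hC.med.sum, mul_zero]
  · have : ∀ j, ‖ω * z j - ω * c‖ = ‖z j - c‖ := by
      intro j
      rw [← mul_sub, norm_mul, hω, one_mul]
    simp only [this, norm_mul, hω, one_mul]
    exact hC.mass

/-- reflection -/
theorem Cfg1.refl (hC : Cfg1 N z w c σ σ₀) :
    Cfg1 N (fun j => conj (z j)) (fun k => conj (w k)) (conj c) (fun j => conj (σ j)) (conj σ₀) := by
  have hin : ∀ a b : ℂ, (conj (conj a) * (conj b)).re = (conj a * b).re := by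
    intro a b
    rw [← map_mul, Complex.conj_re]
  refine ⟨?_, ?_, ⟨?_, ?_, ?_, ?_, ?_⟩, ?_⟩
  · intro x
    have h1 := (hC.hderiv (conj x)).conj_conj
    have e1 : (conj ∘ (fun x : ℂ => x * ∏ j, (x - z j)) ∘ conj) =
        fun x => x * ∏ j, (x - conj (z j)) := by
      funext x
      simp only [Function.comp, map_mul, map_prod, map_sub, Complex.conj_conj]
    rw [e1, Complex.conj_conj] at h1
    refine (h1.congr_deriv ?_)
    · simp only [map_mul, map_prod, map_sub, Complex.conj_conj, map_add, map_natCast, map_one]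
  · intro k
    rw [Complex.norm_conj]
    exact hC.far k
  · intro j
    rw [Complex.norm_conj]
    exact hC.med.hσ j
  · rw [Complex.norm_conj]
    exact hC.med.hσ₀
  · intro j
    rw [← map_sub, hin, Complex.norm_conj]
    exact hC.med.sub j
  · have : (0 : ℂ) - conj c = conj (0 - c) := by rw [map_sub, map_zero]
    rw [this, hin, Complex.norm_conj]
    exact hC.med.sub₀
  · rw [← map_sum, ← map_add, hC.med.sum, map_zero]
  · have : ∀ j, ‖conj (z j) - conj c‖ = ‖z j - c‖ := by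
      intro j
      rw [← map_sub, Complex.norm_conj]
    simp only [this, Complex.norm_conj]
    exact hC.mass

/-- `c ≠ 0` -/
theorem Cfg1.c_ne (hN : 1 ≤ N) (hC : Cfg1 N z w c σ σ₀) : c ≠ 0 := by
  intro hc
  subst hc
  have h1 := hC.mass
  simp only [norm_zero, zero_add, sub_zero] at h1
  have hNpos : (0 : ℝ) < N := by exact_mod_cast hN
  -- the product is at least `N + 1`
  have h2 : ((N : ℝ) + 1) ≤ ∏ j, ‖z j‖ := by
    have h3 := hC.prod_eq 0
    have h4 : fI w 0 = 1 := by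
      unfold fI
      simp
    rw [h4, norm_one, mul_one] at h3
    simp only [zero_sub, norm_neg] at h3
    rw [h3]
    have h5 : 1 ≤ EE w := by
      unfold EE
      calc (1 : ℝ) = ∏ _k : Fin N, (1 : ℝ) := by simp
        _ ≤ ∏ k, ‖w k‖ := Finset.prod_le_prod (fun _ _ => zero_le_one) fun k _ => hC.far k
    nlinarith
  -- `∏ ‖z‖ ≤ exp (∑ (‖z‖ - 1))`
  have h3 : ∏ j, ‖z j‖ ≤ Real.exp (∑ j, (‖z j‖ - 1)) := by
    rw [Real.exp_sum]
    apply Finset.prod_le_prod (fun _ _ => norm_nonneg _)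
    intro j _
    have := Real.add_one_le_exp (‖z j‖ - 1)
    linarith
  have h4 : ∑ j, (‖z j‖ - 1) < 1 := by
    rw [Finset.sum_sub_distrib]
    simp only [Finset.sum_const, Finset.card_univ, Fintype.card_fin, nsmul_eq_mul, mul_one]
    linarith
  rcases Nat.lt_or_ge N 2 with hN2 | hN2
  · have hN1 : N = 1 := by omega
    subst hN1
    simp only [Finset.univ_unique, Finset.prod_singleton, Finset.sum_singleton, Nat.cast_one]
      at h1 h2
    linarith
  · have h5 : Real.exp (∑ j, (‖z j‖ - 1)) < Real.exp 1 := Real.exp_lt_exp.2 h4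
    have h6 := Real.exp_one_lt_d9
    have h7 : (2 : ℝ) ≤ N := by exact_mod_cast hN2
    linarith

theorem uu_conj (w : Fin N → ℂ) : uu (fun k => conj (w k)) = fun k => conj (uu w k) := by
  funext k
  simp only [uu, map_inv₀]

theorem av_conj (u : Fin N → ℂ) : av (fun k => conj (u k)) = conj (av u) := by
  unfold av
  rw [map_mul, map_sum]
  simp

end

/-- a counterexample in normal form -/
structure Cfg2 (N : ℕ) (z w : Fin N → ℂ) (R : ℝ) (σ : Fin N → ℂ) : Prop where
  cfg : Cfg1 N z w (R : ℂ) σ (-1)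
  hN : 3 ≤ N
  hR : 0 < R
  him : 0 ≤ (av (uu w)).im

/-- the statement that there is no counterexample in normal form -/
def FINAL2_S : Prop := ∀ (N : ℕ) (z w : Fin N → ℂ) (R : ℝ) (σ : Fin N → ℂ), ¬ Cfg2 N z w R σ

theorem norm2 (h : FINAL2_S) : FINAL1_S := by
  -- first: real `c`
  have key : ∀ (N : ℕ) (z w : Fin N → ℂ) (R : ℝ) (σ : Fin N → ℂ) (σ₀ : ℂ), 3 ≤ N → 0 < R →
      ¬ Cfg1 N z w (R : ℂ) σ σ₀ := by
    intro N z w R σ σ₀ hN hR hC
    have hσ₀ : σ₀ = -1 := by
      have h1 := (hC.med.dir_eq (by exact_mod_cast hR.ne')).1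
      have hR' : ‖(R : ℂ)‖ = R := by rw [Complex.norm_real, Real.norm_of_nonneg hR.le]
      rw [hR'] at h1
      have hRc : (R : ℂ) ≠ 0 := by exact_mod_cast hR.ne'
      apply mul_left_cancel₀ hRc
      linear_combination h1
    subst hσ₀
    rcases le_total 0 (av (uu w)).im with hi | hi
    · exact h N z w R σ ⟨hC, hN, hR, hi⟩
    · refine h N (fun j => conj (z j)) (fun k => conj (w k)) R (fun j => conj (σ j)) ⟨?_, hN, hR, ?_⟩
      · have := hC.refl
        rwa [Complex.conj_ofReal, map_neg, map_one] at this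
      · rw [uu_conj, av_conj, Complex.conj_im]
        linarith
  intro N z w c σ σ₀ hN hC
  rcases Nat.lt_or_ge N 3 with hN3 | hN3
  · exact n12 N z w c σ σ₀ hN (by omega) hC
  · have hc := hC.c_ne hN
    have hc0 : 0 < ‖c‖ := norm_pos_iff.2 hc
    set ω : ℂ := conj (dir c) with hω
    have hω1 : ‖ω‖ = 1 := by rw [hω, Complex.norm_conj, norm_dir hc]
    have h1 := hC.rot hω1
    have h2 : ω * c = ((‖c‖ : ℝ) : ℂ) := by
      have h3 : conj (dir c) * c = (conj c * c) / ‖c‖ := by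
        unfold dir
        rw [map_div₀, Complex.conj_ofReal]
        ring
      rw [hω, h3, mul_comm (conj c), Complex.mul_conj, Complex.normSq_eq_norm_sq]
      have h4 : (‖c‖ : ℂ) ≠ 0 := by exact_mod_cast hc0.ne'
      push_cast
      field_simp
    rw [h2] at h1
    exact key N _ _ ‖c‖ _ _ hN3 hc0 h1

/-- **Main reduction**: the frozen statement follows from the absence of counterexamples in
normal form. -/
theorem main_of_final2 (h : FINAL2_S) : MAIN1_S := norm1 (norm2 h)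

section facts

variable {N : ℕ} {z w : Fin N → ℂ} {R : ℝ} {σ : Fin N → ℂ}

theorem Cfg2.u_le (hC : Cfg2 N z w R σ) (k : Fin N) : ‖uu w k‖ ≤ 1 := by
  unfold uu
  rw [norm_inv]
  exact inv_le_one_of_one_le₀ (hC.cfg.far k)

theorem Cfg2.dist (hC : Cfg2 N z w R σ) : ∑ k, ‖w k - (R : ℂ)‖ < N :=
  hC.cfg.sum_dist (by linarith [hC.hN])

theorem Cfg2.av_le (hC : Cfg2 N z w R σ) : ‖av (uu w)‖ ≤ 1 :=
  av_norm_le (by linarith [hC.hN]) hC.u_le

/-- E-free upper bound at a point `y` of the ray -/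
theorem Cfg2.cert (hC : Cfg2 N z w R σ) {a l : ℝ} {e : ℂ} {y : ℝ} (he : ‖e‖ = 1)
    (hc : CertAt a l e ((R - y : ℝ) : ℂ)) (ha : a * ((N + 1) / N) ≤ 3 / 10)
    (h0 : 0 ≤ y) (h1 : y ≤ R) (h2 : (1 + a) * (R - y) ≤ 1) (h3 : 2 * R - y ≤ 3)
    (h4 : (1 - a) * (3 * y - 2 * R) ≤ 2) (hf : fI w (y : ℂ) ≠ 0) :
    N * (1 + Real.log (1 - a ^ 2) / 2 - l)
      + a * (N * y * e.re - ((N : ℝ) + 1) * (conj e * conj (av (uu w))).re)
      + y + kap a * e.re + Real.log (((N : ℝ) + 1) * ‖fI w (y : ℂ)‖) < N + 1 := by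
  have hn : ‖(R : ℂ) - (y : ℂ)‖ = R - y := by
    rw [← Complex.ofReal_sub, Complex.norm_real, Real.norm_of_nonneg (by linarith)]
  have hy : ‖(y : ℂ)‖ = y := by rw [Complex.norm_real, Real.norm_of_nonneg h0]
  have hcs : CertAt a l e ((R : ℂ) - (y : ℂ)) := by
    rw [← Complex.ofReal_sub]
    exact hc
  have h := hC.cfg.m5_free_one (by linarith [hC.hN]) he hcs ha (by rw [hn]; exact h2)
    (by rw [hn, hy]; linarith) (by rw [hn, hy]; linarith) hf
  have e1 : (conj e * (N * (y : ℂ) - ((N : ℂ) + 1) * conj (av (uu w)))).re =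
      N * y * e.re - ((N : ℝ) + 1) * (conj e * conj (av (uu w))).re := by
    simp only [Complex.mul_re, Complex.sub_re, Complex.sub_im, Complex.mul_im, Complex.conj_re,
      Complex.conj_im, Complex.natCast_re, Complex.natCast_im, Complex.ofReal_re, Complex.ofReal_im,
      Complex.add_re, Complex.add_im, Complex.one_re, Complex.one_im]
    ring
  have e2 : (conj (-1 : ℂ) * (y : ℂ)).re = -y := by
    rw [map_neg, map_one, neg_one_mul, Complex.neg_re, Complex.ofReal_re]
  have e3 : (conj e * (-1 : ℂ)).re = -e.re := by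
    rw [mul_neg_one, Complex.neg_re, Complex.conj_re]
  rw [e1, e2, e3] at h
  linarith

/-- `y ‖fI w y‖ = ‖∫_0^y q‖` -/
theorem Cfg2.fI_eq (w : Fin N → ℂ) {y : ℝ} (h0 : 0 ≤ y) :
    y * ‖fI w (y : ℂ)‖ = ‖∫ x in (0 : ℝ)..y, qq (uu w) x‖ := by
  have h := H80.fI_eq w 1 y
  rw [mul_one] at h
  simp only [one_mul] at h
  have h2 := congrArg norm h
  rw [norm_mul, Complex.norm_real, Real.norm_of_nonneg h0] at h2
  exact h2

end facts

end Pool.Agent.Lib.MP_af3a4a_an.P1.H80
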