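import Pool.Agent.Lib.MP_af3a4a_an.P1.H80.Median
import Pool.Agent.Lib.MP_af3a4a_an.SV.FAB
import Pool.Agent.Lib.MP_af3a4a_an.SV.FINT
import Pool.Agent.Lib.MP_af3a4a_an.SV.NORM

/-!
# Borcea's inequality for `p = 1`: normalised counterexamples, facts, reduction (helper80)

`n = N + 1`, `F x = x ∏ (x - z j)`, `F' x = (N+1) ∏ (x - w k)`, `|w_k| ≥ 1`, `c` a geometric
median of all zeros, sum of the distances of the zeros to `c` less than `n`.
-/

namespace Pool.Agent.Lib.MP_af3a4a_an.P1.H80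

open Finset MeasureTheory Polynomial
open Pool.Agent.Lib.MP_af3a4a_an.SV (uu av sq EE)
open ComplexConjugate

/-- A counterexample to the inequality for `p = 1`, normalised. -/
structure Cfg1 (N : ℕ) (z w : Fin N → ℂ) (c : ℂ) (σ : Fin N → ℂ) (σ₀ : ℂ) : Prop where
  hderiv : ∀ x : ℂ, HasDerivAt (fun x : ℂ => x * ∏ j, (x - z j))
    (((N : ℂ) + 1) * ∏ k, (x - w k)) x
  far : ∀ k, 1 ≤ ‖w k‖
  med : Med N z c σ σ₀
  mass : ‖c‖ + ∑ j, ‖z j - c‖ < (N : ℝ) + 1

/-- the integral `f(y)/y = ∫_0^1 ∏ (1 - s y u_k) ds` -/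
noncomputable def fI {N : ℕ} (w : Fin N → ℂ) (y : ℂ) : ℂ :=
  ∫ s in (0 : ℝ)..1, ∏ k, (1 - (s : ℂ) * (y * uu w k))

section facts

variable {N : ℕ} {z w : Fin N → ℂ} {c : ℂ} {σ : Fin N → ℂ} {σ₀ : ℂ}

theorem Cfg1.hd (hC : Cfg1 N z w c σ σ₀) : SV.FAB.HD 0 z w := by
  intro x
  simpa using hC.hderiv x

/-- the centroid of the critical points is the centroid of the zeros -/
theorem Cfg1.sum_w (hN : 1 ≤ N) (hC : Cfg1 N z w c σ σ₀) :
    ((N : ℂ) + 1) * ∑ k, w k = N * ∑ j, z j := by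
  have := SV.FAB.sum_eq hN hC.hd
  rwa [zero_add] at this

theorem Cfg1.sum_z (hN : 1 ≤ N) (hC : Cfg1 N z w c σ σ₀) :
    ∑ j, z j = ((N : ℂ) + 1) * av w := by
  have h := hC.sum_w hN
  have hN0 : (N : ℂ) ≠ 0 := by exact_mod_cast (by omega : N ≠ 0)
  unfold av
  rw [mul_left_comm, h]
  field_simp

/-- de Bruijn - Springer -/
theorem Cfg1.maj (hC : Cfg1 N z w c σ σ₀) (φ : ℂ → ℝ) (hφ : ConvexOn ℝ Set.univ φ) :
    ((N : ℝ) + 1) * ∑ k, φ (w k) ≤ N * (φ 0 + ∑ j, φ (z j)) := by
  have hφ' : ConvexOn ℝ Set.univ fun x => φ x - φ 0 := by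
    refine (hφ.add_const (-(φ 0))).congr ?_
    intro x _
    simp [sub_eq_add_neg]
  have h := SV.FAB.maj hC.hd (fun x => φ x - φ 0) hφ' (by simp)
  simp only [Finset.sum_sub_distrib, Finset.sum_const, Finset.card_univ, Fintype.card_fin,
    nsmul_eq_mul, sub_self] at h
  linarith

/-- the mean distance of the critical points to `c` is less than one -/
theorem Cfg1.sum_dist (hN : 1 ≤ N) (hC : Cfg1 N z w c σ σ₀) : ∑ k, ‖w k - c‖ < N := by
  have h1 : ConvexOn ℝ Set.univ fun x : ℂ => ‖x - c‖ := by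
    have h2 := (convexOn_univ_norm (E := ℂ)).translate_left (-c)
    simpa [Function.comp_def, sub_eq_add_neg] using h2
  have h2 := hC.maj _ h1
  rw [zero_sub, norm_neg] at h2
  have h3 := hC.mass
  have hNpos : (0 : ℝ) < N := by exact_mod_cast hN
  have h4 : ((N : ℝ) + 1) * ∑ k, ‖w k - c‖ < ((N : ℝ) + 1) * N := by
    refine h2.trans_lt ?_
    rw [mul_comm ((N : ℝ) + 1)]
    exact mul_lt_mul_of_pos_left h3 hNpos
  exact lt_of_mul_lt_mul_left h4 (by positivity)

theorem Cfg1.w_ne (hC : Cfg1 N z w c σ σ₀) (k : Fin N) : w k ≠ 0 := by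
  intro h
  have := hC.far k
  rw [h, norm_zero] at this
  linarith

/-- the product of the distances to the nonzero zeros -/
theorem Cfg1.prod_eq (hC : Cfg1 N z w c σ σ₀) (y : ℂ) :
    ∏ j, ‖y - z j‖ = ((N : ℝ) + 1) * EE w * ‖fI w y‖ := by
  have hw := hC.w_ne
  rcases eq_or_ne y 0 with hy | hy
  · subst hy
    have h1 := SV.FAB.prod_eq hC.hd
    have h2 := congrArg norm h1
    rw [norm_mul, norm_prod, norm_prod] at h2
    rw [h2]
    have h3 : ‖(N : ℂ) + 1‖ = (N : ℝ) + 1 := by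
      have : (N : ℂ) + 1 = ((N + 1 : ℕ) : ℂ) := by push_cast; ring
      rw [this, Complex.norm_natCast]
      push_cast
      ring
    have h4 : ∏ k, ‖0 - w k‖ = EE w := by
      unfold EE
      refine Finset.prod_congr rfl fun k _ => ?_
      rw [zero_sub, norm_neg]
    have h5 : fI w 0 = 1 := by
      unfold fI
      simp
    rw [h3, h4, h5, norm_one, mul_one]
  · have hd : ∀ s : ℝ, HasDerivAt (fun s : ℝ => ((s : ℂ) * y) * ∏ j, ((s : ℂ) * y - z j))
        (((N : ℂ) + 1) * y * (∏ k, (-w k)) * ∏ k, (1 - (s : ℂ) * (y * uu w k))) s := by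
      intro s
      have h1 := hC.hderiv ((s : ℂ) * y)
      have h2 : HasDerivAt (fun x : ℂ => x * y) y (s : ℂ) := by
        simpa using (hasDerivAt_id (s : ℂ)).mul_const y
      have h3 := (h1.comp (s : ℂ) h2).comp_ofReal
      have h4 : ((N : ℂ) + 1) * (∏ k, ((s : ℂ) * y - w k)) * y =
          ((N : ℂ) + 1) * y * (∏ k, (-w k)) * ∏ k, (1 - (s : ℂ) * (y * uu w k)) := by
        have h5 : ∏ k, ((s : ℂ) * y - w k) = (∏ k, (-w k)) * ∏ k, (1 - (s : ℂ) * (y * uu w k)) := by
          rw [← Finset.prod_mul_distrib]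
          refine Finset.prod_congr rfl fun k _ => ?_
          simp only [uu]
          field_simp [hw k]
          ring
        rw [h5]
        ring
      rw [← h4]
      exact h3
    have hc : Continuous fun s : ℝ => ((N : ℂ) + 1) * y * (∏ k, (-w k)) *
        ∏ k, (1 - (s : ℂ) * (y * uu w k)) := by
      fun_prop
    have h := intervalIntegral.integral_eq_sub_of_hasDerivAt (a := 0) (b := 1) (fun s _ => hd s)
      (hc.intervalIntegrable 0 1)
    rw [intervalIntegral.integral_const_mul] at h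
    simp only [Complex.ofReal_one, one_mul, Complex.ofReal_zero, zero_mul, sub_zero] at h
    have h' := congrArg norm h
    rw [norm_mul, norm_mul, norm_mul, norm_prod, norm_mul, norm_prod] at h'
    have h1 : ‖(N : ℂ) + 1‖ = (N : ℝ) + 1 := by
      have : (N : ℂ) + 1 = ((N + 1 : ℕ) : ℂ) := by push_cast; ring
      rw [this, Complex.norm_natCast]
      push_cast
      ring
    have h2 : ∏ k, ‖-w k‖ = EE w := by
      unfold EE
      refine Finset.prod_congr rfl fun k _ => norm_neg _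
    rw [h1, h2] at h'
    have hy0 : ‖y‖ ≠ 0 := norm_ne_zero_iff.2 hy
    apply mul_left_cancel₀ hy0
    rw [← h']
    unfold fI
    ring

/-- **M5 for a counterexample**: an upper bound of `F(y)/y` -/
theorem Cfg1.m5 (hN : 1 ≤ N) (hC : Cfg1 N z w c σ σ₀) {a l b : ℝ} {e y : ℂ} (he : ‖e‖ = 1)
    (hb : 0 < b) (hc : CertAt a l e ((c - y) / b)) :
    ((N : ℝ) + 1) * EE w * ‖fI w y‖ < Real.exp ((((N : ℝ) + 1)
      - N * b * (1 + Real.log (1 - a ^ 2) / 2 - l - Real.log b)
      - a * (conj e * (N * y - ((N : ℂ) + 1) * av w)).re + (conj σ₀ * y).re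
      + b * kap a * (conj e * σ₀).re) / b) := by
  rw [← hC.prod_eq y, ← hC.sum_z hN]
  refine (m5_prod hC.med he hb hc).trans_lt ?_
  apply Real.exp_lt_exp.2
  apply div_lt_div_of_pos_right _ hb
  linarith [hC.mass]

end facts

/-- the statement that there is no normalised counterexample -/
def FINAL1_S : Prop := ∀ (N : ℕ) (z w : Fin N → ℂ) (c : ℂ) (σ : Fin N → ℂ) (σ₀ : ℂ), 1 ≤ N →
  ¬ Cfg1 N z w c σ σ₀

/-- Borcea's inequality for all `p ≥ 1` and all degrees (the frozen statement S05819) -/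
def MAIN1_S : Prop :=
  ∀ (n : ℕ), 2 ≤ n → ∀ (z : Fin n → ℂ) (p : ℝ), 1 ≤ p → ∀ (c : ℂ) (k : Fin n),
      ∃ w : ℂ,
        (Polynomial.derivative (∏ j : Fin n, (Polynomial.X - Polynomial.C (z j)))).IsRoot w ∧
        ‖z k - w‖ ≤ ((1 / (n : ℝ)) * ∑ j : Fin n, ‖z j - c‖ ^ p) ^ (1 / p)

/-- **Reduction**: it is enough to exclude normalised counterexamples. -/
theorem norm1 (h0 : FINAL1_S) : MAIN1_S := by
  intro n hn z p hp c k
  obtain ⟨N, rfl⟩ : ∃ N, n = N + 1 := ⟨n - 1, by omega⟩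
  have hN1 : 1 ≤ N := by omega
  by_contra hcon
  push Not at hcon
  set P : ℂ[X] := ∏ j : Fin (N + 1), (X - C (z j)) with hP
  set s := ((1 / ((N + 1 : ℕ) : ℝ)) * ∑ j : Fin (N + 1), ‖z j - c‖ ^ p) ^ (1 / p) with hs
  have hs0 : 0 ≤ s := by rw [hs]; positivity
  have hp0 : 0 < p := by linarith
  -- means
  have hmean : 1 / ((N + 1 : ℕ) : ℝ) * ∑ j : Fin (N + 1), ‖z j - c‖ ≤ s := by
    have h3 := Real.arith_mean_le_rpow_mean (Finset.univ : Finset (Fin (N + 1)))
      (fun _ => 1 / ((N + 1 : ℕ) : ℝ)) (fun j => ‖z j - c‖) (fun _ _ => by positivity)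
      (by
        rw [Finset.sum_const, Finset.card_univ, Fintype.card_fin, nsmul_eq_mul]
        field_simp) (fun _ _ => by positivity) hp
    rw [← Finset.mul_sum, ← Finset.mul_sum] at h3
    exact h3
  have hd : derivative P ≠ 0 := by
    intro h
    have := nd_deriv z
    rw [← hP, h, natDegree_zero] at this
    omega
  -- enumeration of the critical points
  have hcard : (derivative P).roots.card = N := by
    have := (IsAlgClosed.splits (derivative P)).natDegree_eq_card_roots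
    rw [← this, hP, nd_deriv z]
    simp
  obtain ⟨ω, hω⟩ := SV.NORM.exists_fin_enum' _ hcard
  have hmem : ∀ l, (derivative P).IsRoot (ω l) := by
    intro l
    apply isRoot_of_mem_roots
    rw [hω]
    exact Multiset.mem_map_of_mem _ (by simp)
  have hD : ∀ x, (derivative P).eval x = ((N : ℂ) + 1) * ∏ l, (x - ω l) := by
    intro x
    rw [(IsAlgClosed.splits (derivative P)).eval_eq_prod_roots, hP, lc_deriv z (by omega)]
    rw [← hP]
    conv_lhs => rw [hω, Multiset.map_map]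
    push_cast
    rfl
  -- the minimal distance
  obtain ⟨l0, -, hl0⟩ := Finset.exists_min_image (Finset.univ : Finset (Fin N))
    (fun l => ‖z k - ω l‖) ⟨⟨0, by omega⟩, Finset.mem_univ _⟩
  set r := ‖z k - ω l0‖ with hr
  have hrs : s < r := hcon (ω l0) (hmem l0)
  have hr0 : 0 < r := lt_of_le_of_lt hs0 hrs
  have hrC : (r : ℂ) ≠ 0 := by exact_mod_cast hr0.ne'
  have hnR : (0 : ℝ) < ((N + 1 : ℕ) : ℝ) := by positivity
  have hnC : ((N : ℂ) + 1) ≠ 0 := by exact_mod_cast (Nat.succ_ne_zero N)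
  obtain ⟨c', σ, σ₀, hmed, hmin⟩ := exists_med (fun j : Fin N => (z (k.succAbove j) - z k) / r)
  refine h0 N (fun j => (z (k.succAbove j) - z k) / r) (fun l => (ω l - z k) / r)
    c' σ σ₀ hN1 ⟨?_, ?_, hmed, ?_⟩
  · intro x
    -- the polynomial
    have h1 : ∀ y : ℂ, y * ∏ j, (y - (z (k.succAbove j) - z k) / r) =
        ((r : ℂ) ^ (N + 1))⁻¹ * P.eval (z k + r * y) := by
      intro y
      rw [hP, eval_prod, Fin.prod_univ_succAbove _ k]
      simp only [eval_sub, eval_X, eval_C]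
      have e1 : z k + r * y - z k = r * y := by ring
      have e2 : ∏ j, (z k + r * y - z (k.succAbove j)) =
          (r : ℂ) ^ N * ∏ j, (y - (z (k.succAbove j) - z k) / r) := by
        have : (r : ℂ) ^ N = ∏ _j : Fin N, (r : ℂ) := by simp
        rw [this, ← Finset.prod_mul_distrib]
        refine Finset.prod_congr rfl fun j _ => ?_
        field_simp
        ring
      rw [e1, e2]
      have e3 : (r : ℂ) ^ (N + 1) ≠ 0 := pow_ne_zero _ hrC
      rw [eq_comm, inv_mul_eq_div, div_eq_iff e3, pow_succ]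
      ring
    have h2 : HasDerivAt (fun y : ℂ => ((r : ℂ) ^ (N + 1))⁻¹ * P.eval (z k + r * y))
        (((r : ℂ) ^ (N + 1))⁻¹ * ((derivative P).eval (z k + r * x) * r)) x := by
      have h3 : HasDerivAt (fun y : ℂ => z k + r * y) r x := by
        simpa using ((hasDerivAt_id x).const_mul (r : ℂ)).const_add (z k)
      exact ((P.hasDerivAt (z k + r * x)).comp x h3).const_mul _
    have h3 : ((r : ℂ) ^ (N + 1))⁻¹ * ((derivative P).eval (z k + r * x) * r) =
        ((N : ℂ) + 1) * ∏ l, (x - (ω l - z k) / r) := by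
      rw [hD]
      have e2 : ∏ l, (z k + r * x - ω l) = (r : ℂ) ^ N * ∏ l, (x - (ω l - z k) / r) := by
        have : (r : ℂ) ^ N = ∏ _j : Fin N, (r : ℂ) := by simp
        rw [this, ← Finset.prod_mul_distrib]
        refine Finset.prod_congr rfl fun j _ => ?_
        field_simp
        ring
      have e3 : (r : ℂ) ^ (N + 1) ≠ 0 := pow_ne_zero _ hrC
      rw [e2, inv_mul_eq_div, div_eq_iff e3, pow_succ]
      ring
    rw [← h3]
    have h4 : (fun y : ℂ => y * ∏ j, (y - (z (k.succAbove j) - z k) / r)) =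
        fun y : ℂ => ((r : ℂ) ^ (N + 1))⁻¹ * P.eval (z k + r * y) := funext h1
    rw [h4]
    exact h2
  · intro l
    rw [norm_div, Complex.norm_real, Real.norm_of_nonneg hr0.le, le_div_iff₀ hr0, one_mul,
      norm_sub_rev]
    exact hl0 l (Finset.mem_univ l)
  · refine (hmin ((c - z k) / r)).trans_lt ?_
    have h1 : ‖(c - z k) / (r : ℂ)‖ +
        ∑ j, ‖(z (k.succAbove j) - z k) / (r : ℂ) - (c - z k) / (r : ℂ)‖ =
        (∑ j, ‖z j - c‖) / r := by
      rw [Fin.sum_univ_succAbove _ k, add_div, Finset.sum_div]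
      congr 1
      · rw [norm_div, Complex.norm_real, Real.norm_of_nonneg hr0.le, norm_sub_rev]
      · refine Finset.sum_congr rfl fun j _ => ?_
        have e : (z (k.succAbove j) - z k) / (r : ℂ) - (c - z k) / (r : ℂ) =
            (z (k.succAbove j) - c) / r := by ring
        rw [e, norm_div, Complex.norm_real, Real.norm_of_nonneg hr0.le]
    rw [h1, div_lt_iff₀ hr0]
    have h3 : ∑ j, ‖z j - c‖ ≤ ((N + 1 : ℕ) : ℝ) * s := by
      rw [one_div, inv_mul_le_iff₀ hnR] at hmean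
      exact hmean
    have h5 : ((N + 1 : ℕ) : ℝ) * s < ((N + 1 : ℕ) : ℝ) * r :=
      mul_lt_mul_of_pos_left hrs hnR
    push_cast at h3 h5
    exact lt_of_le_of_lt h3 h5

end Pool.Agent.Lib.MP_af3a4a_an.P1.H80
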