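import Pool.Agent.Lib.MP_af3a4a_an.P1.H80.N3
import Pool.Agent.Lib.MP_af3a4a_an.P1.H80.Contour

/-!
# The contour method for `N = 3`, part A: real analysis (council 2, helper80)
-/

namespace Pool.Agent.Lib.MP_af3a4a_an.P1.H80

open Finset MeasureTheory intervalIntegral ComplexConjugate
open Pool.Agent.Lib.MP_af3a4a_an.SV (uu av sq EE)

/-! ### `|z_j|² ≥ 2` -/

theorem quartic_ne {T : ℂ} (hT : ‖T‖ ^ 2 < 2) : (2 - T) * (2 - 2 * T + T ^ 2) ≠ 0 := by
  have h1 : (2 : ℂ) - T ≠ 0 := by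
    intro h
    have : T = 2 := by linear_combination -h
    rw [this, Complex.norm_ofNat] at hT
    norm_num at hT
  have h2 : (2 : ℂ) - 2 * T + T ^ 2 ≠ 0 := by
    have e : (2 : ℂ) - 2 * T + T ^ 2 = (T - (1 + Complex.I)) * (T - (1 - Complex.I)) := by
      linear_combination Complex.I_sq
    rw [e]
    have n1 : ‖(1 : ℂ) + Complex.I‖ ^ 2 = 2 := by
      rw [norm_sq_re_im]
      simp
      norm_num
    have n2 : ‖(1 : ℂ) - Complex.I‖ ^ 2 = 2 := by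
      rw [norm_sq_re_im]
      simp
      norm_num
    apply mul_ne_zero
    · intro h
      rw [sub_eq_zero.1 h, n1] at hT
      exact lt_irrefl _ hT
    · intro h
      rw [sub_eq_zero.1 h, n2] at hT
      exact lt_irrefl _ hT
  exact mul_ne_zero h1 h2

theorem fI3_ne {w : Fin 3 → ℂ} (hu : ∀ k, ‖uu w k‖ ≤ 1) {y : ℂ} (hy : ‖y‖ ^ 2 < 2) :
    fI w y ≠ 0 := by
  have hlist : List.ofFn (uu w) = [uu w 0, uu w 1, uu w 2] := by
    simp [List.ofFn_succ]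
  rw [fI_TT, hlist]
  apply gws
  · intro u hu'
    simp only [List.mem_cons, List.not_mem_nil, or_false] at hu'
    rcases hu' with rfl | rfl | rfl
    · exact hu 0
    · exact hu 1
    · exact hu 2
  · intro ζ hζ
    have : [uu w 0, uu w 1, uu w 2].length = 3 := rfl
    rw [this]
    have e : ∑ j ∈ range (3 + 1), (-y) ^ j / ((j : ℂ) + 1) * (Nat.choose 3 j : ℂ) * ζ ^ j =
        1 / 4 * ((2 - y * ζ) * (2 - 2 * (y * ζ) + (y * ζ) ^ 2)) := by
      simp only [Finset.sum_range_succ, Finset.sum_range_zero]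
      norm_num [Nat.choose]
      ring
    rw [e]
    apply mul_ne_zero (by norm_num)
    apply quartic_ne
    rw [norm_mul, mul_pow]
    have h1 : ‖ζ‖ ^ 2 ≤ 1 := pow_le_one₀ (norm_nonneg _) hζ
    nlinarith only [hy, h1, sq_nonneg ‖y‖]

theorem Cfg1.zmin3 {z w : Fin 3 → ℂ} {c : ℂ} {σ : Fin 3 → ℂ} {σ₀ : ℂ}
    (hC : Cfg1 3 z w c σ σ₀) (j : Fin 3) : 2 ≤ ‖z j‖ ^ 2 := by
  by_contra h
  push Not at h
  have hu : ∀ k, ‖uu w k‖ ≤ 1 := by
    intro k
    have h1 := hC.far k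
    unfold uu
    rw [norm_inv]
    exact inv_le_one_of_one_le₀ h1
  have h1 := fI3_ne hu h
  have h2 := hC.prod_eq (z j)
  have h3 : ∏ i, ‖z j - z i‖ = 0 := by
    apply Finset.prod_eq_zero (Finset.mem_univ j)
    rw [sub_self, norm_zero]
  rw [h3] at h2
  have h4 : 0 < EE w := by
    unfold EE
    apply Finset.prod_pos
    intro k _
    exact norm_pos_iff.2 (hC.w_ne k)
  have h5 : 0 < ‖fI w (z j)‖ := norm_pos_iff.2 h1
  have : 0 < (((3 : ℕ) : ℝ) + 1) * EE w * ‖fI w (z j)‖ := by positivity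
  linarith only [h2, this]

/-! ### The quadratic forms -/

/-- `κ` -/
noncomputable def kap3 (r K k η l m R X : ℝ) : ℝ :=
  l * (2 - r ^ 2) + m * (R ^ 2 - 2 * R * X + r ^ 2) - m * ((4 - R) * k / K) ^ 2 - η

/-- `E` -/
noncomputable def e3 (r Rp l m F X : ℝ) : ℝ := m - l - F - (Rp * X / r ^ 2 - 1) / 3

/-- `|C|²` -/
noncomputable def w3 (r Rp l m R X : ℝ) : ℝ :=
  (Rp ^ 2 - 2 * Rp * X + r ^ 2) + 4 * l ^ 2 * r ^ 2 + 4 * m ^ 2 * (R ^ 2 - 2 * R * X + r ^ 2) +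
    8 * l * m * (R * X - r ^ 2) - 4 * l * (Rp * X - r ^ 2) -
    4 * m * (Rp * R - (R + Rp) * X + r ^ 2)

/-- the node condition -/
structure Node3 (r Rp K k η l m F R X : ℝ) : Prop where
  hE : 0 < e3 r Rp l m F X
  hW : w3 r Rp l m R X ≤ 4 * kap3 r K k η l m R X * e3 r Rp l m F X

/-- from the vertices to the cell -/
theorem node_cell {r Rp K k η l m F R0 R1 X0 X1 R X : ℝ} (hr : 0 < r) (hRp : 0 ≤ Rp) (hK : 0 < K)
    (hm : 0 ≤ m) (hR0 : 0 ≤ R0) (hR : R ∈ Set.Icc R0 R1) (hX : X ∈ Set.Icc X0 X1)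
    (h : ∀ Rv Xv, (Rv = R0 ∨ Rv = R1) → (Xv = X0 ∨ Xv = X1) → 0 < e3 r Rp l m F Xv ∧
      w3 r Rp l m Rv Xv + 2 / 3 * m * Rv * Rp * (X1 - X0) ^ 2 / r ^ 2 +
        m * e3 r Rp l m F Xv * (R1 - R0) ^ 2 ≤
        4 * kap3 r K k η l m Rv Xv * e3 r Rp l m F Xv) :
    Node3 r Rp K k η l m F R X := by
  obtain ⟨hRa, hRb⟩ := hR
  obtain ⟨hXa, hXb⟩ := hX
  have hr2 : (r : ℝ) ^ 2 ≠ 0 := by positivity
  -- parametrize `X`
  obtain ⟨τ, hτ0, hτ1, hτ⟩ : ∃ τ : ℝ, 0 ≤ τ ∧ τ ≤ 1 ∧ X = (1 - τ) * X0 + τ * X1 := by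
    rcases eq_or_lt_of_le (hXa.trans hXb) with h0 | h0
    · refine ⟨0, le_rfl, zero_le_one, ?_⟩
      linarith only [hXa, hXb, h0]
    · refine ⟨(X - X0) / (X1 - X0), div_nonneg (by linarith only [hXa]) (by linarith only [h0]),
        (div_le_one (by linarith only [h0])).2 (by linarith only [hXb]), ?_⟩
      have : X1 - X0 ≠ 0 := by linarith only [h0]
      field_simp
      ring
  obtain ⟨s, hs0, hs1, hs⟩ : ∃ s : ℝ, 0 ≤ s ∧ s ≤ 1 ∧ R = (1 - s) * R0 + s * R1 := by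
    rcases eq_or_lt_of_le (hRa.trans hRb) with h0 | h0
    · refine ⟨0, le_rfl, zero_le_one, ?_⟩
      linarith only [hRa, hRb, h0]
    · refine ⟨(R - R0) / (R1 - R0), div_nonneg (by linarith only [hRa]) (by linarith only [h0]),
        (div_le_one (by linarith only [h0])).2 (by linarith only [hRb]), ?_⟩
      have : R1 - R0 ≠ 0 := by linarith only [h0]
      field_simp
      ring
  have hEX : e3 r Rp l m F X = (1 - τ) * e3 r Rp l m F X0 + τ * e3 r Rp l m F X1 := by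
    rw [hτ]; unfold e3; ring
  have hE0 := (h R0 X0 (Or.inl rfl) (Or.inl rfl)).1
  have hE1 := (h R0 X1 (Or.inl rfl) (Or.inr rfl)).1
  have hE : 0 < e3 r Rp l m F X := by
    rw [hEX]
    rcases eq_or_lt_of_le hτ0 with h0 | h0
    · rw [← h0]; simpa using hE0
    · have := mul_pos h0 hE1
      have := mul_nonneg (sub_nonneg.2 hτ1) hE0.le
      linarith
  -- step 1
  have step1 : ∀ Rv, (Rv = R0 ∨ Rv = R1) → w3 r Rp l m Rv X +
      m * e3 r Rp l m F X * (R1 - R0) ^ 2 ≤ 4 * kap3 r K k η l m Rv X * e3 r Rp l m F X := by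
    intro Rv hRv
    have hRv0 : 0 ≤ Rv := by
      rcases hRv with h0 | h0 <;> linarith
    have a0 := (h Rv X0 hRv (Or.inl rfl)).2
    have a1 := (h Rv X1 hRv (Or.inr rfl)).2
    have id1 : 4 * kap3 r K k η l m Rv X * e3 r Rp l m F X - w3 r Rp l m Rv X -
        m * e3 r Rp l m F X * (R1 - R0) ^ 2 =
        (1 - τ) * (4 * kap3 r K k η l m Rv X0 * e3 r Rp l m F X0 - w3 r Rp l m Rv X0 -
          m * e3 r Rp l m F X0 * (R1 - R0) ^ 2) +
        τ * (4 * kap3 r K k η l m Rv X1 * e3 r Rp l m F X1 - w3 r Rp l m Rv X1 -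
          m * e3 r Rp l m F X1 * (R1 - R0) ^ 2) -
        8 / 3 * (m * Rv * Rp / r ^ 2) * (τ * (1 - τ)) * (X1 - X0) ^ 2 := by
      rw [hτ]
      unfold kap3 e3 w3
      field_simp
      ring
    have hc : 0 ≤ m * Rv * Rp / r ^ 2 := by positivity
    have hτq : τ * (1 - τ) ≤ 1 / 4 := by linarith only [sq_nonneg (τ - 1 / 2)]
    have hcX : 0 ≤ (m * Rv * Rp / r ^ 2) * (X1 - X0) ^ 2 := by positivity
    have b0 : 2 / 3 * m * Rv * Rp * (X1 - X0) ^ 2 / r ^ 2 =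
        2 / 3 * ((m * Rv * Rp / r ^ 2) * (X1 - X0) ^ 2) := by ring
    rw [b0] at a0 a1
    have c0 := mul_le_mul_of_nonneg_left a0 (sub_nonneg.2 hτ1)
    have c1 := mul_le_mul_of_nonneg_left a1 hτ0
    have c2 := mul_le_mul_of_nonneg_left hτq hcX
    linarith only [id1, c0, c1, c2]
  -- step 2
  have a0 := step1 R0 (Or.inl rfl)
  have a1 := step1 R1 (Or.inr rfl)
  refine ⟨hE, ?_⟩
  have id2 : 4 * kap3 r K k η l m R X * e3 r Rp l m F X - w3 r Rp l m R X =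
      (1 - s) * (4 * kap3 r K k η l m R0 X * e3 r Rp l m F X - w3 r Rp l m R0 X) +
      s * (4 * kap3 r K k η l m R1 X * e3 r Rp l m F X - w3 r Rp l m R1 X) -
      (4 * e3 r Rp l m F X * m * (1 - (k / K) ^ 2) - 4 * m ^ 2) * (s * (1 - s)) *
        (R1 - R0) ^ 2 := by
    rw [hs]
    unfold kap3 w3
    ring
  have hsq : s * (1 - s) ≤ 1 / 4 := by linarith only [sq_nonneg (s - 1 / 2)]
  have hss : 0 ≤ s * (1 - s) := mul_nonneg hs0 (sub_nonneg.2 hs1)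
  have hD : 0 ≤ (R1 - R0) ^ 2 := sq_nonneg _
  have hme : 0 ≤ m * e3 r Rp l m F X := mul_nonneg hm hE.le
  have c0 := mul_le_mul_of_nonneg_left a0 (sub_nonneg.2 hs1)
  have c1 := mul_le_mul_of_nonneg_left a1 hs0
  have c2 : (4 * e3 r Rp l m F X * m * (1 - (k / K) ^ 2) - 4 * m ^ 2) * (s * (1 - s)) *
        (R1 - R0) ^ 2 ≤ m * e3 r Rp l m F X * (R1 - R0) ^ 2 := by
    have d1 : (4 * e3 r Rp l m F X * m * (1 - (k / K) ^ 2) - 4 * m ^ 2) ≤
        4 * (m * e3 r Rp l m F X) := by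
      linarith only [hme, sq_nonneg (k / K), sq_nonneg m, mul_nonneg hme (sq_nonneg (k / K))]
    have d2 := mul_le_mul_of_nonneg_right d1 hss
    have d3 := mul_le_mul_of_nonneg_left hsq hme
    have d4 : (4 * e3 r Rp l m F X * m * (1 - (k / K) ^ 2) - 4 * m ^ 2) * (s * (1 - s)) ≤
        m * e3 r Rp l m F X := by linarith only [d2, d3]
    exact mul_le_mul_of_nonneg_right d4 hD
  linarith only [id2, c0, c1, c2]

/-! ### The pointwise bound -/

/-- the form is nonnegative -/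
theorem form_nonneg {κ E : ℝ} {C v : ℂ} (hE : 0 < E) (h : ‖C‖ ^ 2 ≤ 4 * κ * E) :
    0 ≤ κ + (C * conj v).re + E * ‖v‖ ^ 2 := by
  have h1 : 4 * E * (κ + (C * conj v).re + E * ‖v‖ ^ 2) =
      ‖C + (2 * E : ℝ) * v‖ ^ 2 - ‖C‖ ^ 2 + 4 * κ * E := by
    rw [norm_sq_re_im, norm_sq_re_im, norm_sq_re_im]
    simp only [Complex.add_re, Complex.add_im, Complex.mul_re, Complex.mul_im,
      Complex.conj_re, Complex.conj_im, Complex.ofReal_re, Complex.ofReal_im]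
    ring
  have h2 : 0 ≤ 4 * E * (κ + (C * conj v).re + E * ‖v‖ ^ 2) := by
    rw [h1]
    have := sq_nonneg ‖C + (2 * E : ℝ) * v‖
    linarith only [h, this]
  by_contra hcon
  push Not at hcon
  have := mul_neg_of_pos_of_neg (by linarith only [hE] : (0 : ℝ) < 4 * E) hcon
  linarith only [h2, this]

/-- the interpolation defect: `(μ_k + θ Δ)(k + θ)²` -/
theorem defect {m0 m1 k θ : ℝ} (h0 : 0 ≤ θ) (h1 : θ ≤ 1) {e : ℝ} (he0 : 0 ≤ e)
    (he : (m0 - m1) * (2 * k + 1) - min m0 m1 ≤ 4 * e) :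
    ((1 - θ) * m0 + θ * m1) * (k + θ) ^ 2 ≤
      (1 - θ) * (m0 * k ^ 2) + θ * (m1 * (k + 1) ^ 2) + e := by
  have id : ((1 - θ) * m0 + θ * m1) * (k + θ) ^ 2 -
      ((1 - θ) * (m0 * k ^ 2) + θ * (m1 * (k + 1) ^ 2)) =
      θ * (1 - θ) * ((m0 - m1) * (2 * k + 1) - ((1 - θ) * m0 + θ * m1)) := by ring
  have hmin : min m0 m1 ≤ (1 - θ) * m0 + θ * m1 := by
    have a := mul_le_mul_of_nonneg_left (min_le_left m0 m1) (sub_nonneg.2 h1)
    have b := mul_le_mul_of_nonneg_left (min_le_right m0 m1) h0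
    linarith only [a, b]
  have hθ : 0 ≤ θ * (1 - θ) := mul_nonneg h0 (sub_nonneg.2 h1)
  have hθ4 : θ * (1 - θ) ≤ 1 / 4 := by linarith only [sq_nonneg (θ - 1 / 2)]
  have h2 : (m0 - m1) * (2 * k + 1) - ((1 - θ) * m0 + θ * m1) ≤ 4 * e := by linarith only [he, hmin]
  have h3 := mul_le_mul_of_nonneg_left h2 hθ
  have h4 := mul_le_mul_of_nonneg_right hθ4 (by linarith only [he0] : 0 ≤ 4 * e)
  linarith only [h3, h4]

/-- the pointwise bound between two nodes -/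
theorem pointwise3 {x z : ℂ} {r R Rp K k θ l0 m0 F0 η0 l1 m1 F1 η1 e : ℝ} (hx : ‖x‖ = r)
    (hz : 2 ≤ ‖z‖ ^ 2) (hzx : z ≠ x) (h0 : 0 ≤ θ) (h1 : θ ≤ 1)
    (hρ : ‖z - (R : ℂ)‖ = (4 - R) * (k + θ) / K)
    (hl0 : 0 ≤ l0) (hl1 : 0 ≤ l1) (he0 : 0 ≤ e)
    (he : (m0 - m1) * (2 * k + 1) - min m0 m1 ≤ 4 * e)
    (hη0 : ((4 - R) / K) ^ 2 * e ≤ η0) (hη1 : ((4 - R) / K) ^ 2 * e ≤ η1)
    (n0 : Node3 r Rp K k η0 l0 m0 F0 R x.re) (n1 : Node3 r Rp K (k + 1) η1 l1 m1 F1 R x.re) :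
    (1 - θ) * F0 + θ * F1 + (Rp * x.re / r ^ 2 - 1) / 3 ≤ (((Rp : ℂ) - x) / (z - x)).re := by
  have hx2 : x.re ^ 2 + x.im ^ 2 = r ^ 2 := by rw [← norm_sq_re_im, hx]
  set v : ℂ := z - x with hv
  have hv0 : v ≠ 0 := sub_ne_zero.2 hzx
  have hV : 0 < ‖v‖ ^ 2 := by positivity
  have hzv : z = x + v := by rw [hv]; ring
  -- the coefficients
  have hC : ∀ l m : ℝ, ‖((Rp : ℂ) - x) - 2 * (l : ℂ) * x - 2 * (m : ℂ) * ((R : ℂ) - x)‖ ^ 2 =
      w3 r Rp l m R x.re := by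
    intro l m
    rw [norm_sq_re_im]
    simp only [Complex.sub_re, Complex.sub_im, Complex.mul_re, Complex.mul_im, Complex.ofReal_re,
      Complex.ofReal_im, Complex.re_ofNat, Complex.im_ofNat]
    unfold w3
    rw [← hx2]
    ring
  have f0 := form_nonneg (v := v) n0.hE (by rw [hC l0 m0]; exact n0.hW)
  have f1 := form_nonneg (v := v) n1.hE (by rw [hC l1 m1]; exact n1.hW)
  -- the identity
  have hre : (((Rp : ℂ) - x) / v).re = (((Rp : ℂ) - x) * conj v).re / ‖v‖ ^ 2 := by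
    rw [Complex.div_re, ← add_div, Complex.normSq_eq_norm_sq]
    congr 1
    simp only [Complex.mul_re, Complex.conj_re, Complex.conj_im]
    ring
  rw [hre, le_div_iff₀ hV]
  have hzn : ‖z‖ ^ 2 = r ^ 2 + 2 * (x * conj v).re + ‖v‖ ^ 2 := by
    rw [← hx, hzv, norm_sq_re_im, norm_sq_re_im, norm_sq_re_im]
    simp only [Complex.add_re, Complex.add_im, Complex.mul_re, Complex.conj_re, Complex.conj_im]
    ring
  have hzR : ‖z - (R : ℂ)‖ ^ 2 = (R ^ 2 - 2 * R * x.re + r ^ 2) -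
      2 * (((R : ℂ) - x) * conj v).re + ‖v‖ ^ 2 := by
    rw [← hx2, hzv, norm_sq_re_im, norm_sq_re_im]
    simp only [Complex.add_re, Complex.add_im, Complex.sub_re, Complex.sub_im, Complex.mul_re,
      Complex.conj_re, Complex.conj_im, Complex.ofReal_re, Complex.ofReal_im]
    ring
  rw [hρ] at hzR
  -- defect
  have hd := defect h0 h1 he0 he
  have hq : 0 ≤ ((4 - R) / K) ^ 2 := sq_nonneg _
  have hd2 := mul_le_mul_of_nonneg_left hd hq
  have hll : 0 ≤ (1 - θ) * l0 + θ * l1 :=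
    add_nonneg (mul_nonneg (sub_nonneg.2 h1) hl0) (mul_nonneg h0 hl1)
  have hprod := mul_nonneg hll (sub_nonneg.2 hz)
  have g0 := mul_nonneg (sub_nonneg.2 h1) f0
  have g1 := mul_nonneg h0 f1
  have hη0' := mul_le_mul_of_nonneg_left hη0 (sub_nonneg.2 h1)
  have hη1' := mul_le_mul_of_nonneg_left hη1 h0
  -- the forms written out
  have e0 : (((Rp : ℂ) - x - 2 * (l0 : ℂ) * x - 2 * (m0 : ℂ) * ((R : ℂ) - x)) * conj v).re =
      (((Rp : ℂ) - x) * conj v).re - 2 * l0 * (x * conj v).re -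
        2 * m0 * (((R : ℂ) - x) * conj v).re := by
    simp only [Complex.sub_re, Complex.sub_im, Complex.mul_re, Complex.mul_im, Complex.ofReal_re,
      Complex.ofReal_im, Complex.re_ofNat, Complex.im_ofNat, Complex.conj_re, Complex.conj_im]
    ring
  have e1 : (((Rp : ℂ) - x - 2 * (l1 : ℂ) * x - 2 * (m1 : ℂ) * ((R : ℂ) - x)) * conj v).re =
      (((Rp : ℂ) - x) * conj v).re - 2 * l1 * (x * conj v).re -
        2 * m1 * (((R : ℂ) - x) * conj v).re := by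
    simp only [Complex.sub_re, Complex.sub_im, Complex.mul_re, Complex.mul_im, Complex.ofReal_re,
      Complex.ofReal_im, Complex.re_ofNat, Complex.im_ofNat, Complex.conj_re, Complex.conj_im]
    ring
  rw [e0] at g0
  rw [e1] at g1
  unfold kap3 e3 at g0 g1
  set b := (((Rp : ℂ) - x) * conj v).re with hb
  set p := (x * conj v).re with hp
  set aa := (((R : ℂ) - x) * conj v).re with haa
  set V := ‖v‖ ^ 2 with hVdef
  set need := (Rp * x.re / r ^ 2 - 1) / 3 with hneed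
  rw [hzn] at hprod
  have q1 : ((4 - R) * (k + θ) / K) ^ 2 = ((4 - R) / K) ^ 2 * (k + θ) ^ 2 := by ring
  have q2 : ((4 - R) * k / K) ^ 2 = ((4 - R) / K) ^ 2 * k ^ 2 := by ring
  have q3 : ((4 - R) * (k + 1) / K) ^ 2 = ((4 - R) / K) ^ 2 * (k + 1) ^ 2 := by ring
  rw [q1] at hzR
  rw [q2] at g0
  rw [q3] at g1
  set Q := ((4 - R) / K) ^ 2 with hQ
  have hm : ((1 - θ) * m0 + θ * m1) * (Q * (k + θ) ^ 2) = ((1 - θ) * m0 + θ * m1) *
      ((R ^ 2 - 2 * R * x.re + r ^ 2) - 2 * aa + V) := by rw [hzR]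
  linarith only [hprod, hd2, hη0', hη1', g0, g1, hm]

/-! ### Three points -/

theorem triple3 {K : ℕ} {F : ℕ → ℝ} (hmono : ∀ k < K, F (k + 1) ≤ F k)
    (hT : ∀ i j, i + j ≤ K → 0 < F i + F j + F (K - i - j)) {k1 k2 k3 : ℕ} {t1 t2 t3 : ℝ}
    (a1 : 0 ≤ t1) (b1 : t1 ≤ 1) (a2 : 0 ≤ t2) (b2 : t2 ≤ 1) (a3 : 0 ≤ t3) (b3 : t3 ≤ 1)
    (hs : (k1 + t1) + (k2 + t2) + (k3 + t3) ≤ (K : ℝ)) :
    0 < ((1 - t1) * F k1 + t1 * F (k1 + 1)) + ((1 - t2) * F k2 + t2 * F (k2 + 1)) +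
      ((1 - t3) * F k3 + t3 * F (k3 + 1)) := by
  have hanti : ∀ a b, a ≤ b → b ≤ K → F b ≤ F a := by
    intro a b hab
    induction b, hab using Nat.le_induction with
    | base => intro _; exact le_rfl
    | succ b hab ih =>
      intro hb
      exact (hmono b (by omega)).trans (ih (by omega))
  have hT' : ∀ i j l, i + j + l ≤ K → 0 < F i + F j + F l := by
    intro i j l h
    have h1 := hT i j (by omega)
    have h2 := hanti l (K - i - j) (by omega) (by omega)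
    linarith only [h1, h2]
  have hn : k1 + k2 + k3 ≤ K := by
    have : ((k1 + k2 + k3 : ℕ) : ℝ) ≤ K := by push_cast; linarith only [a1, a2, a3, hs]
    exact_mod_cast this
  obtain ⟨m, hm⟩ := Nat.exists_eq_add_of_le hn
  have hmR : t1 + t2 + t3 ≤ m := by
    have : (K : ℝ) = k1 + k2 + k3 + m := by rw [hm]; push_cast; ring
    linarith only [hs, this]
  rcases m with _ | _ | _ | m
  · have h1 : t1 = 0 := le_antisymm (by push_cast at hmR; linarith only [a2, a3, hmR]) a1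
    have h2 : t2 = 0 := le_antisymm (by push_cast at hmR; linarith only [a1, a3, hmR]) a2
    have h3 : t3 = 0 := le_antisymm (by push_cast at hmR; linarith only [a1, a2, hmR]) a3
    have := hT' k1 k2 k3 (by omega)
    rw [h1, h2, h3]
    linarith only [this]
  · have d1 := hmono k1 (by omega)
    have d2 := hmono k2 (by omega)
    have d3 := hmono k3 (by omega)
    have v1 := hT' (k1 + 1) k2 k3 (by omega)
    have v2 := hT' k1 (k2 + 1) k3 (by omega)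
    have v3 := hT' k1 k2 (k3 + 1) (by omega)
    push_cast at hmR
    obtain ⟨D, hD1, hD2, hD3, hD⟩ : ∃ D : ℝ, F k1 - F (k1 + 1) ≤ D ∧ F k2 - F (k2 + 1) ≤ D ∧
        F k3 - F (k3 + 1) ≤ D ∧ D < F k1 + F k2 + F k3 := by
      refine ⟨max (F k1 - F (k1 + 1)) (max (F k2 - F (k2 + 1)) (F k3 - F (k3 + 1))),
        le_max_left _ _, (le_max_left _ _).trans (le_max_right _ _),
        (le_max_right _ _).trans (le_max_right _ _), ?_⟩
      refine max_lt ?_ (max_lt ?_ ?_) <;> linarith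
    have hD0 : 0 ≤ D := by linarith only [d1, hD1]
    have e1 := mul_le_mul_of_nonneg_left hD1 a1
    have e2 := mul_le_mul_of_nonneg_left hD2 a2
    have e3 := mul_le_mul_of_nonneg_left hD3 a3
    have e4 := mul_le_mul_of_nonneg_right hmR hD0
    linarith only [hD, e1, e2, e3, e4]
  · have d1 := hmono k1 (by omega)
    have d2 := hmono k2 (by omega)
    have d3 := hmono k3 (by omega)
    have v1 := hT' k1 (k2 + 1) (k3 + 1) (by omega)
    have v2 := hT' (k1 + 1) k2 (k3 + 1) (by omega)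
    have v3 := hT' (k1 + 1) (k2 + 1) k3 (by omega)
    push_cast at hmR
    obtain ⟨D, hD1, hD2, hD3, hD0, hD⟩ : ∃ D : ℝ, D ≤ F k1 - F (k1 + 1) ∧ D ≤ F k2 - F (k2 + 1) ∧
        D ≤ F k3 - F (k3 + 1) ∧ 0 ≤ D ∧ 0 < F (k1 + 1) + F (k2 + 1) + F (k3 + 1) + D := by
      refine ⟨min (F k1 - F (k1 + 1)) (min (F k2 - F (k2 + 1)) (F k3 - F (k3 + 1))),
        min_le_left _ _, (min_le_right _ _).trans (min_le_left _ _),
        (min_le_right _ _).trans (min_le_right _ _),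
        le_min (by linarith only [d1]) (le_min (by linarith only [d2]) (by linarith only [d3])), ?_⟩
      rcases min_choice (F k1 - F (k1 + 1)) (min (F k2 - F (k2 + 1)) (F k3 - F (k3 + 1))) with h | h
      · rw [h]; linarith only [v1]
      · rw [h]
        rcases min_choice (F k2 - F (k2 + 1)) (F k3 - F (k3 + 1)) with h | h
        · rw [h]; linarith only [v2]
        · rw [h]; linarith only [v3]
    have e1 := mul_le_mul_of_nonneg_left hD1 (sub_nonneg.2 b1)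
    have e2 := mul_le_mul_of_nonneg_left hD2 (sub_nonneg.2 b2)
    have e3 := mul_le_mul_of_nonneg_left hD3 (sub_nonneg.2 b3)
    have e4 := mul_le_mul_of_nonneg_right hmR hD0
    linarith only [hD, e1, e2, e3, e4]
  · have d1 := hmono k1 (by omega)
    have d2 := hmono k2 (by omega)
    have d3 := hmono k3 (by omega)
    have v := hT' (k1 + 1) (k2 + 1) (k3 + 1) (by omega)
    have e1 := mul_nonneg (sub_nonneg.2 b1) (sub_nonneg.2 d1)
    have e2 := mul_nonneg (sub_nonneg.2 b2) (sub_nonneg.2 d2)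
    have e3 := mul_nonneg (sub_nonneg.2 b3) (sub_nonneg.2 d3)
    linarith only [v, e1, e2, e3]

/-- **a cell of the contour method** -/
theorem cell3 {K : ℕ} (hK : 0 < K) {r Rp R0 R1 X0 X1 : ℝ} (hr : 0 < r) (hr1 : r ≤ 1)
    (hRp : 0 ≤ Rp) (hR0 : 0 ≤ R0) {l m F η e : ℕ → ℝ} (hl : ∀ k, 0 ≤ l k) (hm : ∀ k, 0 ≤ m k)
    (hv : ∀ k ≤ K, ∀ Rv Xv, (Rv = R0 ∨ Rv = R1) → (Xv = X0 ∨ Xv = X1) →
      0 < e3 r Rp (l k) (m k) (F k) Xv ∧
      w3 r Rp (l k) (m k) Rv Xv + 2 / 3 * m k * Rv * Rp * (X1 - X0) ^ 2 / r ^ 2 +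
        m k * e3 r Rp (l k) (m k) (F k) Xv * (R1 - R0) ^ 2 ≤
        4 * kap3 r K k (η k) (l k) (m k) Rv Xv * e3 r Rp (l k) (m k) (F k) Xv)
    (he0 : ∀ k < K, 0 ≤ e k)
    (he : ∀ k < K, (m k - m (k + 1)) * (2 * k + 1) - min (m k) (m (k + 1)) ≤ 4 * e k)
    (hη0 : ∀ k < K, ((4 - R0) / K) ^ 2 * e k ≤ η k)
    (hη1 : ∀ k < K, ((4 - R0) / K) ^ 2 * e k ≤ η (k + 1))
    (hmono : ∀ k < K, F (k + 1) ≤ F k)
    (hT : ∀ i j, i + j ≤ K → 0 < F i + F j + F (K - i - j))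
    {R : ℝ} (hR : R ∈ Set.Icc R0 R1) {x : ℂ} (hx : ‖x‖ = r) (hX : x.re ∈ Set.Icc X0 X1)
    {z : Fin 3 → ℂ} (hz : ∀ j, 2 ≤ ‖z j‖ ^ 2) (hsum : R + ∑ j, ‖z j - (R : ℂ)‖ < 4) :
    (((Rp : ℂ) - x) / x).re < ∑ j, (((Rp : ℂ) - x) / (z j - x)).re := by
  have hKR : (0 : ℝ) < K := by exact_mod_cast hK
  have hS0 : 0 ≤ ∑ j, ‖z j - (R : ℂ)‖ := Finset.sum_nonneg fun j _ => norm_nonneg _
  have hR4 : 0 < 4 - R := by linarith only [hsum, hS0]
  have hR00 : 0 ≤ R := hR0.trans hR.1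
  -- the parameters
  set s : Fin 3 → ℝ := fun j => ‖z j - (R : ℂ)‖ * K / (4 - R) with hs
  have hs0 : ∀ j, 0 ≤ s j := fun j => by
    rw [hs]; positivity
  have hsK : s 0 + s 1 + s 2 < K := by
    have h1 : s 0 + s 1 + s 2 = (∑ j, ‖z j - (R : ℂ)‖) * K / (4 - R) := by
      rw [Fin.sum_univ_three, hs]
      ring
    rw [h1, div_lt_iff₀ hR4, mul_comm (K : ℝ)]
    exact mul_lt_mul_of_pos_right (by linarith only [hsum]) hKR
  have hkK : ∀ j, ⌊s j⌋₊ < K := by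
    intro j
    have h1 : s j < K := by
      have a0 := hs0 0
      have a1 := hs0 1
      have a2 := hs0 2
      fin_cases j
      · show s 0 < K
        linarith only [hsK, a1, a2]
      · show s 1 < K
        linarith only [hsK, a0, a2]
      · show s 2 < K
        linarith only [hsK, a0, a1]
    rw [Nat.floor_lt (hs0 j)]
    exact h1
  have hθ0 : ∀ j, 0 ≤ s j - ⌊s j⌋₊ := fun j => by
    have := Nat.floor_le (hs0 j)
    linarith only [this]
  have hθ1 : ∀ j, s j - ⌊s j⌋₊ ≤ 1 := fun j => by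
    have := (Nat.lt_floor_add_one (s j)).le
    linarith only [this]
  have hsq : ((4 - R) / K) ^ 2 ≤ ((4 - R0) / K) ^ 2 := by
    apply pow_le_pow_left₀ (by positivity)
    apply div_le_div_of_nonneg_right _ hKR.le
    linarith only [hR, hR.1]
  have hnode : ∀ k ≤ K, Node3 r Rp K k (η k) (l k) (m k) (F k) R x.re := by
    intro k hk
    exact node_cell hr hRp hKR (hm k) hR0 hR hX (hv k hk)
  have hpt : ∀ j, (1 - (s j - ⌊s j⌋₊)) * F ⌊s j⌋₊ + (s j - ⌊s j⌋₊) * F (⌊s j⌋₊ + 1) +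
      (Rp * x.re / r ^ 2 - 1) / 3 ≤ (((Rp : ℂ) - x) / (z j - x)).re := by
    intro j
    have hk := hkK j
    have hzx : z j ≠ x := by
      intro h
      have := hz j
      rw [h, hx] at this
      nlinarith only [hr, hr1, this]
    have n1 := hnode (⌊s j⌋₊ + 1) (by omega)
    push_cast at n1
    refine pointwise3 (k := (⌊s j⌋₊ : ℝ)) (e := e ⌊s j⌋₊) hx (hz j) hzx (hθ0 j) (hθ1 j) ?_
      (hl _) (hl _) (he0 _ hk) (he _ hk) ?_ ?_ (hnode _ hk.le) n1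
    · have : (⌊s j⌋₊ : ℝ) + (s j - ⌊s j⌋₊) = s j := by ring
      rw [this, hs]
      simp only
      field_simp
    · exact (mul_le_mul_of_nonneg_right hsq (he0 _ hk)).trans (hη0 _ hk)
    · exact (mul_le_mul_of_nonneg_right hsq (he0 _ hk)).trans (hη1 _ hk)
  have htr := triple3 hmono hT (hθ0 0) (hθ1 0) (hθ0 1) (hθ1 1) (hθ0 2) (hθ1 2)
    (by linarith only [hsK] : (⌊s 0⌋₊ + (s 0 - ⌊s 0⌋₊)) + (⌊s 1⌋₊ + (s 1 - ⌊s 1⌋₊)) +
      (⌊s 2⌋₊ + (s 2 - ⌊s 2⌋₊)) ≤ (K : ℝ))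
  have hright : (((Rp : ℂ) - x) / x).re = Rp * x.re / r ^ 2 - 1 := by
    have hx2 : x.re ^ 2 + x.im ^ 2 = r ^ 2 := by rw [← norm_sq_re_im, hx]
    have hr2 : (r : ℝ) ^ 2 ≠ 0 := by positivity
    rw [Complex.div_re, ← add_div, Complex.normSq_eq_norm_sq, hx]
    simp only [Complex.sub_re, Complex.sub_im, Complex.ofReal_re, Complex.ofReal_im]
    have h3 : (Rp * x.re / r ^ 2 - 1) * r ^ 2 = Rp * x.re - r ^ 2 := by field_simp
    rw [div_eq_iff hr2, h3, ← hx2]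
    ring
  rw [hright, Fin.sum_univ_three]
  have p0 := hpt 0
  have p1 := hpt 1
  have p2 := hpt 2
  linarith only [htr, p0, p1, p2]

end Pool.Agent.Lib.MP_af3a4a_an.P1.H80
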