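import Pool.Agent.Lib.MP_af3a4a_an.P1.H80.Cont3A

/-!
# The contour method for `N = 3`, part B: the integer checker (council 2, helper80)

Units: `R, X, r, R'` in `1/400` (`X` shifted by `r`), multipliers and `F + 4` in `1/4096`.
-/

namespace Pool.Agent.Lib.MP_af3a4a_an.P1.H80.C3


/-- `κ` positive part -/
def kpos (K r R l m : ℕ) : ℕ := Nat.mul (Nat.mul K K) (Nat.add (Nat.mul l 320000) (Nat.mul m
    (Nat.mul (Nat.add R r) (Nat.add R r))))

/-- `κ` negative part -/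
def kneg (K r R X k l m η : ℕ) : ℕ :=
  Nat.add (Nat.add (Nat.mul (Nat.mul K K) (Nat.add (Nat.mul l (Nat.mul r r)) (Nat.mul (Nat.mul 2
    m) (Nat.mul R X)))) (Nat.mul (Nat.mul m (Nat.mul (Nat.sub 1600 R) (Nat.sub 1600 R))) (Nat.mul
      k k))) η

/-- `E` positive part -/
def epos (r p m : ℕ) : ℕ := Nat.add (Nat.mul (Nat.mul 3 (Nat.mul r r)) (Nat.add m 16384))
    (Nat.mul 4096 (Nat.mul r (Nat.add r p)))

/-- `E` negative part -/
def eneg (r p X l f : ℕ) : ℕ := Nat.add (Nat.mul (Nat.mul 3 (Nat.mul r r)) (Nat.add l f))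
    (Nat.mul 4096 (Nat.mul p X))

/-- `W` positive part -/
def wpos (r p R X l m : ℕ) : ℕ :=
  Nat.add (Nat.add (Nat.add (Nat.add (Nat.add (Nat.mul 16777216 (Nat.mul (Nat.add p r) (Nat.add p
    r))) (Nat.mul 4 (Nat.mul (Nat.mul l r) (Nat.mul l r)))) (Nat.mul 4 (Nat.mul (Nat.mul m
      (Nat.add R r)) (Nat.mul m (Nat.add R r))))) (Nat.mul (Nat.mul 8 (Nat.mul l m)) (Nat.mul R
        X))) (Nat.mul (Nat.mul 16384 l) (Nat.mul r (Nat.add p r)))) (Nat.mul (Nat.mul 16384 m)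
          (Nat.mul (Nat.add R p) X))

/-- `W` negative part -/
def wneg (r p R X l m : ℕ) : ℕ :=
  Nat.add (Nat.add (Nat.add (Nat.add (Nat.mul 33554432 (Nat.mul p X)) (Nat.mul (Nat.mul 8
    (Nat.mul m m)) (Nat.mul R X))) (Nat.mul (Nat.mul 8 (Nat.mul l m)) (Nat.mul r (Nat.add R r))))
      (Nat.mul (Nat.mul 16384 l) (Nat.mul p X))) (Nat.mul (Nat.mul 16384 m) (Nat.mul (Nat.add R
        r) (Nat.add p r)))

def vfin (K r p R dX dR m kp kn ep en wp wn : ℕ) : Bool :=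
  Nat.ble kn kp && (Nat.ble (Nat.add en 1) ep &&
    Nat.ble (Nat.mul (Nat.mul K K) (Nat.add (Nat.add (Nat.mul (Nat.mul 3 (Nat.mul r r)) wp)
      (Nat.mul (Nat.mul (Nat.mul 8192 m) (Nat.mul R p)) (Nat.mul dX dX))) (Nat.mul (Nat.mul m
        (Nat.sub ep en)) (Nat.mul dR dR))))
      (Nat.add (Nat.mul (Nat.mul 4 (Nat.sub kp kn)) (Nat.sub ep en)) (Nat.mul (Nat.mul K K)
        (Nat.mul (Nat.mul 3 (Nat.mul r r)) wn))))

/-- the vertex check -/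
def vchk (K r p R X dX dR k l m f η : ℕ) : Bool :=
  vfin K r p R dX dR m (kpos K r R l m) (kneg K r R X k l m η) (epos r p m) (eneg r p X l f)
    (wpos r p R X l m) (wneg r p R X l m)

theorem vchk_sound {K r p R X dX dR k l m f η : ℕ} (hK : 0 < K) (hr : 0 < r) (hR : R ≤ 1600)
    (h : vchk K r p R X dX dR k l m f η = true) :
    0 < e3 ((r : ℝ) / 400) ((p : ℝ) / 400) ((l : ℝ) / 4096) ((m : ℝ) / 4096)
        ((f : ℝ) / 4096 - 4) (((X : ℝ) - r) / 400) ∧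
      w3 ((r : ℝ) / 400) ((p : ℝ) / 400) ((l : ℝ) / 4096) ((m : ℝ) / 4096) ((R : ℝ) / 400)
          (((X : ℝ) - r) / 400) +
        2 / 3 * ((m : ℝ) / 4096) * ((R : ℝ) / 400) * ((p : ℝ) / 400) * ((dX : ℝ) / 400) ^ 2 /
          ((r : ℝ) / 400) ^ 2 +
        ((m : ℝ) / 4096) * e3 ((r : ℝ) / 400) ((p : ℝ) / 400) ((l : ℝ) / 4096) ((m : ℝ) / 4096)
          ((f : ℝ) / 4096 - 4) (((X : ℝ) - r) / 400) * ((dR : ℝ) / 400) ^ 2 ≤
      4 * kap3 ((r : ℝ) / 400) K k ((η : ℝ) / (4096 * 160000 * (K : ℝ) ^ 2)) ((l : ℝ) / 4096)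
          ((m : ℝ) / 4096) ((R : ℝ) / 400) (((X : ℝ) - r) / 400) *
        e3 ((r : ℝ) / 400) ((p : ℝ) / 400) ((l : ℝ) / 4096) ((m : ℝ) / 4096)
          ((f : ℝ) / 4096 - 4) (((X : ℝ) - r) / 400) := by
  unfold vchk vfin at h
  rw [Bool.and_eq_true, Bool.and_eq_true, Nat.ble_eq, Nat.ble_eq, Nat.ble_eq] at h
  obtain ⟨h1, h2, h3⟩ := h
  have hKR : (0 : ℝ) < K := by exact_mod_cast hK
  have hrR : (0 : ℝ) < r := by exact_mod_cast hr
  have c1 : ((kpos K r R l m - kneg K r R X k l m η : ℕ) : ℝ) =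
      (kpos K r R l m : ℝ) - (kneg K r R X k l m η : ℝ) := Nat.cast_sub h1
  have h2' : eneg r p X l f ≤ epos r p m := le_trans (Nat.le_succ _) h2
  have c2 : ((epos r p m - eneg r p X l f : ℕ) : ℝ) =
      (epos r p m : ℝ) - (eneg r p X l f : ℝ) := Nat.cast_sub h2'
  have h2R : (eneg r p X l f : ℝ) < (epos r p m : ℝ) := by exact_mod_cast h2
  -- the real values
  have ek : (kpos K r R l m : ℝ) - (kneg K r R X k l m η : ℝ) = 4096 * 160000 * (K : ℝ) ^ 2 *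
      kap3 ((r : ℝ) / 400) K k ((η : ℝ) / (4096 * 160000 * (K : ℝ) ^ 2)) ((l : ℝ) / 4096)
          ((m : ℝ) / 4096) ((R : ℝ) / 400) (((X : ℝ) - r) / 400) := by
    unfold kpos kneg kap3
    simp only [Nat.mul_eq, Nat.add_eq, Nat.sub_eq]
    push_cast [Nat.cast_sub hR]
    field_simp
    ring
  have ee : (epos r p m : ℝ) - (eneg r p X l f : ℝ) = 3 * 4096 * (r : ℝ) ^ 2 *
      e3 ((r : ℝ) / 400) ((p : ℝ) / 400) ((l : ℝ) / 4096) ((m : ℝ) / 4096)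
          ((f : ℝ) / 4096 - 4) (((X : ℝ) - r) / 400) := by
    unfold epos eneg e3
    simp only [Nat.mul_eq, Nat.add_eq]
    push_cast
    field_simp
    ring
  have ew : (wpos r p R X l m : ℝ) - (wneg r p R X l m : ℝ) = 4096 ^ 2 * 160000 *
      w3 ((r : ℝ) / 400) ((p : ℝ) / 400) ((l : ℝ) / 4096) ((m : ℝ) / 4096) ((R : ℝ) / 400)
          (((X : ℝ) - r) / 400) := by
    unfold wpos wneg w3
    simp only [Nat.mul_eq, Nat.add_eq]
    push_cast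
    ring
  set κ := kap3 ((r : ℝ) / 400) K k ((η : ℝ) / (4096 * 160000 * (K : ℝ) ^ 2)) ((l : ℝ) / 4096)
          ((m : ℝ) / 4096) ((R : ℝ) / 400) (((X : ℝ) - r) / 400) with hκ
  set E := e3 ((r : ℝ) / 400) ((p : ℝ) / 400) ((l : ℝ) / 4096) ((m : ℝ) / 4096)
          ((f : ℝ) / 4096 - 4) (((X : ℝ) - r) / 400) with hE
  set W := w3 ((r : ℝ) / 400) ((p : ℝ) / 400) ((l : ℝ) / 4096) ((m : ℝ) / 4096) ((R : ℝ) / 400)
          (((X : ℝ) - r) / 400) with hW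
  constructor
  · have : 0 < 3 * 4096 * (r : ℝ) ^ 2 * E := by rw [← ee]; linarith
    exact (pos_iff_pos_of_mul_pos this).1 (by positivity)
  · have h4 : ((K * K * (3 * (r * r) * wpos r p R X l m + 8192 * m * (R * p) * (dX * dX) +
        m * (epos r p m - eneg r p X l f) * (dR * dR)) : ℕ) : ℝ) ≤
        ((4 * (kpos K r R l m - kneg K r R X k l m η) * (epos r p m - eneg r p X l f) +
          K * K * (3 * (r * r) * wneg r p R X l m) : ℕ) : ℝ) := by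
      exact_mod_cast h3
    push_cast [c1, c2] at h4
    rw [ek, ee] at h4
    have h5 : (wpos r p R X l m : ℝ) = 4096 ^ 2 * 160000 * W + (wneg r p R X l m : ℝ) := by
      linarith
    rw [h5] at h4
    have hpos : (0 : ℝ) < 3 * 4096 ^ 2 * 160000 * (K : ℝ) ^ 2 * (r : ℝ) ^ 2 := by positivity
    rw [← mul_le_mul_iff_right₀ hpos]
    have e5 : 2 / 3 * ((m : ℝ) / 4096) * ((R : ℝ) / 400) * ((p : ℝ) / 400) * ((dX : ℝ) / 400) ^ 2 /
          ((r : ℝ) / 400) ^ 2 = 2 / 3 * (m * R * p * dX ^ 2) / (4096 * 160000 * (r : ℝ) ^ 2) := by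
      field_simp
      ring
    rw [e5]
    have e6 : 3 * 4096 ^ 2 * 160000 * (K : ℝ) ^ 2 * (r : ℝ) ^ 2 *
        (W + 2 / 3 * (m * R * p * dX ^ 2) / (4096 * 160000 * (r : ℝ) ^ 2) +
          (m : ℝ) / 4096 * E * ((dR : ℝ) / 400) ^ 2) =
        (K : ℝ) ^ 2 * (3 * (r : ℝ) ^ 2 * (4096 ^ 2 * 160000 * W) + 8192 * m * (R * p) * dX ^ 2 +
          m * (3 * 4096 * (r : ℝ) ^ 2 * E) * dR ^ 2) := by
      field_simp
      ring
    rw [e6]
    nlinarith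

end Pool.Agent.Lib.MP_af3a4a_an.P1.H80.C3
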