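import Pool.Agent.Lib.MP_af3a4a_an.P1.H80.Cont3B

/-!
# The contour method for `N = 3`, part C: cells, chains, soundness (council 2, helper80)
-/

namespace Pool.Agent.Lib.MP_af3a4a_an.P1.H80.C3

open Pool.Agent.Lib.MP_af3a4a_an.SV (uu av sq EE)


/-- 16 bit field `i` -/
def fld (s i : ℕ) : ℕ := Nat.mod (Nat.shiftRight s (Nat.mul 16 i)) 65536
def Lf (s k : ℕ) : ℕ := fld s (Nat.mul 3 k)
def Mf (s k : ℕ) : ℕ := fld s (Nat.add (Nat.mul 3 k) 1)
def Ff (s k : ℕ) : ℕ := fld s (Nat.add (Nat.mul 3 k) 2)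

/-- interpolation defect of the interval `k, k+1` from the two multipliers -/
def eI (k a b : ℕ) : ℕ := Nat.sub (Nat.mul (Nat.sub a b) (Nat.add (Nat.mul 2 k) 1)) b

def mx (a b : ℕ) : ℕ := cond (Nat.ble a b) b a

/-- `η_k` -/
def etaI (T2 a b : ℕ) : ℕ := Nat.div (Nat.add (Nat.mul T2 (mx a b)) 3) 4

/-- check of node `k` -/
def node4 (K r p R0 R1 X0 X1 k l m f η : ℕ) : Bool :=
  (vchk K r p R0 X0 (Nat.sub X1 X0) (Nat.sub R1 R0) k l m f η &&
    vchk K r p R0 X1 (Nat.sub X1 X0) (Nat.sub R1 R0) k l m f η) &&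
  (vchk K r p R1 X0 (Nat.sub X1 X0) (Nat.sub R1 R0) k l m f η &&
    vchk K r p R1 X1 (Nat.sub X1 X0) (Nat.sub R1 R0) k l m f η)

/-- the nodes `K - n, ..., K`; `t` the remaining stream, `e` the last defect -/
def nodes (K r p R0 R1 X0 X1 T2 : ℕ) : ℕ → ℕ → ℕ → Bool
  | 0, t, e => node4 K r p R0 R1 X0 X1 K (Lf t 0) (Mf t 0) (Ff t 0) (etaI T2 e 0)
  | n + 1, t, e =>
    node4 K r p R0 R1 X0 X1 (Nat.sub K (Nat.add n 1)) (Lf t 0) (Mf t 0) (Ff t 0)
      (etaI T2 e (eI (Nat.sub K (Nat.add n 1)) (Mf t 0) (Mf t 1))) &&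
    nodes K r p R0 R1 X0 X1 T2 n (Nat.shiftRight t 48) (eI (Nat.sub K (Nat.add n 1)) (Mf t 0) (Mf t 1))

/-- monotonicity -/
def monoC (s : ℕ) : ℕ → Bool
  | 0 => true
  | n + 1 => Nat.ble (Ff s (Nat.add n 1)) (Ff s n) && monoC s n

def tripB (s K a : ℕ) : ℕ → Bool
  | 0 => Nat.ble 49153 (Nat.add (Nat.add (Ff s a) (Ff s 0)) (Ff s (Nat.sub K a)))
  | b + 1 => Nat.ble 49153 (Nat.add (Nat.add (Ff s a) (Ff s (Nat.add b 1)))
      (Ff s (Nat.sub (Nat.sub K a) (Nat.add b 1)))) && tripB s K a b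

def tripA (s K : ℕ) : ℕ → Bool
  | 0 => tripB s K 0 (Nat.div K 2)
  | a + 1 => tripB s K (Nat.add a 1) (Nat.div (Nat.sub K (Nat.add a 1)) 2) && tripA s K a

/-- a cell `R0 ≤ R ≤ R1`, `X0 ≤ X ≤ X1` -/
def cellC (K r p R0 R1 X0 X1 T2 s : ℕ) : Bool :=
  Nat.ble X0 X1 && (monoC s K && (tripA s K (Nat.div K 3) && nodes K r p R0 R1 X0 X1 T2 K s 0))

def xchain (K r p R0 R1 T2 : ℕ) : ℕ → List (ℕ × ℕ) → Bool
  | X1, [] => Nat.beq X1 0
  | X1, (X0, s) :: t => cellC K r p R0 R1 X0 X1 T2 s && xchain K r p R0 R1 T2 X0 t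

/-- all `R` in `[R0, R1]/400` -/
def rchk (K r p R0 R1 : ℕ) (L : List (ℕ × ℕ)) : Bool :=
  Nat.ble 1 K && (Nat.ble 1 r && (Nat.ble r 399 && (Nat.ble (Nat.add r 1) p && (Nat.ble R0 R1 &&
    (Nat.ble R1 1600 &&
      xchain K r p R0 R1 (Nat.mul (Nat.sub 1600 R0) (Nat.sub 1600 R0)) (Nat.mul 2 r) L)))))

/-! ### Soundness -/

theorem fld_shift (s i j : ℕ) : fld (Nat.shiftRight s (16 * j)) i = fld s (i + j) := by
  unfold fld
  simp only [Nat.mul_eq, Nat.shiftRight_eq]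
  congr 1
  rw [← Nat.shiftRight_add]
  congr 1
  ring

theorem mx_eq (a b : ℕ) : mx a b = max a b := by
  unfold mx
  rcases h : Nat.ble a b with _ | _
  · have : ¬ a ≤ b := by
      intro h1
      rw [Nat.ble_eq_true_of_le h1] at h
      exact absurd h (by decide)
    simp only [cond_false]
    exact (max_eq_left (by omega)).symm
  · simp only [cond_true]
    exact (max_eq_right (Nat.le_of_ble_eq_true h)).symm

theorem etaI_ge (T2 a b : ℕ) : T2 * a ≤ 4 * etaI T2 a b ∧ T2 * b ≤ 4 * etaI T2 a b := by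
  have hd : ∀ x : ℕ, Nat.div x 4 = x / 4 := fun _ => rfl
  unfold etaI
  rw [mx_eq, hd]
  simp only [Nat.mul_eq, Nat.add_eq]
  have h1 : T2 * a ≤ T2 * max a b := Nat.mul_le_mul_left _ (le_max_left _ _)
  have h2 : T2 * b ≤ T2 * max a b := Nat.mul_le_mul_left _ (le_max_right _ _)
  omega

theorem eI_ge (k a b : ℕ) : ((a : ℝ) / 4096 - (b : ℝ) / 4096) * (2 * k + 1) -
    min ((a : ℝ) / 4096) ((b : ℝ) / 4096) ≤ 4 * ((eI k a b : ℝ) / 16384) := by
  have ha : (0 : ℝ) ≤ a := Nat.cast_nonneg a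
  have hb : (0 : ℝ) ≤ b := Nat.cast_nonneg b
  have hk : (0 : ℝ) ≤ k := Nat.cast_nonneg k
  have he : (0 : ℝ) ≤ eI k a b := Nat.cast_nonneg _
  rcases le_total a b with h | h
  · have h' : (a : ℝ) ≤ b := by exact_mod_cast h
    have h1 : ((a : ℝ) / 4096 - (b : ℝ) / 4096) * (2 * k + 1) ≤ 0 := by
      apply mul_nonpos_of_nonpos_of_nonneg <;> linarith
    have h2 : 0 ≤ min ((a : ℝ) / 4096) ((b : ℝ) / 4096) := le_min (by positivity) (by positivity)
    linarith
  · have h' : (b : ℝ) ≤ a := by exact_mod_cast h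
    have h1 : min ((a : ℝ) / 4096) ((b : ℝ) / 4096) = (b : ℝ) / 4096 :=
      min_eq_right (by linarith)
    rw [h1]
    have h2 : (a - b) * (2 * k + 1) ≤ eI k a b + b := by
      unfold eI
      simp only [Nat.mul_eq, Nat.add_eq, Nat.sub_eq]
      omega
    have h3 : ((a : ℝ) - b) * (2 * k + 1) ≤ eI k a b + b := by
      have : (((a - b) * (2 * k + 1) : ℕ) : ℝ) ≤ ((eI k a b + b : ℕ) : ℝ) := by exact_mod_cast h2
      push_cast [Nat.cast_sub h] at this
      exact this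
    linarith

/-- the node loop -/
theorem nodes_sound {K r p R0 R1 X0 X1 T2 s : ℕ} : ∀ (n : ℕ), n ≤ K → ∀ (e : ℕ),
    nodes K r p R0 R1 X0 X1 T2 n (Nat.shiftRight s (48 * (K - n))) e = true →
    ∃ η : ℕ → ℕ, (∀ k, K - n ≤ k → k ≤ K →
      node4 K r p R0 R1 X0 X1 k (Lf s k) (Mf s k) (Ff s k) (η k) = true) ∧
      (∀ k, K - n ≤ k → k < K → T2 * eI k (Mf s k) (Mf s (k + 1)) ≤ 4 * η k ∧
        T2 * eI k (Mf s k) (Mf s (k + 1)) ≤ 4 * η (k + 1)) ∧ T2 * e ≤ 4 * η (K - n) := by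
  have hL : ∀ j, Lf (Nat.shiftRight s (48 * j)) 0 = Lf s j := by
    intro j
    unfold Lf
    rw [show 48 * j = 16 * (3 * j) by ring, fld_shift]
    simp only [Nat.mul_eq]
    congr 1
    ring
  have hM : ∀ j i, Mf (Nat.shiftRight s (48 * j)) i = Mf s (i + j) := by
    intro j i
    unfold Mf
    rw [show 48 * j = 16 * (3 * j) by ring, fld_shift]
    simp only [Nat.mul_eq, Nat.add_eq]
    congr 1
    ring
  have hF : ∀ j, Ff (Nat.shiftRight s (48 * j)) 0 = Ff s j := by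
    intro j
    unfold Ff
    rw [show 48 * j = 16 * (3 * j) by ring, fld_shift]
    simp only [Nat.mul_eq, Nat.add_eq]
    congr 1
    ring
  intro n
  induction n with
  | zero =>
    intro _ e h
    unfold nodes at h
    rw [hL, hM, hF] at h
    simp only [Nat.sub_zero, Nat.zero_add] at h ⊢
    refine ⟨fun _ => etaI T2 e 0, ?_, ?_, (etaI_ge T2 e 0).1⟩
    · intro k h1 h2
      have : k = K := le_antisymm h2 h1
      rw [this]
      exact h
    · intro k h1 h2
      omega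
  | succ n ih =>
    intro hn e h
    unfold nodes at h
    rw [Bool.and_eq_true] at h
    obtain ⟨h1, h2⟩ := h
    have hs : Nat.shiftRight (Nat.shiftRight s (48 * (K - (n + 1)))) 48 =
        Nat.shiftRight s (48 * (K - n)) := by
      simp only [Nat.shiftRight_eq]
      rw [← Nat.shiftRight_add]
      congr 1
      omega
    rw [hs] at h2
    simp only [hM, Nat.sub_eq, Nat.add_eq] at h1 h2
    rw [hL, hF] at h1
    have e1 : 1 + (K - (n + 1)) = K - n := by omega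
    rw [e1, Nat.zero_add] at h1 h2
    obtain ⟨η, a1, a2, a3⟩ := ih (by omega) _ h2
    refine ⟨fun k => if k = K - (n + 1) then
      etaI T2 e (eI (K - (n + 1)) (Mf s (K - (n + 1))) (Mf s (K - n))) else η k, ?_, ?_, ?_⟩
    · intro k hk1 hk2
      rcases eq_or_ne k (K - (n + 1)) with hk | hk
      · simp only [hk, if_true]
        exact h1
      · simp only [hk, if_false]
        exact a1 k (by omega) hk2
    · intro k hk1 hk2
      rcases eq_or_ne k (K - (n + 1)) with hk | hk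
      · have hk' : k + 1 ≠ K - (n + 1) := by omega
        have e2 : K - (n + 1) + 1 = K - n := by omega
        simp only [hk, if_true]
        rw [if_neg (by omega), e2]
        exact ⟨(etaI_ge _ _ _).2, a3⟩
      · have hk' : k + 1 ≠ K - (n + 1) := by omega
        simp only [hk, hk', if_false]
        exact a2 k (by omega) hk2
    · simp only [if_true]
      exact (etaI_ge _ _ _).1

theorem monoC_sound {s : ℕ} : ∀ {n : ℕ}, monoC s n = true → ∀ k < n, Ff s (k + 1) ≤ Ff s k := by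
  intro n
  induction n with
  | zero => intro _ k hk; omega
  | succ n ih =>
    intro h k hk
    unfold monoC at h
    rw [Bool.and_eq_true, Nat.ble_eq] at h
    rcases Nat.lt_succ_iff_lt_or_eq.1 hk with h1 | h1
    · exact ih h.2 k h1
    · rw [h1]
      exact h.1

theorem tripB_sound {s K a : ℕ} : ∀ {n : ℕ}, tripB s K a n = true → ∀ b ≤ n,
    49153 ≤ Ff s a + Ff s b + Ff s (K - a - b) := by
  intro n
  induction n with
  | zero =>
    intro h b hb
    unfold tripB at h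
    rw [Nat.ble_eq] at h
    have : b = 0 := by omega
    rw [this]
    exact h
  | succ n ih =>
    intro h b hb
    unfold tripB at h
    rw [Bool.and_eq_true, Nat.ble_eq] at h
    rcases Nat.lt_or_ge b (n + 1) with h1 | h1
    · exact ih h.2 b (by omega)
    · have : b = n + 1 := by omega
      rw [this]
      exact h.1

theorem tripA_sound {s K : ℕ} : ∀ {n : ℕ}, tripA s K n = true → ∀ a ≤ n, ∀ b ≤ (K - a) / 2,
    49153 ≤ Ff s a + Ff s b + Ff s (K - a - b) := by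
  intro n
  induction n with
  | zero =>
    intro h a ha
    unfold tripA at h
    have : a = 0 := by omega
    rw [this]
    exact tripB_sound h
  | succ n ih =>
    intro h a ha
    unfold tripA at h
    rw [Bool.and_eq_true] at h
    rcases Nat.lt_or_ge a (n + 1) with h1 | h1
    · exact ih h.2 a (by omega)
    · have : a = n + 1 := by omega
      rw [this]
      exact tripB_sound h.1

theorem trip_sound {s K : ℕ} (h : tripA s K (K / 3) = true) {a b c : ℕ} (habc : a + b + c = K) :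
    49153 ≤ Ff s a + Ff s b + Ff s c := by
  have key : ∀ a b c, a ≤ b → b ≤ c → a + b + c = K → 49153 ≤ Ff s a + Ff s b + Ff s c := by
    intro a b c h1 h2 h3
    have := tripA_sound h a (by omega) b (by omega)
    have e : K - a - b = c := by omega
    rwa [e] at this
  rcases le_total a b with h1 | h1 <;> rcases le_total b c with h2 | h2 <;>
    rcases le_total a c with h3 | h3
  · exact key a b c h1 h2 habc
  · exact key a b c h1 h2 habc
  · have := key a c b h3 h2 (by omega)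
    omega
  · have := key c a b h3 h1 (by omega)
    omega
  · have := key b a c h1 h3 (by omega)
    omega
  · have := key b c a h2 h3 (by omega)
    omega
  · have := key c b a h2 h1 (by omega)
    omega
  · have := key c b a h2 h1 (by omega)
    omega

theorem cellC_sound {K r p R0 R1 X0 X1 s : ℕ} (hK : 0 < K) (hr : 0 < r) (hr1 : r ≤ 400)
    (hR1 : R1 ≤ 1600) (hR01 : R0 ≤ R1)
    (h : cellC K r p R0 R1 X0 X1 ((1600 - R0) * (1600 - R0)) s = true)
    {R : ℝ} (hR : R ∈ Set.Icc ((R0 : ℝ) / 400) ((R1 : ℝ) / 400)) {x : ℂ} (hx : ‖x‖ = (r : ℝ) / 400)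
    (hX : x.re ∈ Set.Icc (((X0 : ℝ) - r) / 400) (((X1 : ℝ) - r) / 400))
    {z : Fin 3 → ℂ} (hz : ∀ j, 2 ≤ ‖z j‖ ^ 2) (hsum : R + ∑ j, ‖z j - (R : ℂ)‖ < 4) :
    (((((p : ℝ) / 400 : ℝ) : ℂ) - x) / x).re <
      ∑ j, (((((p : ℝ) / 400 : ℝ) : ℂ) - x) / (z j - x)).re := by
  unfold cellC at h
  rw [Bool.and_eq_true, Bool.and_eq_true, Bool.and_eq_true, Nat.ble_eq] at h
  obtain ⟨hX01, h2, h3, h4⟩ := h
  have hm := monoC_sound h2
  have ht : ∀ a b c, a + b + c = K → 49153 ≤ Ff s a + Ff s b + Ff s c :=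
    fun a b c habc => trip_sound h3 habc
  have h4' : nodes K r p R0 R1 X0 X1 ((1600 - R0) * (1600 - R0)) K
      (Nat.shiftRight s (48 * (K - K))) 0 = true := by
    have e : Nat.shiftRight s (48 * (K - K)) = s := by simp
    rw [e]
    exact h4
  obtain ⟨η, a1, a2, -⟩ := nodes_sound K le_rfl 0 h4'
  have hKR : (0 : ℝ) < K := by exact_mod_cast hK
  have hrR : (0 : ℝ) < r := by exact_mod_cast hr
  have hdX : (((X1 - X0 : ℕ) : ℝ)) / 400 = (((X1 : ℝ) - r) / 400) - (((X0 : ℝ) - r) / 400) := by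
    rw [Nat.cast_sub hX01]
    ring
  have hdR : (((R1 - R0 : ℕ) : ℝ)) / 400 = ((R1 : ℝ) / 400) - ((R0 : ℝ) / 400) := by
    rw [Nat.cast_sub hR01]
    ring
  have hR0' : R0 ≤ 1600 := hR01.trans hR1
  have hT : ∀ e ηk : ℕ, (1600 - R0) * (1600 - R0) * e ≤ 4 * ηk →
      ((4 - (R0 : ℝ) / 400) / K) ^ 2 * ((e : ℝ) / 16384) ≤
        (ηk : ℝ) / (4096 * 160000 * (K : ℝ) ^ 2) := by
    intro e ηk he
    have h5 : ((1600 : ℝ) - R0) * (1600 - R0) * e ≤ 4 * ηk := by
      have : (((1600 - R0) * (1600 - R0) * e : ℕ) : ℝ) ≤ ((4 * ηk : ℕ) : ℝ) := by exact_mod_cast he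
      push_cast [Nat.cast_sub hR0'] at this
      exact this
    rw [le_div_iff₀ (by positivity)]
    have h6 : ((4 - (R0 : ℝ) / 400) / K) ^ 2 * ((e : ℝ) / 16384) * (4096 * 160000 * (K : ℝ) ^ 2) =
        ((1600 : ℝ) - R0) * (1600 - R0) * e / 4 := by
      field_simp
      ring
    rw [h6]
    linarith
  refine cell3 (K := K) (r := (r : ℝ) / 400) (Rp := (p : ℝ) / 400) (R0 := (R0 : ℝ) / 400)
    (R1 := (R1 : ℝ) / 400) (X0 := ((X0 : ℝ) - r) / 400) (X1 := ((X1 : ℝ) - r) / 400)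
    (l := fun k => (Lf s k : ℝ) / 4096) (m := fun k => (Mf s k : ℝ) / 4096)
    (F := fun k => (Ff s k : ℝ) / 4096 - 4) (η := fun k => (η k : ℝ) / (4096 * 160000 * (K : ℝ) ^ 2))
    (e := fun k => (eI k (Mf s k) (Mf s (k + 1)) : ℝ) / 16384)
    hK (by positivity) ?_ (by positivity) (by positivity) (fun k => by positivity)
    (fun k => by positivity) ?_ (fun k _ => by positivity) ?_ ?_ ?_ ?_ ?_ hR hx hX hz hsum
  · rw [div_le_one (by norm_num)]
    exact_mod_cast hr1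
  · intro k hk Rv Xv hRv hXv
    have h5 := a1 k (by omega) hk
    unfold node4 at h5
    rw [Bool.and_eq_true, Bool.and_eq_true, Bool.and_eq_true] at h5
    simp only [Nat.sub_eq] at h5
    obtain ⟨⟨v00, v01⟩, v10, v11⟩ := h5
    rw [← hdX, ← hdR]
    rcases hRv with rfl | rfl <;> rcases hXv with rfl | rfl
    · exact vchk_sound hK hr hR0' v00
    · exact vchk_sound hK hr hR0' v01
    · exact vchk_sound hK hr hR1 v10
    · exact vchk_sound hK hr hR1 v11
  · intro k _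
    exact eI_ge k _ _
  · intro k hk
    exact hT _ _ (a2 k (by omega) hk).1
  · intro k hk
    exact hT _ _ (a2 k (by omega) hk).2
  · intro k hk
    have : (Ff s (k + 1) : ℝ) ≤ Ff s k := by exact_mod_cast hm k hk
    linarith
  · intro i j hij
    have h5 := ht i j (K - i - j) (by omega)
    have h6 : ((49153 : ℕ) : ℝ) ≤ ((Ff s i + Ff s j + Ff s (K - i - j) : ℕ) : ℝ) := by
      exact_mod_cast h5
    push_cast at h6
    linarith

theorem xchain_sound {K r p R0 R1 : ℕ} (hK : 0 < K) (hr : 0 < r) (hr1 : r ≤ 400)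
    (hR1 : R1 ≤ 1600) (hR01 : R0 ≤ R1) {R : ℝ} (hR : R ∈ Set.Icc ((R0 : ℝ) / 400) ((R1 : ℝ) / 400))
    {z : Fin 3 → ℂ} (hz : ∀ j, 2 ≤ ‖z j‖ ^ 2) (hsum : R + ∑ j, ‖z j - (R : ℂ)‖ < 4)
    {x : ℂ} (hx : ‖x‖ = (r : ℝ) / 400) : ∀ (L : List (ℕ × ℕ)) (X1 : ℕ),
      xchain K r p R0 R1 ((1600 - R0) * (1600 - R0)) X1 L = true →
      x.re ≤ ((X1 : ℝ) - r) / 400 → (X1 = 0 ∨ (((((p : ℝ) / 400 : ℝ) : ℂ) - x) / x).re <
      ∑ j, (((((p : ℝ) / 400 : ℝ) : ℂ) - x) / (z j - x)).re) := by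
  intro L
  induction L with
  | nil =>
    intro X1 h _
    unfold xchain at h
    left
    exact Nat.eq_of_beq_eq_true h
  | cons a L ih =>
    intro X1 h hX1
    obtain ⟨X0, s⟩ := a
    unfold xchain at h
    rw [Bool.and_eq_true] at h
    right
    rcases le_total (((X0 : ℝ) - r) / 400) x.re with h1 | h1
    · exact cellC_sound hK hr hr1 hR1 hR01 h.1 hR hx ⟨h1, hX1⟩ hz hsum
    · rcases ih X0 h.2 h1 with h2 | h2
      · have h3 : ((X0 : ℝ) - r) / 400 ≤ x.re := by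
          have h4 := Complex.abs_re_le_norm x
          rw [hx] at h4
          have h5 := neg_le_of_abs_le h4
          rw [h2]
          push_cast
          linarith
        exact cellC_sound hK hr hr1 hR1 hR01 h.1 hR hx ⟨h3, hX1⟩ hz hsum
      · exact h2

/-- **an interval of `R` without counterexamples, `N = 3`** -/
theorem rchk_sound {K r p R0 R1 : ℕ} {L : List (ℕ × ℕ)} (h : rchk K r p R0 R1 L = true)
    {z w : Fin 3 → ℂ} {R : ℝ} {σ : Fin 3 → ℂ} (hC : Cfg2 3 z w R σ)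
    (hR0 : (R0 : ℝ) / 400 ≤ R) (hR1 : R ≤ (R1 : ℝ) / 400) : False := by
  unfold rchk at h
  simp only [Bool.and_eq_true, Nat.ble_eq, Nat.sub_eq, Nat.mul_eq, Nat.add_eq] at h
  obtain ⟨hK, hr, hr1, hp, h01, h1600, hch⟩ := h
  have hz : ∀ j, 2 ≤ ‖z j‖ ^ 2 := hC.cfg.zmin3
  have hmass := hC.mass'
  have hsum : R + ∑ j, ‖z j - (R : ℂ)‖ < 4 := by
    have e : ((3 : ℕ) : ℝ) + 1 = 4 := by norm_num
    rwa [e] at hmass
  have hrR : (0 : ℝ) < r := by exact_mod_cast hr
  have hr1R : (r : ℝ) ≤ 399 := by exact_mod_cast hr1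
  have hpR : (r : ℝ) + 1 ≤ p := by exact_mod_cast hp
  obtain ⟨x, hx, hle⟩ := hC.cfg.contour (r := (r : ℝ) / 400) (R' := (p : ℝ) / 400)
    (by positivity) (by linarith) (by linarith) (by
      intro j
      have h1 := hz j
      by_contra h2
      push Not at h2
      have h3 : ‖z j‖ ≤ 1 := by linarith
      have h4 : ‖z j‖ ^ 2 ≤ 1 := pow_le_one₀ (norm_nonneg _) h3
      linarith)
  have hx1 : x.re ≤ ((2 * r : ℕ) - (r : ℝ)) / 400 := by
    have h4 := (le_abs_self x.re).trans (Complex.abs_re_le_norm x)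
    rw [hx] at h4
    push_cast
    linarith
  rcases xchain_sound hK hr (by omega) h1600 h01 ⟨hR0, hR1⟩ hz hsum hx L (2 * r) hch hx1 with h2 | h2
  · omega
  · exact absurd hle (not_le.2 h2)

end Pool.Agent.Lib.MP_af3a4a_an.P1.H80.C3
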