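import Pool.Agent.Lib.MP_af3a4a_an.P1.H80.Schur

/-!
# The formula (U) of helper77 for `∫_0^y ∏ (1 - x u_k) dx`, council 2, helper80

`Q(x) = ∏ (1 - x u_k)`, `|u_k| ≤ 1`, `m = av u`, `λ(x) = av (u/(1 - x u))`, `Q' = -N λ Q`.
For `H' = N λ_p H - 1`:
`∫_0^y Q = H(0) - H(y) Q(y) - N ∫_0^y (λ - λ_p) H Q`.
-/

namespace Pool.Agent.Lib.MP_af3a4a_an.P1.H80

open Finset MeasureTheory intervalIntegral ComplexConjugate
open Pool.Agent.Lib.MP_af3a4a_an.SV (uu av sq EE)

section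

variable {N : ℕ} {u : Fin N → ℂ}

/-- the product -/
noncomputable def qq (u : Fin N → ℂ) (x : ℝ) : ℂ := ∏ k, (1 - (x : ℂ) * u k)

/-- the mean resolvent -/
noncomputable def lam (u : Fin N → ℂ) (x : ℝ) : ℂ := av fun k => u k / (1 - (x : ℂ) * u k)

theorem qq_cont (u : Fin N → ℂ) : Continuous (qq u) := by
  unfold qq
  fun_prop

theorem one_sub_ne' {u : ℂ} (hu : ‖u‖ ≤ 1) {x : ℝ} (h0 : 0 ≤ x) (h1 : x < 1) :
    1 - (x : ℂ) * u ≠ 0 := by
  intro h
  have := one_sub_ne hu h0 h1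
  rw [h] at this
  simp at this

@[simp] theorem qq_zero (u : Fin N → ℂ) : qq u 0 = 1 := by simp [qq]

theorem qq_hasDerivAt (hN : 1 ≤ N) (hu : ∀ k, ‖u k‖ ≤ 1) {x : ℝ} (h0 : 0 ≤ x) (h1 : x < 1) :
    HasDerivAt (qq u) (-(N * lam u x * qq u x)) x := by
  have hd : ∀ k ∈ (Finset.univ : Finset (Fin N)),
      HasDerivAt (fun x : ℝ => 1 - (x : ℂ) * u k) (-u k) x := by
    intro k _
    simpa using ((Complex.ofRealCLM.hasDerivAt (x := x)).mul_const (u k)).const_sub 1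
  have h := HasDerivAt.fun_finsetProd hd
  have hq : qq u = fun x : ℝ => ∏ k, (1 - (x : ℂ) * u k) := rfl
  rw [hq]
  refine h.congr_deriv ?_
  have hN0 : (N : ℂ) ≠ 0 := by exact_mod_cast (by omega : N ≠ 0)
  have e1 : (N : ℂ) * lam u x = ∑ k, u k / (1 - (x : ℂ) * u k) := by
    unfold lam
    rw [← sum_av hN]
  rw [e1, Finset.sum_mul, ← Finset.sum_neg_distrib]
  refine Finset.sum_congr rfl fun k hk => ?_
  have hne := one_sub_ne' (hu k) h0 h1
  have e := Finset.mul_prod_erase Finset.univ (fun k => 1 - (x : ℂ) * u k) hk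
  show (∏ j ∈ Finset.univ.erase k, (1 - (x : ℂ) * u j)) • -u k =
    -(u k / (1 - (x : ℂ) * u k) * ∏ k, (1 - (x : ℂ) * u k))
  rw [smul_eq_mul, ← e]
  field_simp

theorem lam_contOn (hu : ∀ k, ‖u k‖ ≤ 1) {y : ℝ} (hy : y < 1) :
    ContinuousOn (lam u) (Set.Icc 0 y) := by
  unfold lam av
  apply ContinuousOn.mul continuousOn_const
  apply continuousOn_finsetSum
  intro k _
  apply ContinuousOn.div continuousOn_const (by fun_prop)
  intro x hx
  exact one_sub_ne' (hu k) hx.1 (lt_of_le_of_lt hx.2 hy)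

/-- **Formula (U)** -/
theorem formula (hN : 1 ≤ N) (hu : ∀ k, ‖u k‖ ≤ 1) {y : ℝ} (h0 : 0 ≤ y) (h1 : y < 1)
    {H lp : ℝ → ℂ} (hlp : ContinuousOn lp (Set.Icc 0 y))
    (hH : ∀ x ∈ Set.Icc 0 y, HasDerivAt H (N * lp x * H x - 1) x) :
    ∫ x in (0 : ℝ)..y, qq u x = H 0 - H y * qq u y
      - N * ∫ x in (0 : ℝ)..y, (lam u x - lp x) * H x * qq u x := by
  have hHc : ContinuousOn H (Set.Icc 0 y) := fun x hx => (hH x hx).continuousAt.continuousWithinAt
  have hI : ContinuousOn (fun x => (lam u x - lp x) * H x * qq u x) (Set.Icc 0 y) :=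
    (((lam_contOn hu h1).sub hlp).mul hHc).mul (qq_cont u).continuousOn
  have hd : ∀ x ∈ Set.uIcc 0 y, HasDerivAt (fun x => H x * qq u x)
      (-(qq u x) - N * ((lam u x - lp x) * H x * qq u x)) x := by
    intro x hx
    rw [Set.uIcc_of_le h0] at hx
    refine ((hH x hx).mul (qq_hasDerivAt hN hu hx.1 (lt_of_le_of_lt hx.2 h1))).congr_deriv ?_
    ring
  have hi1 : IntervalIntegrable (fun x => -(qq u x)) volume 0 y :=
    (qq_cont u).neg.intervalIntegrable 0 y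
  have hi2 : IntervalIntegrable (fun x => (N : ℂ) * ((lam u x - lp x) * H x * qq u x)) volume 0 y := by
    apply ContinuousOn.intervalIntegrable
    rw [Set.uIcc_of_le h0]
    exact continuousOn_const.mul hI
  have h := intervalIntegral.integral_eq_sub_of_hasDerivAt hd (hi1.sub hi2)
  rw [intervalIntegral.integral_sub hi1 hi2, intervalIntegral.integral_neg,
    intervalIntegral.integral_const_mul, qq_zero, mul_one] at h
  linear_combination -h

/-- Formula (U) with the disc lemma: the pivot is `m/(1 - x m)`. -/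
theorem formula_norm (hN : 1 ≤ N) (hu : ∀ k, ‖u k‖ ≤ 1) {y : ℝ} (h0 : 0 ≤ y) (h1 : y < 1)
    {H : ℝ → ℂ}
    (hH : ∀ x ∈ Set.Icc 0 y, HasDerivAt H (N * (av u / (1 - (x : ℂ) * av u)) * H x - 1) x) :
    ‖H 0‖ - ‖H y‖ * ‖qq u y‖ - N * (1 - ‖av u‖ ^ 2) *
      ∫ x in (0 : ℝ)..y, x / (‖1 - (x : ℂ) * av u‖ * dn (av u) x) * ‖H x‖ * ‖qq u x‖ ≤
    ‖∫ x in (0 : ℝ)..y, qq u x‖ := by
  have hm := av_norm_le hN hu
  set m := av u with hmdef
  have hlp : ContinuousOn (fun x : ℝ => m / (1 - (x : ℂ) * m)) (Set.Icc 0 y) := by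
    apply ContinuousOn.div continuousOn_const (by fun_prop)
    intro x hx
    exact one_sub_ne' hm hx.1 (lt_of_le_of_lt hx.2 h1)
  have hHc : ContinuousOn H (Set.Icc 0 y) := fun x hx => (hH x hx).continuousAt.continuousWithinAt
  have h := formula hN hu h0 h1 hlp hH
  have hdnc : Continuous fun x : ℝ => ‖1 - (x : ℂ) * m‖ * dn m x := by
    unfold dn
    fun_prop
  have hc1 : ContinuousOn (fun x : ℝ => x / (‖1 - (x : ℂ) * m‖ * dn m x)) (Set.Icc 0 y) := by
    apply ContinuousOn.div continuousOn_id hdnc.continuousOn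
    intro x hx
    have hx1 : x < 1 := lt_of_le_of_lt hx.2 h1
    exact (mul_pos (nrm_pos hm hx.1 hx1) (dn_pos hm hx.1 hx1)).ne'
  have hc2 : ContinuousOn (fun x : ℝ => x / (‖1 - (x : ℂ) * m‖ * dn m x) * ‖H x‖ * ‖qq u x‖)
      (Set.Icc 0 y) :=
    (hc1.mul hHc.norm).mul (qq_cont u).norm.continuousOn
  have hI : ContinuousOn (fun x => (lam u x - m / (1 - (x : ℂ) * m)) * H x * qq u x)
      (Set.Icc 0 y) :=
    (((lam_contOn hu h1).sub hlp).mul hHc).mul (qq_cont u).continuousOn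
  have hb : ‖∫ x in (0 : ℝ)..y, (lam u x - m / (1 - (x : ℂ) * m)) * H x * qq u x‖ ≤
      (1 - ‖m‖ ^ 2) * ∫ x in (0 : ℝ)..y,
        x / (‖1 - (x : ℂ) * m‖ * dn m x) * ‖H x‖ * ‖qq u x‖ := by
    rw [← intervalIntegral.integral_const_mul]
    refine (intervalIntegral.norm_integral_le_integral_norm h0).trans ?_
    apply intervalIntegral.integral_mono_on h0
    · apply ContinuousOn.intervalIntegrable
      rw [Set.uIcc_of_le h0]
      exact hI.norm
    · apply ContinuousOn.intervalIntegrable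
      rw [Set.uIcc_of_le h0]
      exact continuousOn_const.mul hc2
    · intro x hx
      have hx1 : x < 1 := lt_of_le_of_lt hx.2 h1
      have hs := schur_disc hN hu hx.1 hx1
      rw [norm_mul, norm_mul]
      calc ‖lam u x - m / (1 - (x : ℂ) * m)‖ * ‖H x‖ * ‖qq u x‖
          ≤ x * (1 - ‖m‖ ^ 2) / (‖1 - (x : ℂ) * m‖ * dn m x) * ‖H x‖ * ‖qq u x‖ := by
            gcongr
            exact hs
        _ = _ := by ring
  have h2 : ‖H 0‖ ≤ ‖∫ x in (0 : ℝ)..y, qq u x‖ + ‖H y‖ * ‖qq u y‖ +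
      N * ‖∫ x in (0 : ℝ)..y, (lam u x - m / (1 - (x : ℂ) * m)) * H x * qq u x‖ := by
    have e : H 0 = (∫ x in (0 : ℝ)..y, qq u x) + H y * qq u y +
        N * ∫ x in (0 : ℝ)..y, (lam u x - m / (1 - (x : ℂ) * m)) * H x * qq u x := by
      linear_combination -h
    calc ‖H 0‖ = ‖(∫ x in (0 : ℝ)..y, qq u x) + H y * qq u y +
        N * ∫ x in (0 : ℝ)..y, (lam u x - m / (1 - (x : ℂ) * m)) * H x * qq u x‖ := by rw [← e]
      _ ≤ _ := by
        refine (norm_add_le _ _).trans ?_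
        refine add_le_add ((norm_add_le _ _).trans ?_) ?_
        · rw [norm_mul]
        · rw [norm_mul, Complex.norm_natCast]
  have h3 := mul_le_mul_of_nonneg_left hb (Nat.cast_nonneg (α := ℝ) N)
  linarith

/-- **(U0)** regular form -/
theorem formula_U0 (hN : 1 ≤ N) (hu : ∀ k, ‖u k‖ ≤ 1) {y : ℝ} (h0 : 0 ≤ y) (h1 : y < 1) :
    ‖∫ s in (0 : ℝ)..y, (1 - (s : ℂ) * av u) ^ N‖ - N * (1 - ‖av u‖ ^ 2) *
      ∫ x in (0 : ℝ)..y, x / (‖1 - (x : ℂ) * av u‖ * dn (av u) x) *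
        ‖∫ s in x..y, ((1 - (s : ℂ) * av u) / (1 - (x : ℂ) * av u)) ^ N‖ * ‖qq u x‖ ≤
    ‖∫ x in (0 : ℝ)..y, qq u x‖ := by
  have hm := av_norm_le hN hu
  set m := av u with hmdef
  have hcont : Continuous fun s : ℝ => (1 - (s : ℂ) * m) ^ N := by fun_prop
  have hH : ∀ x ∈ Set.Icc 0 y, HasDerivAt
      (fun x : ℝ => ((1 - (x : ℂ) * m) ^ N)⁻¹ * ∫ s in x..y, (1 - (s : ℂ) * m) ^ N)
      (N * (m / (1 - (x : ℂ) * m)) * (((1 - (x : ℂ) * m) ^ N)⁻¹ *
        ∫ s in x..y, (1 - (s : ℂ) * m) ^ N) - 1) x := by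
    intro x hx
    have hne := one_sub_ne' hm hx.1 (lt_of_le_of_lt hx.2 h1)
    have e2 : HasDerivAt (fun t : ℝ => 1 - (t : ℂ) * m) (-m) x := by
      simpa using ((Complex.ofRealCLM.hasDerivAt (x := x)).mul_const m).const_sub 1
    have e3 := (e2.pow N).inv (pow_ne_zero N hne)
    have e4 : HasDerivAt (fun x : ℝ => ∫ s in x..y, (1 - (s : ℂ) * m) ^ N)
        (-(1 - (x : ℂ) * m) ^ N) x :=
      intervalIntegral.integral_hasDerivAt_left (hcont.intervalIntegrable _ _)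
        (hcont.stronglyMeasurableAtFilter _ _) hcont.continuousAt
    refine (e3.mul e4).congr_deriv ?_
    obtain ⟨M, rfl⟩ : ∃ M, N = M + 1 := ⟨N - 1, by omega⟩
    simp only [Pi.inv_apply, Pi.pow_apply, Nat.add_sub_cancel]
    have hp : (1 - (x : ℂ) * m) ^ (M + 1) ≠ 0 := pow_ne_zero _ hne
    field_simp
    ring
  have h := formula_norm hN hu h0 h1 hH
  simp only [Complex.ofReal_zero, zero_mul, sub_zero, one_pow, inv_one, one_mul,
    intervalIntegral.integral_same, mul_zero, norm_zero] at h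
  have e5 : ∀ x : ℝ, (((1 - (x : ℂ) * m) ^ N)⁻¹ * ∫ s in x..y, (1 - (s : ℂ) * m) ^ N) =
      ∫ s in x..y, ((1 - (s : ℂ) * m) / (1 - (x : ℂ) * m)) ^ N := by
    intro x
    rw [← intervalIntegral.integral_const_mul]
    congr 1
    funext s
    rw [div_pow]
    ring
  simp only [e5] at h
  exact h

/-- The real integral with a majorant of `‖q‖`. -/
theorem int_le {y : ℝ} (h0 : 0 ≤ y) {G g q : ℝ → ℝ} (hG : ContinuousOn G (Set.Icc 0 y))
    (hG0 : ∀ x ∈ Set.Icc 0 y, 0 ≤ G x) (hg : ContinuousOn g (Set.Icc 0 y))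
    (hq : ContinuousOn q (Set.Icc 0 y))
    (hqg : ∀ x ∈ Set.Icc 0 y, q x ≤ g x) :
    ∫ x in (0 : ℝ)..y, G x * q x ≤ ∫ x in (0 : ℝ)..y, G x * g x := by
  apply intervalIntegral.integral_mono_on h0
  · apply ContinuousOn.intervalIntegrable
    rw [Set.uIcc_of_le h0]
    exact hG.mul hq
  · apply ContinuousOn.intervalIntegrable
    rw [Set.uIcc_of_le h0]
    exact hG.mul hg
  · intro x hx
    exact mul_le_mul_of_nonneg_left (hqg x hx) (hG0 x hx)

/-- **(S0)**: `h = (1 - y m)/(n m)` -/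
theorem formula_S0 (hN : 1 ≤ N) (hu : ∀ k, ‖u k‖ ≤ 1) {y : ℝ} (h0 : 0 ≤ y) (h1 : y < 1) :
    1 - ‖1 - (y : ℂ) * av u‖ * ‖qq u y‖ - N * (1 - ‖av u‖ ^ 2) *
      ∫ x in (0 : ℝ)..y, x / dn (av u) x * ‖qq u x‖ ≤
    ((N : ℝ) + 1) * ‖av u‖ * ‖∫ x in (0 : ℝ)..y, qq u x‖ := by
  have hm := av_norm_le hN hu
  have hdnc : Continuous fun x : ℝ => dn (av u) x := by
    unfold dn
    fun_prop
  have hc1 : ContinuousOn (fun x : ℝ => x / dn (av u) x) (Set.Icc 0 y) := by
    apply ContinuousOn.div continuousOn_id hdnc.continuousOn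
    intro x hx
    exact (dn_pos hm hx.1 (lt_of_le_of_lt hx.2 h1)).ne'
  rcases eq_or_ne (av u) 0 with hmz | hmz
  · -- `m = 0`: the left side is nonpositive
    have h := formula_U0 hN hu h0 h1
    rw [hmz]
    simp only [norm_zero, zero_mul, mul_zero, sub_zero, norm_one, one_mul, ne_eq,
      OfNat.ofNat_ne_zero, not_false_eq_true, zero_pow, mul_one]
    -- `1 - q(y) = N ∫ λ q`
    have hq := qq_cont u
    have hI : ContinuousOn (fun x => lam u x * qq u x) (Set.Icc 0 y) :=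
      (lam_contOn hu h1).mul hq.continuousOn
    have h2 := intervalIntegral.integral_eq_sub_of_hasDerivAt (f := qq u)
      (f' := fun x => -(N * lam u x * qq u x)) (a := 0) (b := y)
      (fun x hx => by
        rw [Set.uIcc_of_le h0] at hx
        exact qq_hasDerivAt hN hu hx.1 (lt_of_le_of_lt hx.2 h1))
      (by
        apply ContinuousOn.intervalIntegrable
        rw [Set.uIcc_of_le h0]
        exact ((continuousOn_const.mul (lam_contOn hu h1)).mul hq.continuousOn).neg)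
    rw [qq_zero] at h2
    have h3 : (1 : ℂ) = qq u y + ∫ x in (0 : ℝ)..y, (N * lam u x * qq u x) := by
      rw [intervalIntegral.integral_neg] at h2
      linear_combination h2
    have h4 : (1 : ℝ) ≤ ‖qq u y‖ + ‖∫ x in (0 : ℝ)..y, (N * lam u x * qq u x)‖ := by
      calc (1 : ℝ) = ‖(1 : ℂ)‖ := by simp
        _ = ‖qq u y + ∫ x in (0 : ℝ)..y, (N * lam u x * qq u x)‖ := by rw [← h3]
        _ ≤ _ := norm_add_le _ _
    have h5 : ‖∫ x in (0 : ℝ)..y, (N * lam u x * qq u x)‖ ≤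
        N * ∫ x in (0 : ℝ)..y, x / dn 0 x * ‖qq u x‖ := by
      rw [← intervalIntegral.integral_const_mul]
      refine (intervalIntegral.norm_integral_le_integral_norm h0).trans ?_
      apply intervalIntegral.integral_mono_on h0
      · apply ContinuousOn.intervalIntegrable
        rw [Set.uIcc_of_le h0]
        exact ((continuousOn_const.mul (lam_contOn hu h1)).mul hq.continuousOn).norm
      · apply ContinuousOn.intervalIntegrable
        rw [Set.uIcc_of_le h0]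
        rw [hmz] at hc1
        exact continuousOn_const.mul (hc1.mul hq.norm.continuousOn)
      · intro x hx
        have hx1 : x < 1 := lt_of_le_of_lt hx.2 h1
        have hs := schur_disc hN hu hx.1 hx1
        rw [hmz] at hs
        simp only [mul_zero, sub_zero, zero_div, norm_one, one_mul, norm_zero, ne_eq,
          OfNat.ofNat_ne_zero, not_false_eq_true, zero_pow, mul_one] at hs
        rw [norm_mul, norm_mul, Complex.norm_natCast, mul_assoc]
        apply mul_le_mul_of_nonneg_left _ (Nat.cast_nonneg N)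
        exact mul_le_mul_of_nonneg_right hs (norm_nonneg _)
    linarith
  · have hN1 : ((N : ℂ) + 1) ≠ 0 := by
      have : ((N : ℂ) + 1) = ((N + 1 : ℕ) : ℂ) := by push_cast; ring
      rw [this]
      exact_mod_cast (by omega : N + 1 ≠ 0)
    have hn : ‖(N : ℂ) + 1‖ = (N : ℝ) + 1 := by
      have : (N : ℂ) + 1 = ((N + 1 : ℕ) : ℂ) := by push_cast; ring
      rw [this, Complex.norm_natCast]
      push_cast
      ring
    have hnp : (0 : ℝ) < (N : ℝ) + 1 := by positivity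
    have hmp : 0 < ‖av u‖ := norm_pos_iff.2 hmz
    set m := av u with hmdef
    have hH : ∀ x ∈ Set.Icc 0 y, HasDerivAt
        (fun x : ℝ => (1 - (x : ℂ) * m) / (((N : ℂ) + 1) * m))
        (N * (m / (1 - (x : ℂ) * m)) * ((1 - (x : ℂ) * m) / (((N : ℂ) + 1) * m)) - 1) x := by
      intro x hx
      have hne := one_sub_ne' hm hx.1 (lt_of_le_of_lt hx.2 h1)
      have e2 : HasDerivAt (fun t : ℝ => 1 - (t : ℂ) * m) (-m) x := by
        simpa using ((Complex.ofRealCLM.hasDerivAt (x := x)).mul_const m).const_sub 1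
      refine (e2.div_const _).congr_deriv ?_
      have e3 : (N : ℂ) * (m / (1 - (x : ℂ) * m)) * ((1 - (x : ℂ) * m) / (((N : ℂ) + 1) * m)) =
          N / ((N : ℂ) + 1) := by
        have e4 : (m / (1 - (x : ℂ) * m)) * ((1 - (x : ℂ) * m) / (((N : ℂ) + 1) * m)) =
            1 / ((N : ℂ) + 1) := by
          rw [div_mul_div_comm, mul_comm m, mul_comm ((N : ℂ) + 1) m]
          rw [mul_div_mul_left _ _ hne]
          rw [div_mul_cancel_left₀ hmz, inv_eq_one_div]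
        rw [mul_assoc, e4]
        ring
      rw [e3]
      field_simp
      ring
    have h := formula_norm hN hu h0 h1 hH
    simp only [norm_div, norm_mul, hn] at h
    simp only [Complex.ofReal_zero, zero_mul, sub_zero, norm_one] at h
    have e6 : ∫ x in (0 : ℝ)..y, x / (‖1 - (x : ℂ) * m‖ * dn m x) *
        (‖1 - (x : ℂ) * m‖ / (((N : ℝ) + 1) * ‖m‖)) * ‖qq u x‖ =
        (1 / (((N : ℝ) + 1) * ‖m‖)) * ∫ x in (0 : ℝ)..y, x / dn m x * ‖qq u x‖ := by
      rw [← intervalIntegral.integral_const_mul]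
      apply intervalIntegral.integral_congr
      intro x hx
      rw [Set.uIcc_of_le h0] at hx
      have hx1 : x < 1 := lt_of_le_of_lt hx.2 h1
      have a1 := (nrm_pos hm hx.1 hx1).ne'
      have a2 := (dn_pos hm hx.1 hx1).ne'
      simp only
      field_simp
    rw [e6] at h
    have h7 := mul_le_mul_of_nonneg_left h (by positivity : 0 ≤ ((N : ℝ) + 1) * ‖m‖)
    refine le_trans (le_of_eq ?_) h7
    field_simp
    ring

/-- **(U0)** scaled form -/
theorem formula_U0' (hN : 1 ≤ N) (hu : ∀ k, ‖u k‖ ≤ 1) {y : ℝ} (h0 : 0 ≤ y) (h1 : y < 1) :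
    ‖1 - (1 - (y : ℂ) * av u) ^ (N + 1)‖ - N * (1 - ‖av u‖ ^ 2) *
      ∫ x in (0 : ℝ)..y, x / dn (av u) x *
        ‖1 - ((1 - (y : ℂ) * av u) / (1 - (x : ℂ) * av u)) ^ (N + 1)‖ * ‖qq u x‖ ≤
    ((N : ℝ) + 1) * ‖av u‖ * ‖∫ x in (0 : ℝ)..y, qq u x‖ := by
  have hm := av_norm_le hN hu
  have h := formula_U0 hN hu h0 h1
  set m := av u with hmdef
  have hn : ‖(N : ℂ) + 1‖ = (N : ℝ) + 1 := by
    have : (N : ℂ) + 1 = ((N + 1 : ℕ) : ℂ) := by push_cast; ring
    rw [this, Complex.norm_natCast]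
    push_cast
    ring
  have hN1 : ((N : ℂ) + 1) ≠ 0 := by
    have : ((N : ℂ) + 1) = ((N + 1 : ℕ) : ℂ) := by push_cast; ring
    rw [this]
    exact_mod_cast (by omega : N + 1 ≠ 0)
  -- the antiderivative
  have hF : ∀ a : ℝ, ((N : ℂ) + 1) * m * ∫ s in a..y, (1 - (s : ℂ) * m) ^ N =
      (1 - (a : ℂ) * m) ^ (N + 1) - (1 - (y : ℂ) * m) ^ (N + 1) := by
    intro a
    have hd : ∀ x ∈ Set.uIcc a y, HasDerivAt (fun x : ℝ => -(1 - (x : ℂ) * m) ^ (N + 1))
        (((N : ℂ) + 1) * m * (1 - (x : ℂ) * m) ^ N) x := by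
      intro x _
      have e2 : HasDerivAt (fun t : ℝ => 1 - (t : ℂ) * m) (-m) x := by
        simpa using ((Complex.ofRealCLM.hasDerivAt (x := x)).mul_const m).const_sub 1
      refine (e2.pow (N + 1)).neg.congr_deriv ?_
      push_cast
      ring
    have hcont : Continuous fun s : ℝ => ((N : ℂ) + 1) * m * (1 - (s : ℂ) * m) ^ N := by fun_prop
    have := intervalIntegral.integral_eq_sub_of_hasDerivAt hd (hcont.intervalIntegrable _ _)
    rw [intervalIntegral.integral_const_mul] at this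
    rw [this]
    ring
  have h0' := congrArg norm (hF 0)
  rw [norm_mul, norm_mul, hn] at h0'
  simp only [Complex.ofReal_zero, zero_mul, sub_zero, one_pow] at h0'
  have hx' : ∀ x : ℝ, 0 ≤ x → x ≤ y → ((N : ℝ) + 1) * ‖m‖ *
      ‖∫ s in x..y, ((1 - (s : ℂ) * m) / (1 - (x : ℂ) * m)) ^ N‖ = ‖1 - (x : ℂ) * m‖ *
      ‖1 - ((1 - (y : ℂ) * m) / (1 - (x : ℂ) * m)) ^ (N + 1)‖ := by
    intro x hx0 hxy
    have hne := one_sub_ne' hm hx0 (lt_of_le_of_lt hxy h1)
    rw [← hn, ← norm_mul, ← norm_mul, ← norm_mul]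
    congr 1
    have e5 : ∫ s in x..y, ((1 - (s : ℂ) * m) / (1 - (x : ℂ) * m)) ^ N =
        (((1 - (x : ℂ) * m) ^ N)⁻¹ * ∫ s in x..y, (1 - (s : ℂ) * m) ^ N) := by
      rw [← intervalIntegral.integral_const_mul]
      congr 1
      funext s
      rw [div_pow]
      ring
    rw [e5, mul_left_comm, hF x, div_pow]
    have hp : (1 - (x : ℂ) * m) ^ N ≠ 0 := pow_ne_zero _ hne
    have hp1 : (1 - (x : ℂ) * m) ^ (N + 1) ≠ 0 := pow_ne_zero _ hne
    field_simp
    ring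
  have h7 := mul_le_mul_of_nonneg_left h (by positivity : 0 ≤ ((N : ℝ) + 1) * ‖m‖)
  refine le_trans (le_of_eq ?_) h7
  rw [mul_sub (((N : ℝ) + 1) * ‖m‖), h0']
  congr 1
  rw [mul_left_comm (((N : ℝ) + 1) * ‖m‖)]
  congr 1
  rw [← intervalIntegral.integral_const_mul]
  apply intervalIntegral.integral_congr
  intro x hx
  rw [Set.uIcc_of_le h0] at hx
  have hx1 : x < 1 := lt_of_le_of_lt hx.2 h1
  have a1 := (nrm_pos hm hx.1 hx1).ne'
  have a2 := (dn_pos hm hx.1 hx1).ne'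
  simp only
  have a3 := hx' x hx.1 hx.2
  calc x / dn m x * ‖1 - ((1 - (y : ℂ) * m) / (1 - (x : ℂ) * m)) ^ (N + 1)‖ * ‖qq u x‖
      = x / (‖1 - (x : ℂ) * m‖ * dn m x) * (‖1 - (x : ℂ) * m‖ *
        ‖1 - ((1 - (y : ℂ) * m) / (1 - (x : ℂ) * m)) ^ (N + 1)‖) * ‖qq u x‖ := by
        generalize ‖1 - ((1 - (y : ℂ) * m) / (1 - (x : ℂ) * m)) ^ (N + 1)‖ = X
        generalize ‖1 - (x : ℂ) * m‖ = A at a1
        field_simp
    _ = _ := by
        rw [← a3]
        ring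

/-- the tail -/
theorem tail {x y : ℝ} (hxy : x ≤ y) :
    ‖∫ s in (0 : ℝ)..x, qq u s‖ - ∫ s in x..y, ‖qq u s‖ ≤ ‖∫ s in (0 : ℝ)..y, qq u s‖ := by
  have hq := qq_cont u
  have h1 : (∫ s in (0 : ℝ)..y, qq u s) = (∫ s in (0 : ℝ)..x, qq u s) + ∫ s in x..y, qq u s :=
    (intervalIntegral.integral_add_adjacent_intervals (hq.intervalIntegrable _ _)
      (hq.intervalIntegrable _ _)).symm
  have h2 : ‖∫ s in x..y, qq u s‖ ≤ ∫ s in x..y, ‖qq u s‖ :=
    intervalIntegral.norm_integral_le_integral_norm hxy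
  have h3 : ‖∫ s in (0 : ℝ)..x, qq u s‖ ≤ ‖∫ s in (0 : ℝ)..y, qq u s‖ + ‖∫ s in x..y, qq u s‖ := by
    have h4 : (∫ s in (0 : ℝ)..x, qq u s) = (∫ s in (0 : ℝ)..y, qq u s) - ∫ s in x..y, qq u s := by
      rw [h1]; ring
    rw [h4]
    exact norm_sub_le _ _
  linarith

end

/-- the connection with `fI`: `ρ fI w (ρ e) = ∫_0^ρ ∏ (1 - x e u_k) dx` -/
theorem fI_eq {N : ℕ} (w : Fin N → ℂ) (e : ℂ) (ρ : ℝ) :
    (ρ : ℂ) * fI w (ρ * e) = ∫ x in (0 : ℝ)..ρ, qq (fun k => e * uu w k) x := by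
  unfold fI qq
  have h := intervalIntegral.smul_integral_comp_mul_left (a := 0) (b := 1)
    (fun x : ℝ => ∏ k, (1 - (x : ℂ) * (e * uu w k))) ρ
  rw [mul_zero, mul_one] at h
  rw [← h]
  rw [Complex.real_smul]
  congr 1
  congr 1
  funext s
  refine Finset.prod_congr rfl fun k _ => ?_
  push_cast
  ring

theorem av_mul {N : ℕ} (e : ℂ) (u : Fin N → ℂ) : av (fun k => e * u k) = e * av u := by
  unfold av
  rw [← Finset.mul_sum]
  ring

end Pool.Agent.Lib.MP_af3a4a_an.P1.H80
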