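import Mathlib

/-!
# The Grace - Walsh - Szegő theorem for the closed unit disc (council 2, helper80)

`TT c [u_1, ..., u_n] = ∑_j c_j e_j(u_1, ..., u_n)`. If `∑_{j ≤ n} c_j C(n,j) z^j` has no zero in
the closed unit disc then `TT c us ≠ 0` for all `u_k` in the closed unit disc.
-/

namespace Pool.Agent.Lib.MP_af3a4a_an.P1.H80

open Finset Polynomial

/-- the symmetric multiaffine function with coefficients `c` -/
def TT (c : ℕ → ℂ) : List ℂ → ℂ
  | [] => c 0
  | u :: us => TT (fun j => c j + u * c (j + 1)) us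

/-- the polynomial on the diagonal -/
noncomputable def pd (n : ℕ) (c : ℕ → ℂ) : ℂ[X] :=
  ∑ j ∈ range (n + 1), C (c j * (n.choose j : ℂ)) * X ^ j

theorem pd_eval (n : ℕ) (c : ℕ → ℂ) (z : ℂ) :
    (pd n c).eval z = ∑ j ∈ range (n + 1), c j * (n.choose j : ℂ) * z ^ j := by
  simp [pd, eval_finsetSum]

theorem pd_natDegree (n : ℕ) (c : ℕ → ℂ) : (pd n c).natDegree ≤ n := by
  unfold pd
  apply natDegree_sum_le_of_forall_le
  intro j hj
  exact (natDegree_C_mul_X_pow_le _ _).trans (by have := mem_range.1 hj; omega)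

/-- the identity `n p_{c'} = n p + (u - z) p'` -/
theorem pd_step (n : ℕ) (c : ℕ → ℂ) (u z : ℂ) :
    ((n : ℂ) + 1) * (pd n fun j => c j + u * c (j + 1)).eval z =
      ((n : ℂ) + 1) * (pd (n + 1) c).eval z + (u - z) * (derivative (pd (n + 1) c)).eval z := by
  have hd : (derivative (pd (n + 1) c)).eval z =
      ∑ j ∈ range (n + 1), c (j + 1) * (((n : ℂ) + 1) * (n.choose j : ℂ)) * z ^ j := by
    unfold pd
    rw [derivative_sum, eval_finsetSum, Finset.sum_range_succ']
    have e0 : eval z (derivative (C (c 0 * ((n + 1).choose 0 : ℂ)) * X ^ 0)) = 0 := by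
      rw [pow_zero, mul_one, derivative_C, eval_zero]
    rw [e0, add_zero]
    refine Finset.sum_congr rfl fun j _ => ?_
    rw [derivative_C_mul_X_pow, eval_C_mul, eval_pow, eval_X]
    have h1 := Nat.add_one_mul_choose_eq n j
    have h2 : ((n : ℂ) + 1) * (n.choose j : ℂ) = ((n + 1).choose (j + 1) : ℂ) * ((j : ℂ) + 1) := by
      exact_mod_cast h1
    rw [h2]
    push_cast
    ring
  -- `z p'`
  have hzd : z * (derivative (pd (n + 1) c)).eval z =
      ∑ j ∈ range (n + 2), c j * ((n + 1).choose j : ℂ) * (j : ℂ) * z ^ j := by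
    rw [hd, Finset.sum_range_succ' _ (n + 1), Finset.mul_sum]
    simp only [Nat.cast_zero, mul_zero, zero_mul, add_zero]
    refine Finset.sum_congr rfl fun j _ => ?_
    have h1 := Nat.add_one_mul_choose_eq n j
    have h2 : ((n : ℂ) + 1) * (n.choose j : ℂ) = ((n + 1).choose (j + 1) : ℂ) * ((j : ℂ) + 1) := by
      exact_mod_cast h1
    rw [h2]
    push_cast
    ring
  have hz2 : ((n : ℂ) + 1) * (pd (n + 1) c).eval z - z * (derivative (pd (n + 1) c)).eval z =
      ((n : ℂ) + 1) * ∑ j ∈ range (n + 1), c j * (n.choose j : ℂ) * z ^ j := by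
    rw [hzd, pd_eval, Finset.mul_sum, ← Finset.sum_sub_distrib, Finset.sum_range_succ,
      Finset.mul_sum]
    have hlast : ((n : ℂ) + 1) * (c (n + 1) * ((n + 1).choose (n + 1) : ℂ) * z ^ (n + 1)) -
        c (n + 1) * ((n + 1).choose (n + 1) : ℂ) * ((n + 1 : ℕ) : ℂ) * z ^ (n + 1) = 0 := by
      push_cast
      ring
    rw [hlast, add_zero]
    refine Finset.sum_congr rfl fun j hj => ?_
    have hj' : j ≤ n := by have := mem_range.1 hj; omega
    have h1 := Nat.choose_mul_succ_eq n j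
    have h2 : (n.choose j : ℂ) * ((n : ℂ) + 1) = ((n + 1).choose j : ℂ) * ((n : ℂ) + 1 - j) := by
      have h3 : ((n + 1 - j : ℕ) : ℂ) = (n : ℂ) + 1 - j := by
        rw [Nat.cast_sub (by omega)]
        push_cast
        ring
      rw [← h3]
      exact_mod_cast h1
    linear_combination -(c j * z ^ j) * h2
  have e : (pd n fun j => c j + u * c (j + 1)).eval z =
      (∑ j ∈ range (n + 1), c j * (n.choose j : ℂ) * z ^ j) +
        u * ∑ j ∈ range (n + 1), c (j + 1) * (n.choose j : ℂ) * z ^ j := by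
    rw [pd_eval, Finset.mul_sum, ← Finset.sum_add_distrib]
    exact Finset.sum_congr rfl fun j _ => by ring
  rw [e]
  have hd' : (derivative (pd (n + 1) c)).eval z =
      ((n : ℂ) + 1) * ∑ j ∈ range (n + 1), c (j + 1) * (n.choose j : ℂ) * z ^ j := by
    rw [hd, Finset.mul_sum]
    exact Finset.sum_congr rfl fun j _ => by ring
  linear_combination -hz2 - u * hd'

/-- Laguerre's theorem for the unit disc -/
theorem laguerre {p : ℂ[X]} {n : ℕ} (hn : 1 ≤ n) (hp : p.natDegree ≤ n)
    (h : ∀ z : ℂ, ‖z‖ ≤ 1 → p.eval z ≠ 0) {u z : ℂ} (hu : ‖u‖ ≤ 1) (hz : ‖z‖ ≤ 1) :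
    (n : ℂ) * p.eval z + (u - z) * (derivative p).eval z ≠ 0 := by
  intro hcon
  have hpz := h z hz
  have hsplit : p.Splits := IsAlgClosed.splits p
  have hS := hsplit.eval_derivative_div_eval_of_ne_zero hpz
  set S := (p.roots.map fun w => 1 / (z - w)).sum with hSdef
  have hd : (derivative p).eval z = S * p.eval z := by
    rw [← hS]; field_simp
  have h1 : (n : ℂ) + (u - z) * S = 0 := by
    have : ((n : ℂ) + (u - z) * S) * p.eval z = 0 := by
      rw [← hcon, hd]; ring
    exact (mul_eq_zero.1 this).resolve_right hpz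
  have h2 : ‖(n : ℂ) - z * S‖ ≤ ‖S‖ := by
    have h3 : (n : ℂ) - z * S = -(u * S) := by linear_combination h1
    rw [h3, norm_neg, norm_mul]
    exact mul_le_of_le_one_left (norm_nonneg _) hu
  -- each root
  have hroot : ∀ w ∈ p.roots, 0 < 1 - 2 * (z * (1 / (z - w))).re -
      (1 - ‖z‖ ^ 2) * ‖1 / (z - w)‖ ^ 2 := by
    intro w hw
    have hw1 : 1 < ‖w‖ := by
      by_contra hcon'
      push Not at hcon'
      exact h w hcon' (isRoot_of_mem_roots hw)
    have hzw : z - w ≠ 0 := by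
      intro h5
      have : z = w := by linear_combination h5
      rw [this] at hz
      linarith
    have e1 : 1 - z * (1 / (z - w)) = -w * (1 / (z - w)) := by
      field_simp
      ring
    have e2 : ‖1 - z * (1 / (z - w))‖ ^ 2 = ‖w‖ ^ 2 * ‖1 / (z - w)‖ ^ 2 := by
      rw [e1, norm_mul, norm_neg, mul_pow]
    have e3 : ‖1 - z * (1 / (z - w))‖ ^ 2 = 1 - 2 * (z * (1 / (z - w))).re +
        ‖z‖ ^ 2 * ‖1 / (z - w)‖ ^ 2 := by
      rw [← mul_pow, ← norm_mul, ← Complex.normSq_eq_norm_sq, ← Complex.normSq_eq_norm_sq,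
        Complex.normSq_apply, Complex.normSq_apply]
      simp only [Complex.sub_re, Complex.sub_im, Complex.one_re, Complex.one_im]
      ring
    have e4 : 0 < ‖1 / (z - w)‖ ^ 2 := by
      have : 1 / (z - w) ≠ 0 := one_div_ne_zero hzw
      positivity
    have e5 : 0 < (‖w‖ ^ 2 - 1) * ‖1 / (z - w)‖ ^ 2 := by
      apply mul_pos _ e4
      nlinarith
    nlinarith
  -- sum up
  have key : ∀ s : Multiset ℂ, (∀ w ∈ s, 0 < 1 - 2 * (z * (1 / (z - w))).re -
      (1 - ‖z‖ ^ 2) * ‖1 / (z - w)‖ ^ 2) → s.card ≤ n → (s.card = 0 ∨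
      0 < (s.card : ℝ) - 2 * (z * (s.map fun w => 1 / (z - w)).sum).re - (1 - ‖z‖ ^ 2) *
        (s.map fun w => ‖1 / (z - w)‖ ^ 2).sum) ∧
      ‖(s.map fun w => 1 / (z - w)).sum‖ ^ 2 ≤ s.card * (s.map fun w => ‖1 / (z - w)‖ ^ 2).sum := by
    intro s
    induction s using Multiset.induction_on with
    | empty => intro _ _; simp
    | cons w s ih =>
      intro hw hc
      have ihs := ih (fun w' hw' => hw w' (Multiset.mem_cons_of_mem hw'))
        (by rw [Multiset.card_cons] at hc; omega)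
      have hw0 := hw w (Multiset.mem_cons_self w s)
      simp only [Multiset.map_cons, Multiset.sum_cons, Multiset.card_cons]
      set g := 1 / (z - w) with hg
      set G := (s.map fun w => 1 / (z - w)).sum with hG
      set Q := (s.map fun w => ‖1 / (z - w)‖ ^ 2).sum with hQ
      have hQ0 : 0 ≤ Q := Multiset.sum_nonneg (by
        intro x hx
        obtain ⟨w', _, rfl⟩ := Multiset.mem_map.1 hx
        positivity)
      constructor
      · right
        rcases ihs.1 with h0 | h0
        · have hs0 : s = 0 := Multiset.card_eq_zero.1 h0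
          have hG0 : G = 0 := by rw [hG, hs0]; simp
          have hQ1 : Q = 0 := by rw [hQ, hs0]; simp
          rw [hG0, hQ1, h0]
          simpa using hw0
        · rw [mul_add, Complex.add_re]
          push_cast
          nlinarith
      · -- Cauchy-Schwarz step
        have h6 : ‖g + G‖ ^ 2 ≤ (‖g‖ + ‖G‖) ^ 2 := pow_le_pow_left₀ (norm_nonneg _) (norm_add_le _ _) 2
        have h7 := ihs.2
        push_cast
        rcases Nat.eq_zero_or_pos s.card with h0 | h0
        · have hs0 : s = 0 := Multiset.card_eq_zero.1 h0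
          have hG0 : G = 0 := by rw [hG, hs0]; simp
          have hQ1 : Q = 0 := by rw [hQ, hs0]; simp
          rw [hG0, hQ1, h0]
          simp
        · have hk : (0 : ℝ) < s.card := by exact_mod_cast h0
          have h8 : 2 * ‖g‖ * ‖G‖ ≤ s.card * ‖g‖ ^ 2 + ‖G‖ ^ 2 / s.card := by
            have h9 : 0 ≤ (s.card * ‖g‖ - ‖G‖) ^ 2 / s.card := by positivity
            have h10 : (s.card * ‖g‖ - ‖G‖) ^ 2 / s.card =
                s.card * ‖g‖ ^ 2 + ‖G‖ ^ 2 / s.card - 2 * ‖g‖ * ‖G‖ := by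
              field_simp
              ring
            linarith
          have h11 : ‖G‖ ^ 2 / s.card ≤ Q := by
            rw [div_le_iff₀ hk]
            linarith
          nlinarith
  obtain ⟨k1, k2⟩ := key p.roots hroot ((card_roots' p).trans hp)
  set d := p.roots.card with hddef
  set Q := (p.roots.map fun w => ‖1 / (z - w)‖ ^ 2).sum with hQ
  have hdn : (d : ℝ) ≤ n := by exact_mod_cast (card_roots' p).trans hp
  have hn0 : (0 : ℝ) < n := by exact_mod_cast hn
  have hQ0 : 0 ≤ Q := Multiset.sum_nonneg (by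
    intro x hx
    obtain ⟨w', _, rfl⟩ := Multiset.mem_map.1 hx
    positivity)
  -- `‖n - zS‖² > ‖S‖²`
  have hz2 : 0 ≤ 1 - ‖z‖ ^ 2 := by nlinarith [norm_nonneg z]
  have hfin : 0 < (n : ℝ) - 2 * (z * S).re - (1 - ‖z‖ ^ 2) * Q := by
    rcases k1 with h0 | h0
    · have hs0 : p.roots = 0 := Multiset.card_eq_zero.1 h0
      have hS0 : S = 0 := by rw [hSdef, hs0]; simp
      have hQ1 : Q = 0 := by rw [hQ, hs0]; simp
      rw [hS0, hQ1]
      simpa using hn0
    · linarith
  have hexp : ‖(n : ℂ) - z * S‖ ^ 2 = (n : ℝ) ^ 2 - 2 * n * (z * S).re + ‖z‖ ^ 2 * ‖S‖ ^ 2 := by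
    rw [← mul_pow, ← norm_mul, ← Complex.normSq_eq_norm_sq, ← Complex.normSq_eq_norm_sq,
      Complex.normSq_apply, Complex.normSq_apply]
    simp only [Complex.sub_re, Complex.sub_im, Complex.natCast_re, Complex.natCast_im]
    ring
  have hsq : ‖(n : ℂ) - z * S‖ ^ 2 ≤ ‖S‖ ^ 2 := pow_le_pow_left₀ (norm_nonneg _) h2 2
  have hSn : ‖S‖ ^ 2 ≤ n * Q := k2.trans (mul_le_mul_of_nonneg_right hdn hQ0)
  have h12 : (1 - ‖z‖ ^ 2) * ‖S‖ ^ 2 ≤ (1 - ‖z‖ ^ 2) * (n * Q) := mul_le_mul_of_nonneg_left hSn hz2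
  have h13 : 0 < (n : ℝ) * ((n : ℝ) - 2 * (z * S).re - (1 - ‖z‖ ^ 2) * Q) := mul_pos hn0 hfin
  nlinarith

/-- **Grace - Walsh - Szegő** for the closed unit disc -/
theorem gws (us : List ℂ) : ∀ (c : ℕ → ℂ), (∀ u ∈ us, ‖u‖ ≤ 1) →
    (∀ z : ℂ, ‖z‖ ≤ 1 →
      ∑ j ∈ range (us.length + 1), c j * (us.length.choose j : ℂ) * z ^ j ≠ 0) → TT c us ≠ 0 := by
  induction us with
  | nil =>
    intro c _ h
    have := h 0 (by simp)
    simpa [TT] using this
  | cons u us ih =>
    intro c hu h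
    unfold TT
    apply ih _ (fun u' hu' => hu u' (List.mem_cons_of_mem _ hu'))
    intro z hz
    rw [← pd_eval]
    have h1 := pd_step us.length c u z
    have h2 : ((us.length : ℂ) + 1) * (pd (us.length + 1) c).eval z +
        (u - z) * (derivative (pd (us.length + 1) c)).eval z ≠ 0 := by
      have h3 := laguerre (p := pd (us.length + 1) c) (n := us.length + 1) (by omega)
        (pd_natDegree _ _) (fun z hz => by
          rw [pd_eval]
          exact h z hz) (hu u (List.mem_cons_self)) hz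
      push_cast at h3
      exact h3
    rw [← h1] at h2
    exact right_ne_zero_of_mul h2

end Pool.Agent.Lib.MP_af3a4a_an.P1.H80
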