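import Mathlib

/-!
# The pointwise inequality of the certificate M5 (helper80)

`W(T) = log (1 + a T) - κ T - (1/2) log (1 - a^2)`, `κ = artanh a`.
-/

namespace Pool.Agent.Lib.MP_af3a4a_an.P1.H80

open Real Set

/-- `artanh a` -/
noncomputable def kap (a : ℝ) : ℝ := (Real.log (1 + a) - Real.log (1 - a)) / 2

/-- the critical value of the second order coefficient -/
noncomputable def ww (a : ℝ) : ℝ := (kap a - a / (1 + a)) / 2

theorem log_one_sub_sq {a : ℝ} (ha : -1 < a) (ha1 : a < 1) :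
    Real.log (1 - a ^ 2) = Real.log (1 + a) + Real.log (1 - a) := by
  rw [← Real.log_mul (by linarith only [ha]) (by linarith only [ha1])]
  congr 1; ring

theorem le_kap {a : ℝ} (ha : 0 ≤ a) (ha1 : a < 1) : a ≤ kap a := by
  have h1 : 0 < 1 - a := by linarith only [ha1]
  have h2 : 0 < 1 + a := by linarith only [ha]
  have key : ∀ x ∈ Icc (0:ℝ) a, HasDerivAt (fun x => kap x - x)
      ((1 / (1 + x) + 1 / (1 - x)) / 2 - 1) x := by
    intro x hx
    have e1 : HasDerivAt (fun x : ℝ => Real.log (1 + x)) (1 / (1 + x)) x := by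
      have := ((hasDerivAt_id x).const_add 1).log (by simp only [id]; linarith only [hx, hx.1])
      simpa using this
    have e2 : HasDerivAt (fun x : ℝ => Real.log (1 - x)) (-1 / (1 - x)) x := by
      have := ((hasDerivAt_id x).const_sub 1).log (by simp only [id]; linarith only [ha1, hx, hx.2])
      simpa using this
    refine (((e1.sub e2).div_const 2).sub (hasDerivAt_id x)).congr_deriv ?_
    ring
  have hmono : MonotoneOn (fun x => kap x - x) (Icc 0 a) := by
    apply monotoneOn_of_deriv_nonneg (convex_Icc 0 a)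
    · exact fun x hx => (key x hx).continuousAt.continuousWithinAt
    · exact fun x hx => (key x (interior_subset hx)).differentiableAt.differentiableWithinAt
    · intro x hx
      have hx' := interior_subset hx
      rw [(key x hx').deriv]
      have p1 : 0 < 1 + x := by linarith only [hx', hx'.1]
      have p2 : 0 < 1 - x := by linarith only [ha1, hx', hx'.2]
      have : (1 / (1 + x) + 1 / (1 - x)) / 2 - 1 = x ^ 2 / ((1 + x) * (1 - x)) := by
        field_simp
        ring
      rw [this]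
      positivity
  have := hmono ⟨le_rfl, ha⟩ ⟨ha, le_rfl⟩ ha
  simp only [kap] at this ⊢
  norm_num at this
  linarith only [this]

theorem ww_nonneg {a : ℝ} (ha : 0 ≤ a) (ha1 : a < 1) : 0 ≤ ww a := by
  have h := le_kap ha ha1
  have : a / (1 + a) ≤ a := by
    rw [div_le_iff₀ (by linarith only [ha])]
    nlinarith only [ha]
  unfold ww
  linarith only [h, this]

/-- the Jensen gap `W(T)` is at least `ww a * (1 - T^2)` -/
theorem gap_lower {a T : ℝ} (ha : 0 ≤ a) (ha1 : a < 1) (hT : -1 ≤ T) (hT1 : T ≤ 1) :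
    ww a * (1 - T ^ 2) ≤ Real.log (1 + a * T) - kap a * T - Real.log (1 - a ^ 2) / 2 := by
  have hw := ww_nonneg ha ha1
  set w := ww a with hwdef
  have hw2 : 2 * w * (1 + a) = kap a * (1 + a) - a := by
    rw [hwdef]; unfold ww
    have : (1 + a) ≠ 0 := by linarith only [ha]
    field_simp
  have hpos : ∀ x : ℝ, -1 ≤ x → 0 < 1 + a * x := fun x hx => by nlinarith only [ha, ha1, hx]
  set G : ℝ → ℝ := fun x => Real.log (1 + a * x) - kap a * x - Real.log (1 - a ^ 2) / 2
    - w * (1 - x ^ 2) with hG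
  have hd : ∀ x : ℝ, -1 ≤ x → HasDerivAt G ((x - 1) * (2 * w * a * x + (kap a - a)) / (1 + a * x)) x := by
    intro x hx
    have hp := hpos x hx
    have e1 : HasDerivAt (fun x : ℝ => Real.log (1 + a * x)) (a / (1 + a * x)) x := by
      have := (((hasDerivAt_id x).const_mul a).const_add 1).log (by simp only [id]; exact hp.ne')
      simpa using this
    have e2 : HasDerivAt (fun x : ℝ => kap a * x) (kap a) x := by
      simpa using (hasDerivAt_id x).const_mul (kap a)
    have e3 : HasDerivAt (fun x : ℝ => w * (1 - x ^ 2)) (w * (-(2 * x))) x := by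
      have := ((hasDerivAt_pow 2 x).const_sub 1).const_mul w
      simpa using this
    refine (((e1.sub e2).sub_const (Real.log (1 - a ^ 2) / 2)).sub e3).congr_deriv ?_
    rw [eq_div_iff hp.ne']
    have e4 : (a / (1 + a * x) - kap a - w * (-(2 * x))) * (1 + a * x) =
        a - kap a * (1 + a * x) + 2 * w * x * (1 + a * x) := by
      field_simp
      ring
    rw [e4]
    linear_combination x * hw2
  have hG1 : G 1 = 0 := by
    simp only [hG]
    rw [log_one_sub_sq (by linarith only [ha]) ha1]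
    unfold kap
    norm_num
    ring
  have hGm : G (-1) = 0 := by
    simp only [hG]
    rw [log_one_sub_sq (by linarith only [ha]) ha1]
    unfold kap
    norm_num
    rw [show 1 + -a = 1 - a by ring]
    ring
  suffices h : 0 ≤ G T by
    simp only [hG] at h
    linarith only [h]
  rcases le_total 0 (2 * w * a * T + (kap a - a)) with h | h
  · have hanti : AntitoneOn G (Icc T 1) := by
      apply antitoneOn_of_deriv_nonpos (convex_Icc T 1)
      · exact fun x hx => (hd x (hT.trans hx.1)).continuousAt.continuousWithinAt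
      · exact fun x hx => (hd x (hT.trans (interior_subset hx).1)).differentiableAt.differentiableWithinAt
      · intro x hx
        have hx' := interior_subset hx
        rw [(hd x (hT.trans hx'.1)).deriv]
        apply div_nonpos_of_nonpos_of_nonneg _ (hpos x (hT.trans hx'.1)).le
        apply mul_nonpos_of_nonpos_of_nonneg (by linarith only [hx', hx'.2])
        have : 2 * w * a * T ≤ 2 * w * a * x := by
          have := hx'.1
          have h0 : 0 ≤ 2 * w * a := by positivity
          nlinarith only [this, h0]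
        linarith only [h, this]
    have := hanti ⟨le_rfl, hT1⟩ ⟨hT1, le_rfl⟩ hT1
    linarith only [hG1, this]
  · have hmono : MonotoneOn G (Icc (-1) T) := by
      apply monotoneOn_of_deriv_nonneg (convex_Icc (-1) T)
      · exact fun x hx => (hd x hx.1).continuousAt.continuousWithinAt
      · exact fun x hx => (hd x (interior_subset hx).1).differentiableAt.differentiableWithinAt
      · intro x hx
        have hx' := interior_subset hx
        rw [(hd x hx'.1).deriv]
        apply div_nonneg _ (hpos x hx'.1).le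
        have : 2 * w * a * x ≤ 2 * w * a * T := by
          have := hx'.2
          have h0 : 0 ≤ 2 * w * a := by positivity
          nlinarith only [this, h0]
        apply mul_nonneg_of_nonpos_of_nonpos (by linarith only [hT1, hx', hx'.2]) (by linarith only [h, this])
    have := hmono ⟨le_rfl, hT⟩ ⟨hT, le_rfl⟩ hT
    linarith only [hGm, this]

/-- `h ≥ 1 - η(1-η)/2 - (η(1-η))²/2` in the variable `η`, `D² = η (1 - η)` -/
theorem h_aux {η : ℝ} (h0 : 0 ≤ η) (h1 : η ≤ 1 / 2) :
    1 - η * (1 - η) / 2 - (η * (1 - η)) ^ 2 / 2 ≤ (1 - η) - Real.log (1 - η) / 2 := by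
  have hs : η + η ^ 2 / 2 + η ^ 3 / 3 + η ^ 4 / 4 + η ^ 5 / 5 + η ^ 6 / 6 ≤ -Real.log (1 - η) := by
    have h := Real.hasSum_pow_div_log_of_abs_lt_one (x := η) (by rw [abs_of_nonneg h0]; linarith only [h1])
    have := sum_le_hasSum (Finset.range 6) (fun i _ => by positivity) h
    simp only [Finset.sum_range_succ, Finset.sum_range_zero] at this
    norm_num at this
    linarith only [this]
  have hp : 0 ≤ η ^ 2 * (1 / 4 - 5 / 6 * η + 5 / 8 * η ^ 2 + η ^ 3 / 10 + η ^ 4 / 12) := by
    apply mul_nonneg (by positivity)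
    have h3 : 3 / 4 * η - 1 / 4 ≤ η ^ 3 := by
      have : 0 ≤ (η - 1 / 2) ^ 2 * (η + 1) := by positivity
      linarith only [this, show (η - 1 / 2) ^ 2 * (η + 1) = η ^ 3 - (3 / 4 * η - 1 / 4) by ring]
    have h4 : 0 ≤ η ^ 4 := by positivity
    have h5 : 0 ≤ (η - 1 / 2) ^ 2 := sq_nonneg _
    linarith only [h1, h3, h4, h5, show (η - 1 / 2) ^ 2 = η ^ 2 - η + 1 / 4 by ring]
  linarith only [hs, hp, show η ^ 2 * (1 / 4 - 5 / 6 * η + 5 / 8 * η ^ 2 + η ^ 3 / 10 + η ^ 4 / 12) = (η + η ^ 2 / 2 + η ^ 3 / 3 + η ^ 4 / 4 + η ^ 5 / 5 + η ^ 6 / 6) / 2 - η + η * (1 - η) / 2 + (η * (1 - η)) ^ 2 / 2 by ring]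

/-- `f(X) = X - (1/2) log (X^2 + D^2)` -/
noncomputable def ff (D X : ℝ) : ℝ := X - Real.log (X ^ 2 + D ^ 2) / 2

theorem ff_hasDerivAt {D X : ℝ} (h : 0 < X ^ 2 + D ^ 2) :
    HasDerivAt (ff D) ((X ^ 2 - X + D ^ 2) / (X ^ 2 + D ^ 2)) X := by
  have e1 : HasDerivAt (fun X : ℝ => Real.log (X ^ 2 + D ^ 2)) ((2 * X) / (X ^ 2 + D ^ 2)) X := by
    have := ((hasDerivAt_pow 2 X).add_const (D ^ 2)).log h.ne'
    simpa using this
  have := (hasDerivAt_id X).sub (e1.div_const 2)
  refine this.congr_deriv ?_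
  field_simp
  ring

theorem ff_mono {D A B : ℝ} (hAB : A ≤ B) (h : ∀ x ∈ Icc A B, 0 < x ^ 2 + D ^ 2)
    (h' : ∀ x ∈ Icc A B, 0 ≤ x ^ 2 - x + D ^ 2) : ff D A ≤ ff D B := by
  have hmono : MonotoneOn (ff D) (Icc A B) := by
    apply monotoneOn_of_deriv_nonneg (convex_Icc A B)
    · exact fun x hx => (ff_hasDerivAt (h x hx)).continuousAt.continuousWithinAt
    · exact fun x hx =>
        (ff_hasDerivAt (h x (interior_subset hx))).differentiableAt.differentiableWithinAt
    · intro x hx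
      have hx' := interior_subset hx
      rw [(ff_hasDerivAt (h x hx')).deriv]
      exact div_nonneg (h' x hx') (h x hx').le
  exact hmono ⟨le_rfl, hAB⟩ ⟨hAB, le_rfl⟩ hAB

theorem ff_anti {D A B : ℝ} (hAB : A ≤ B) (h : ∀ x ∈ Icc A B, 0 < x ^ 2 + D ^ 2)
    (h' : ∀ x ∈ Icc A B, x ^ 2 - x + D ^ 2 ≤ 0) : ff D B ≤ ff D A := by
  have hanti : AntitoneOn (ff D) (Icc A B) := by
    apply antitoneOn_of_deriv_nonpos (convex_Icc A B)
    · exact fun x hx => (ff_hasDerivAt (h x hx)).continuousAt.continuousWithinAt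
    · exact fun x hx =>
        (ff_hasDerivAt (h x (interior_subset hx))).differentiableAt.differentiableWithinAt
    · intro x hx
      have hx' := interior_subset hx
      rw [(ff_hasDerivAt (h x hx')).deriv]
      exact div_nonpos_of_nonpos_of_nonneg (h' x hx') (h x hx').le
  exact hanti ⟨le_rfl, hAB⟩ ⟨hAB, le_rfl⟩ hAB

/-- the minimum principle in the radial variable -/
theorem ff_min {D X₀ X : ℝ} (hX : X₀ ≤ X) (hP : 0 < X ^ 2 + D ^ 2) :
    ff D X₀ ≤ ff D X ∨ (D ^ 2 ≤ 1 / 4 ∧ 1 - D ^ 2 / 2 - (D ^ 2) ^ 2 / 2 ≤ ff D X) := by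
  rcases lt_or_ge (1 / 4) (D ^ 2) with hD | hD
  · left
    apply ff_mono hX
    · intro x _
      linarith only [hD, sq_nonneg x]
    · intro x _
      linarith only [hD, sq_nonneg (x - 1 / 2)]
  · set η : ℝ := (1 - Real.sqrt (1 - 4 * D ^ 2)) / 2 with hη
    have hs0 : 0 ≤ 1 - 4 * D ^ 2 := by linarith only [hD]
    have hs : Real.sqrt (1 - 4 * D ^ 2) ^ 2 = 1 - 4 * D ^ 2 := Real.sq_sqrt hs0
    have hs1 : Real.sqrt (1 - 4 * D ^ 2) ≤ 1 := by
      rw [Real.sqrt_le_iff]
      exact ⟨by norm_num, by linarith only [sq_nonneg D]⟩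
    have hsn := Real.sqrt_nonneg (1 - 4 * D ^ 2)
    have hη0 : 0 ≤ η := by rw [hη]; linarith only [hs1]
    have hη1 : η ≤ 1 / 2 := by rw [hη]; linarith only [hsn]
    have hηD : η * (1 - η) = D ^ 2 := by
      rw [hη]; linarith only [hs]
    have hfac : ∀ x : ℝ, x ^ 2 - x + D ^ 2 = (x - η) * (x - (1 - η)) := by
      intro x; rw [← hηD]; ring
    rcases lt_or_ge X η with hXη | hXη
    · left
      apply ff_mono hX
      · intro x hx
        rcases eq_or_ne D 0 with h0 | h0
        · have hη' : η = 0 := by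
            have : η * (1 - η) = 0 := by rw [hηD, h0]; norm_num
            rcases mul_eq_zero.1 this with h | h
            · exact h
            · linarith only [hη, hsn, h]
          have : x < 0 := by linarith only [hXη, hx, hη', hx.2]
          have := pow_pos (neg_pos.2 this) 2
          linarith only [this, sq_nonneg D]
        · have := pow_pos (abs_pos.2 h0) 2
          rw [sq_abs] at this
          linarith only [this, sq_nonneg x]
      · intro x hx
        rw [hfac]
        apply mul_nonneg_of_nonpos_of_nonpos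
        · linarith only [hXη, hx, hx.2]
        · linarith only [hη, hsn, hXη, hx, hx.2]
    · right
      refine ⟨hD, ?_⟩
      have hbd : 1 - D ^ 2 / 2 - (D ^ 2) ^ 2 / 2 ≤ ff D (1 - η) := by
        have h1 := h_aux hη0 hη1
        rw [hηD] at h1
        have h2 : (1 - η) ^ 2 + D ^ 2 = 1 - η := by rw [← hηD]; ring
        unfold ff
        rw [h2]
        exact h1
      refine hbd.trans ?_
      have hXpos : 0 < X := by
        rcases hη0.lt_or_eq with h | h
        · linarith only [hXη, h]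
        · have hD0 : D ^ 2 = 0 := by rw [← hηD, ← h]; norm_num
          rw [hD0, add_zero] at hP
          have h0 : 0 ≤ X := by rw [← h] at hXη; exact hXη
          rcases h0.lt_or_eq with h' | h'
          · exact h'
          · rw [← h'] at hP
            norm_num at hP
      rcases le_total X (1 - η) with hc | hc
      · apply ff_anti hc
        · intro x hx
          have : 0 < x := lt_of_lt_of_le hXpos hx.1
          positivity
        · intro x hx
          rw [hfac]
          apply mul_nonpos_of_nonneg_of_nonpos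
          · linarith only [hXη, hx, hx.1]
          · linarith only [hx, hx.2]
      · apply ff_mono hc
        · intro x hx
          have : 0 < x := by linarith only [hη, hsn, hx, hx.1]
          positivity
        · intro x hx
          rw [hfac]
          apply mul_nonneg
          · linarith only [hη, hsn, hx, hx.1]
          · linarith only [hx, hx.1]

/-- The checkable condition under which the pointwise inequality holds with loss `l` at
`s = p + i q` (coordinates with respect to `e`). -/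
structure Cert (a k l p q : ℝ) : Prop where
  a0 : 0 ≤ a
  a1 : a < 1
  hk : 1 / 2 + min (1 / 4) ((1 + a) ^ 2 * (p ^ 2 + q ^ 2)) / 2 ≤ k
  hl : k * (1 + a) ^ 2 * q ^ 2 ≤ l
  hA : 0 ≤ ww a + a * p - k * (1 + a) ^ 2 * p ^ 2 + l
  hd : ((2 * (k * (1 + a) ^ 2) * p - a) * q) ^ 2 ≤
    4 * (ww a + a * p - k * (1 + a) ^ 2 * p ^ 2 + l) * (l - k * (1 + a) ^ 2 * q ^ 2)
  hB : 1 + Real.log (1 - a ^ 2) / 2 - l ≤
    a * p - Real.sqrt ((p - kap a) ^ 2 + q ^ 2) - Real.log (p ^ 2 + q ^ 2) / 2

theorem quad_nonneg {α β γ U T : ℝ} (hα : 0 ≤ α) (hγ : 0 ≤ γ) (h : β ^ 2 ≤ 4 * α * γ) :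
    0 ≤ α * U ^ 2 + β * (U * T) + γ * T ^ 2 := by
  rcases hα.lt_or_eq with h1 | h1
  · have : 0 ≤ 4 * α * (α * U ^ 2 + β * (U * T) + γ * T ^ 2) := by
      rw [show 4 * α * (α * U ^ 2 + β * (U * T) + γ * T ^ 2) =
        (2 * α * U + β * T) ^ 2 + (4 * α * γ - β ^ 2) * T ^ 2 by ring]
      exact add_nonneg (sq_nonneg _) (mul_nonneg (sub_nonneg.2 h) (sq_nonneg T))
    have h4 : 0 < 4 * α := by linarith only [h1]
    exact nonneg_of_mul_nonneg_right this h4
  · rw [← h1] at h ⊢
    have : β = 0 := by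
      have : β ^ 2 ≤ 0 := by linarith only [h]
      exact pow_eq_zero_iff (two_ne_zero) |>.1 (le_antisymm this (sq_nonneg _))
    rw [this]
    nlinarith only [hγ, sq_nonneg T]

theorem cauchy_neg {A B T U : ℝ} (h : T ^ 2 + U ^ 2 ≤ 1) :
    -Real.sqrt (A ^ 2 + B ^ 2) ≤ A * T + B * U := by
  have h0 : 0 ≤ A ^ 2 + B ^ 2 := by positivity
  have hs := Real.sq_sqrt h0
  have hn := Real.sqrt_nonneg (A ^ 2 + B ^ 2)
  have h2 : (A * T + B * U) ^ 2 ≤ A ^ 2 + B ^ 2 := by
    have h3 : A ^ 2 + B ^ 2 - (A * T + B * U) ^ 2 =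
        (A ^ 2 + B ^ 2) * (1 - (T ^ 2 + U ^ 2)) + (A * U - B * T) ^ 2 := by ring
    have h4 := mul_nonneg h0 (sub_nonneg.2 h)
    linarith only [h4, sq_nonneg (A * U - B * T)]
  exact (abs_le.1 (Real.abs_le_sqrt h2)).1

theorem pointwise_real {a k l p q T U ρ : ℝ} (h : Cert a k l p q) (hTU : T ^ 2 + U ^ 2 = 1)
    (hρ : 0 ≤ ρ) (hs : 0 < p ^ 2 + q ^ 2) (hζ : 0 < (p + ρ * T) ^ 2 + (q + ρ * U) ^ 2) :
    1 + Real.log (1 - a ^ 2) / 2 - l ≤
      (T * (p + ρ * T) + U * (q + ρ * U)) + a * (p + ρ * T) - kap a * T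
        - Real.log ((p + ρ * T) ^ 2 + (q + ρ * U) ^ 2) / 2 := by
  obtain ⟨a0, a1, hk, hl, hA, hd, hB⟩ := h
  have hT1 : T ≤ 1 := by linarith only [hTU, sq_nonneg U, sq_nonneg (T - 1)]
  have hT0 : -1 ≤ T := by linarith only [hTU, sq_nonneg U, sq_nonneg (T + 1)]
  have hgap := gap_lower a0 a1 hT0 hT1
  set L := 1 + a * T with hL
  have hLpos : 0 < L := by rw [hL]; nlinarith only [a0, a1, hT0]
  have hL1 : L ≤ 1 + a := by rw [hL]; nlinarith only [a0, hT1]
  set x := ρ + (p * T + q * U) with hx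
  set d := p * U - q * T with hd'
  have e1 : T * (p + ρ * T) + U * (q + ρ * U) = x := by
    rw [hx]; linear_combination ρ * hTU
  have e2 : p + ρ * T = x * T + d * U := by
    rw [hx, hd']; linear_combination (-p) * hTU
  have e3 : (p + ρ * T) ^ 2 + (q + ρ * U) ^ 2 = x ^ 2 + d ^ 2 := by
    rw [hx, hd']; linear_combination (ρ ^ 2 - (p ^ 2 + q ^ 2)) * hTU
  rw [e3] at hζ ⊢
  rw [e1]
  have e4 : Real.log ((L * x) ^ 2 + (L * d) ^ 2) = 2 * Real.log L + Real.log (x ^ 2 + d ^ 2) := by
    rw [show (L * x) ^ 2 + (L * d) ^ 2 = L ^ 2 * (x ^ 2 + d ^ 2) by ring,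
      Real.log_mul (by positivity) hζ.ne', Real.log_pow]
    norm_num
  have e5 : x + a * (p + ρ * T) - kap a * T - Real.log (x ^ 2 + d ^ 2) / 2 =
      ff (L * d) (L * x) + a * d * U - kap a * T + Real.log L := by
    unfold ff
    rw [e4, e2, hL]
    ring
  rw [e5]
  have e6 : (p * T + q * U) ^ 2 + d ^ 2 = p ^ 2 + q ^ 2 := by
    rw [hd']; linear_combination (p ^ 2 + q ^ 2) * hTU
  have hdd : d ^ 2 ≤ p ^ 2 + q ^ 2 := by linarith only [e6, sq_nonneg (p * T + q * U)]
  set X0 := L * (p * T + q * U) with hX0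
  have hP : 0 < (L * x) ^ 2 + (L * d) ^ 2 := by
    rw [show (L * x) ^ 2 + (L * d) ^ 2 = L ^ 2 * (x ^ 2 + d ^ 2) by ring]
    positivity
  have hXX : X0 ≤ L * x := by
    rw [hX0, hx]
    exact mul_le_mul_of_nonneg_left (by linarith only [hρ]) hLpos.le
  rcases ff_min hXX hP with h1 | ⟨h1, h2⟩
  · have e7 : ff (L * d) X0 + a * d * U - kap a * T + Real.log L =
        (p - kap a) * T + q * U + a * p - Real.log (p ^ 2 + q ^ 2) / 2 := by
      unfold ff
      rw [hX0, show (L * (p * T + q * U)) ^ 2 + (L * d) ^ 2 =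
        L ^ 2 * ((p * T + q * U) ^ 2 + d ^ 2) by ring, e6,
        Real.log_mul (by positivity) hs.ne', Real.log_pow, hL, hd']
      push_cast
      linear_combination a * p * hTU
    have h3 := cauchy_neg (A := p - kap a) (B := q) hTU.le
    linarith only [hB, h1, e7, h3]
  · have hD2 : (L * d) ^ 2 ≤ (1 + a) ^ 2 * d ^ 2 := by
      rw [mul_pow]
      apply mul_le_mul_of_nonneg_right _ (sq_nonneg d)
      exact pow_le_pow_left₀ hLpos.le hL1 2
    have hD3 : (L * d) ^ 2 ≤ (1 + a) ^ 2 * (p ^ 2 + q ^ 2) :=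
      hD2.trans (mul_le_mul_of_nonneg_left hdd (sq_nonneg _))
    have hmin : (L * d) ^ 2 ≤ min (1 / 4) ((1 + a) ^ 2 * (p ^ 2 + q ^ 2)) := le_min h1 hD3
    have hk0 : 0 ≤ k := by
      have : 0 ≤ min (1 / 4) ((1 + a) ^ 2 * (p ^ 2 + q ^ 2)) := le_min (by norm_num) (by positivity)
      linarith only [hk, this]
    have h3 : (L * d) ^ 2 / 2 + ((L * d) ^ 2) ^ 2 / 2 ≤ k * (1 + a) ^ 2 * d ^ 2 := by
      have h4 : (L * d) ^ 2 * (1 / 2 + (L * d) ^ 2 / 2) ≤ (L * d) ^ 2 * k :=
        mul_le_mul_of_nonneg_left (by linarith only [hk, hmin]) (sq_nonneg _)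
      have h5 : (L * d) ^ 2 * k ≤ (1 + a) ^ 2 * d ^ 2 * k := mul_le_mul_of_nonneg_right hD2 hk0
      linarith only [h4, h5, show (L * d) ^ 2 * (1 / 2 + (L * d) ^ 2 / 2) = (L * d) ^ 2 / 2 + ((L * d) ^ 2) ^ 2 / 2 by ring]
    have h6 := quad_nonneg (U := U) (T := T) hA (sub_nonneg.2 hl) hd
    have h7 : (ww a + a * p - k * (1 + a) ^ 2 * p ^ 2 + l) * U ^ 2 +
        (2 * (k * (1 + a) ^ 2) * p - a) * q * (U * T) + (l - k * (1 + a) ^ 2 * q ^ 2) * T ^ 2 =
        ww a * (1 - T ^ 2) + a * d * U - k * (1 + a) ^ 2 * d ^ 2 + l := by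
      rw [hd']
      linear_combination (ww a + l) * hTU
    rw [h7] at h6
    linarith only [hgap, h2, h3, h6]

theorem pointwise_zero {a T ρ : ℝ} (a0 : 0 ≤ a) (a1 : a < 1) (hT0 : -1 ≤ T) (hT1 : T ≤ 1)
    (hρ : 0 < ρ) :
    1 + Real.log (1 - a ^ 2) / 2 ≤ ρ + a * (ρ * T) - kap a * T - Real.log ρ := by
  have hgap := gap_lower a0 a1 hT0 hT1
  have hw := ww_nonneg a0 a1
  have hL : 0 < 1 + a * T := by nlinarith only [a0, a1, hT0]
  have h1 := Real.log_le_sub_one_of_pos (mul_pos hL hρ)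
  rw [Real.log_mul hL.ne' hρ.ne'] at h1
  have h2 : 0 ≤ 1 - T ^ 2 := by nlinarith only [hT0, hT1]
  have h3 := mul_nonneg hw h2
  linarith only [hgap, h1, h3, show (1 + a * T) * ρ = ρ + a * (ρ * T) by ring]

end Pool.Agent.Lib.MP_af3a4a_an.P1.H80
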