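import Pool.Agent.Lib.MP_af3a4a_an.P1.H80.Loss

/-!
# The certificate M5 (helper80)

`z j` are the `N` nonzero zeros, `c` a centre with subgradients `σ j` (of `|z j - c|`) and
`σ₀` (of `|0 - c|`) with sum zero.
-/

namespace Pool.Agent.Lib.MP_af3a4a_an.P1.H80

open Real ComplexConjugate

/-- subgradients: `c` is a geometric median of `0, z 0, ..., z (N-1)` -/
structure Med (N : ℕ) (z : Fin N → ℂ) (c : ℂ) (σ : Fin N → ℂ) (σ₀ : ℂ) : Prop where
  hσ : ∀ j, ‖σ j‖ ≤ 1
  hσ₀ : ‖σ₀‖ ≤ 1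
  sub : ∀ j, (conj (σ j) * (z j - c)).re = ‖z j - c‖
  sub₀ : (conj σ₀ * (0 - c)).re = ‖c‖
  sum : σ₀ + ∑ j, σ j = 0

/-- the certificate at `s = (c - y)/b` in the direction `e` -/
def CertAt (a l : ℝ) (e s : ℂ) : Prop :=
  0 ≤ a ∧ a < 1 ∧ ((s = 0 ∧ 0 ≤ l) ∨ (s ≠ 0 ∧ ∃ k, Cert a k l (conj e * s).re (conj e * s).im))

theorem norm_sq_re_im (x : ℂ) : ‖x‖ ^ 2 = x.re ^ 2 + x.im ^ 2 := by
  rw [← Complex.normSq_eq_norm_sq, Complex.normSq_apply]; ring

theorem log_norm_eq (x : ℂ) : Real.log ‖x‖ = Real.log (x.re ^ 2 + x.im ^ 2) / 2 := by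
  rw [← norm_sq_re_im, Real.log_pow]
  push_cast
  ring

theorem eq_dir {σ v : ℂ} (hσ : ‖σ‖ ≤ 1) (h : (conj σ * v).re = ‖v‖) (hv : v ≠ 0) :
    v = (‖v‖ : ℂ) * σ ∧ ‖σ‖ = 1 := by
  have hv0 : 0 < ‖v‖ := norm_pos_iff.2 hv
  have h1 : ‖v - (‖v‖ : ℂ) * σ‖ ^ 2 ≤ 0 := by
    have e1 : ‖v - (‖v‖ : ℂ) * σ‖ ^ 2 = ‖v‖ ^ 2 - 2 * ‖v‖ * (conj σ * v).re + ‖v‖ ^ 2 * ‖σ‖ ^ 2 := by
      rw [norm_sq_re_im, norm_sq_re_im σ]
      have : ‖v‖ ^ 2 = v.re ^ 2 + v.im ^ 2 := norm_sq_re_im v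
      simp only [Complex.sub_re, Complex.sub_im, Complex.mul_re, Complex.mul_im, Complex.ofReal_re,
        Complex.ofReal_im, Complex.conj_re, Complex.conj_im]
      linear_combination (-1 : ℝ) * this
    rw [e1, h]
    have : ‖σ‖ ^ 2 ≤ 1 := by nlinarith [norm_nonneg σ]
    nlinarith [sq_nonneg ‖v‖, mul_nonneg (sq_nonneg ‖v‖) (sub_nonneg.2 this)]
  have h2 : v - (‖v‖ : ℂ) * σ = 0 := by
    rw [← norm_eq_zero]
    exact pow_eq_zero_iff (two_ne_zero) |>.1 (le_antisymm h1 (sq_nonneg _))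
  have h3 : v = (‖v‖ : ℂ) * σ := sub_eq_zero.1 h2
  refine ⟨h3, ?_⟩
  have h4 := congrArg norm h3
  rw [norm_mul, Complex.norm_real, norm_norm] at h4
  have : ‖v‖ * (‖σ‖ - 1) = 0 := by linarith
  rcases mul_eq_zero.1 this with h5 | h5
  · exact absurd h5 hv0.ne'
  · linarith

/-- the pointwise inequality -/
theorem pointwise {a l : ℝ} {e s σ ζ : ℂ} (he : ‖e‖ = 1) (hσ : ‖σ‖ ≤ 1)
    (h : (conj σ * (ζ - s)).re = ‖ζ - s‖) (hζ : ζ ≠ 0) (hc : CertAt a l e s) :
    1 + Real.log (1 - a ^ 2) / 2 - l ≤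
      (conj σ * ζ).re + a * (conj e * ζ).re - kap a * (conj e * σ).re - Real.log ‖ζ‖ := by
  obtain ⟨a0, a1, hc⟩ := hc
  have hee : e.re ^ 2 + e.im ^ 2 = 1 := by rw [← norm_sq_re_im, he]; norm_num
  have hes : ∀ x : ℂ, (conj e * x).re ^ 2 + (conj e * x).im ^ 2 = ‖x‖ ^ 2 := by
    intro x
    rw [← norm_sq_re_im, norm_mul, Complex.norm_conj, he, one_mul]
  have hlog : Real.log ‖ζ‖ = Real.log ((conj e * ζ).re ^ 2 + (conj e * ζ).im ^ 2) / 2 := by
    rw [hes, Real.log_pow]; push_cast; ring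
  have hσζ : (conj σ * ζ).re = (conj e * σ).re * (conj e * ζ).re +
      (conj e * σ).im * (conj e * ζ).im := by
    simp only [Complex.mul_re, Complex.mul_im, Complex.conj_re, Complex.conj_im]
    linear_combination (-(σ.re * ζ.re + σ.im * ζ.im)) * hee
  rcases hc with ⟨hs, hl⟩ | ⟨hs, k, hk⟩
  · subst hs
    rw [sub_zero] at h
    obtain ⟨h1, h2⟩ := eq_dir hσ h hζ
    have hT := hes σ
    rw [h2] at hT
    have hT0 : -1 ≤ (conj e * σ).re := by nlinarith [sq_nonneg (conj e * σ).im]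
    have hT1 : (conj e * σ).re ≤ 1 := by nlinarith [sq_nonneg (conj e * σ).im]
    have h3 := pointwise_zero a0 a1 hT0 hT1 (norm_pos_iff.2 hζ)
    rw [h]
    have h4 : (conj e * ζ).re = ‖ζ‖ * (conj e * σ).re := by
      conv_lhs => rw [h1]
      simp only [Complex.mul_re, Complex.mul_im, Complex.ofReal_re, Complex.ofReal_im]
      ring
    rw [h4]
    linarith
  · have hs2 : 0 < (conj e * s).re ^ 2 + (conj e * s).im ^ 2 := by
      rw [hes]
      have := norm_pos_iff.2 hs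
      positivity
    rcases eq_or_ne ζ s with hζs | hζs
    · subst hζs
      rw [hlog, hσζ]
      have h3 := cauchy_neg (A := (conj e * ζ).re - kap a) (B := (conj e * ζ).im)
        (T := (conj e * σ).re) (U := (conj e * σ).im) (by
          rw [hes]
          nlinarith [norm_nonneg σ])
      have := hk.hB
      linarith
    · obtain ⟨h1, h2⟩ := eq_dir hσ h (sub_ne_zero.2 hζs)
      set ρ := ‖ζ - s‖ with hρ
      have hTU := hes σ
      rw [h2] at hTU
      have hz : conj e * ζ = conj e * s + (ρ : ℂ) * (conj e * σ) := by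
        have : ζ = s + (ρ : ℂ) * σ := by rw [← h1]; ring
        conv_lhs => rw [this]
        ring
      have hre : (conj e * ζ).re = (conj e * s).re + ρ * (conj e * σ).re := by
        rw [hz]; simp
      have him : (conj e * ζ).im = (conj e * s).im + ρ * (conj e * σ).im := by
        rw [hz]; simp
      have hpos : 0 < (conj e * ζ).re ^ 2 + (conj e * ζ).im ^ 2 := by
        rw [hes]
        have := norm_pos_iff.2 hζ
        positivity
      have h3 := pointwise_real (T := (conj e * σ).re) (U := (conj e * σ).im) (ρ := ρ) hk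
        (by rw [hTU]; norm_num) (norm_nonneg _) hs2 (by rw [← hre, ← him]; exact hpos)
      rw [hlog, hσζ]
      rw [← hre, ← him] at h3
      linarith

/-- **The certificate M5.** -/
theorem m5 {N : ℕ} {z : Fin N → ℂ} {c : ℂ} {σ : Fin N → ℂ} {σ₀ : ℂ} (hm : Med N z c σ σ₀)
    {a l b : ℝ} {e y : ℂ} (he : ‖e‖ = 1) (hb : 0 < b) (hc : CertAt a l e ((c - y) / b))
    (hy : ∀ j, z j ≠ y) :
    N * b * (1 + Real.log (1 - a ^ 2) / 2 - l - Real.log b)
      + a * (conj e * (N * y - ∑ j, z j)).re - (conj σ₀ * y).re - b * kap a * (conj e * σ₀).re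
      + b * ∑ j, Real.log ‖z j - y‖ ≤ ‖c‖ + ∑ j, ‖z j - c‖ := by
  have hbC : (b : ℂ) ≠ 0 := by exact_mod_cast hb.ne'
  have key : ∀ j, b * (1 + Real.log (1 - a ^ 2) / 2 - l - Real.log b)
      + a * (conj e * (y - z j)).re + (conj (σ j) * y).re + b * kap a * (conj e * σ j).re
      + b * Real.log ‖z j - y‖ ≤ ‖z j - c‖ + (conj (σ j) * c).re := by
    intro j
    have hzy : z j - y ≠ 0 := sub_ne_zero.2 (hy j)
    have h1 : (conj (σ j) * ((z j - y) / b - (c - y) / b)).re = ‖(z j - y) / b - (c - y) / b‖ := by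
      rw [← sub_div, show z j - y - (c - y) = z j - c by ring, norm_div, Complex.norm_real,
        Real.norm_of_nonneg hb.le, ← hm.sub j, ← mul_div_assoc, Complex.div_ofReal_re]
    have h2 := pointwise he (hm.hσ j) h1 (div_ne_zero hzy hbC) hc
    rw [norm_div, Complex.norm_real, Real.norm_of_nonneg hb.le,
      Real.log_div (norm_ne_zero_iff.2 hzy) hb.ne', ← mul_div_assoc, ← mul_div_assoc,
      Complex.div_ofReal_re, Complex.div_ofReal_re] at h2
    have h3 := mul_le_mul_of_nonneg_left h2 hb.le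
    have e1 : b * ((conj (σ j) * (z j - y)).re / b + a * ((conj e * (z j - y)).re / b) -
        kap a * (conj e * σ j).re - (Real.log ‖z j - y‖ - Real.log b)) =
        (conj (σ j) * (z j - y)).re + a * (conj e * (z j - y)).re -
        b * kap a * (conj e * σ j).re - b * Real.log ‖z j - y‖ + b * Real.log b := by
      field_simp
      ring
    rw [e1] at h3
    have h4 := hm.sub j
    have e2 : (conj (σ j) * (z j - y)).re = (conj (σ j) * (z j - c)).re + (conj (σ j) * c).re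
        - (conj (σ j) * y).re := by
      rw [← Complex.add_re, ← Complex.sub_re]; congr 1; ring
    have e3 : (conj e * (z j - y)).re = -(conj e * (y - z j)).re := by
      rw [← Complex.neg_re]; congr 1; ring
    rw [e2, e3, h4] at h3
    linarith
  have hsum := Finset.sum_le_sum (fun j (_ : j ∈ Finset.univ) => key j)
  simp only [Finset.sum_add_distrib, Finset.sum_const, Finset.card_univ, Fintype.card_fin,
    nsmul_eq_mul, ← Finset.mul_sum] at hsum
  have hS : ∑ j, σ j = -σ₀ := by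
    have := hm.sum
    linear_combination this
  have s1 : ∑ j, (conj e * (y - z j)).re = (conj e * (N * y - ∑ j, z j)).re := by
    rw [← Complex.re_sum, ← Finset.mul_sum, Finset.sum_sub_distrib]
    simp
  have s2 : ∀ x : ℂ, ∑ j, (conj (σ j) * x).re = -(conj σ₀ * x).re := by
    intro x
    rw [← Complex.re_sum, ← Finset.sum_mul, ← map_sum, hS, ← Complex.neg_re]
    congr 1
    simp
  have s3 : ∑ j, (conj e * σ j).re = -(conj e * σ₀).re := by
    rw [← Complex.re_sum, ← Finset.mul_sum, hS, ← Complex.neg_re]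
    congr 1
    simp
  rw [s1, s2, s2, s3] at hsum
  have h0 : -(conj σ₀ * c).re = ‖c‖ := by
    rw [← hm.sub₀, ← Complex.neg_re]; congr 1; ring
  rw [h0] at hsum
  linarith

/-- **The certificate M5**, multiplicative form (also for `y` equal to a zero). -/
theorem m5_prod {N : ℕ} {z : Fin N → ℂ} {c : ℂ} {σ : Fin N → ℂ} {σ₀ : ℂ} (hm : Med N z c σ σ₀)
    {a l b : ℝ} {e y : ℂ} (he : ‖e‖ = 1) (hb : 0 < b) (hc : CertAt a l e ((c - y) / b)) :
    ∏ j, ‖y - z j‖ ≤ Real.exp (((‖c‖ + ∑ j, ‖z j - c‖)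
      - N * b * (1 + Real.log (1 - a ^ 2) / 2 - l - Real.log b)
      - a * (conj e * (N * y - ∑ j, z j)).re + (conj σ₀ * y).re
      + b * kap a * (conj e * σ₀).re) / b) := by
  by_cases hy : ∀ j, z j ≠ y
  · have h := m5 hm he hb hc hy
    have hpos : ∀ j, 0 < ‖y - z j‖ := fun j => norm_pos_iff.2 (sub_ne_zero.2 (hy j).symm)
    rw [← Real.log_le_iff_le_exp (Finset.prod_pos fun j _ => hpos j),
      Real.log_prod (fun j _ => (hpos j).ne'), le_div_iff₀ hb]
    have e1 : ∑ j, Real.log ‖y - z j‖ = ∑ j, Real.log ‖z j - y‖ :=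
      Finset.sum_congr rfl fun j _ => by rw [norm_sub_rev]
    rw [e1]
    linarith
  · push Not at hy
    obtain ⟨j, hj⟩ := hy
    rw [Finset.prod_eq_zero (Finset.mem_univ j) (by rw [hj, sub_self, norm_zero])]
    exact (Real.exp_pos _).le

end Pool.Agent.Lib.MP_af3a4a_an.P1.H80
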