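import Pool.Agent.Lib.MP_af3a4a_an.P1.H80.M5

/-!
# Existence of the geometric median with its subgradients (helper80)
-/

namespace Pool.Agent.Lib.MP_af3a4a_an.P1.H80

open Real ComplexConjugate Finset

/-- sum of distances -/
noncomputable def SD {ι : Type*} [Fintype ι] (p : ι → ℂ) (c : ℂ) : ℝ := ∑ i, ‖p i - c‖

theorem exists_min {ι : Type*} [Fintype ι] [Nonempty ι] (p : ι → ℂ) :
    ∃ c, ∀ c', SD p c ≤ SD p c' := by
  have hcont : Continuous (SD p) := by unfold SD; fun_prop
  have hcoe : Filter.Tendsto (SD p) (Filter.cocompact ℂ) Filter.atTop := by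
    obtain ⟨i⟩ := (inferInstance : Nonempty ι)
    have h1 : Filter.Tendsto (fun c : ℂ => ‖p i - c‖) (Filter.cocompact ℂ) Filter.atTop := by
      have h2 : Filter.Tendsto (fun c : ℂ => ‖c‖ - ‖p i‖) (Filter.cocompact ℂ) Filter.atTop :=
        Filter.tendsto_atTop_add_const_right _ _ (tendsto_norm_cocompact_atTop)
      refine Filter.tendsto_atTop_mono (fun c => ?_) h2
      rw [norm_sub_rev]
      exact norm_sub_norm_le c (p i)
    refine Filter.tendsto_atTop_mono (fun c => ?_) h1
    exact Finset.single_le_sum (f := fun i => ‖p i - c‖) (fun _ _ => norm_nonneg _) (mem_univ i)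
  obtain ⟨c, hc⟩ := hcont.exists_forall_le hcoe
  exact ⟨c, hc⟩

/-- direction -/
noncomputable def dir (v : ℂ) : ℂ := v / (‖v‖ : ℂ)

theorem norm_dir {v : ℂ} (hv : v ≠ 0) : ‖dir v‖ = 1 := by
  unfold dir
  rw [norm_div, Complex.norm_real, norm_norm, div_self (norm_ne_zero_iff.2 hv)]

theorem dir_sub {v : ℂ} (hv : v ≠ 0) : (conj (dir v) * v).re = ‖v‖ := by
  unfold dir
  have h : (‖v‖ : ℂ) ≠ 0 := by exact_mod_cast norm_ne_zero_iff.2 hv
  rw [map_div₀, Complex.conj_ofReal, div_mul_eq_mul_div, mul_comm, Complex.mul_conj,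
    Complex.normSq_eq_norm_sq, ← Complex.ofReal_div, Complex.ofReal_re]
  field_simp

/-- upper bound of the norm of a perturbation -/
theorem norm_sub_le_quad {v x : ℂ} (hv : v ≠ 0) :
    ‖v - x‖ ≤ ‖v‖ - (conj (dir v) * x).re + ‖x‖ ^ 2 / (2 * ‖v‖) := by
  have hv0 : 0 < ‖v‖ := norm_pos_iff.2 hv
  have h1 : ‖v - x‖ ^ 2 = ‖v‖ ^ 2 - 2 * ‖v‖ * (conj (dir v) * x).re + ‖x‖ ^ 2 := by
    have e1 : ‖v‖ * (conj (dir v) * x).re = (conj v * x).re := by
      unfold dir
      rw [map_div₀, Complex.conj_ofReal, div_mul_eq_mul_div, Complex.div_ofReal_re]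
      field_simp
    rw [mul_assoc 2, e1, norm_sq_re_im, norm_sq_re_im v, norm_sq_re_im x]
    simp only [Complex.sub_re, Complex.sub_im, Complex.mul_re, Complex.conj_re, Complex.conj_im]
    ring
  have h2 : ‖v - x‖ ≤ (‖v - x‖ ^ 2 + ‖v‖ ^ 2) / (2 * ‖v‖) := by
    rw [le_div_iff₀ (by positivity)]
    nlinarith [sq_nonneg (‖v - x‖ - ‖v‖)]
  refine h2.trans (le_of_eq ?_)
  rw [h1]
  field_simp
  ring

/-- **Existence of the geometric median and of its subgradients.** -/
theorem exists_median {ι : Type*} [Fintype ι] [Nonempty ι] (p : ι → ℂ) :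
    ∃ (c : ℂ) (σ : ι → ℂ), (∀ c', SD p c ≤ SD p c') ∧ (∀ i, ‖σ i‖ ≤ 1) ∧
      (∀ i, (conj (σ i) * (p i - c)).re = ‖p i - c‖) ∧ ∑ i, σ i = 0 := by
  classical
  obtain ⟨c, hc⟩ := exists_min p
  set A : Finset ι := univ.filter fun i => p i = c with hA
  set V : ℂ := ∑ i ∈ univ.filter (fun i => ¬ p i = c), dir (p i - c) with hV
  have hVle : ‖V‖ ≤ (A.card : ℝ) := by
    by_contra hlt
    push Not at hlt
    have hV0 : 0 < ‖V‖ := lt_of_le_of_lt (Nat.cast_nonneg _) hlt
    set Q : ℝ := ∑ i ∈ univ.filter (fun i => ¬ p i = c), 1 / (2 * ‖p i - c‖) with hQ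
    have hQ0 : 0 ≤ Q := sum_nonneg fun i _ => by positivity
    set u : ℂ := dir V with hu
    have hu1 : ‖u‖ = 1 := norm_dir (norm_pos_iff.1 hV0)
    have hstep : ∀ t : ℝ, 0 < t → ‖V‖ - A.card ≤ t * Q := by
      intro t ht
      have h1 := hc (c + t * u)
      have e1 : SD p c = ∑ i ∈ univ.filter (fun i => ¬ p i = c), ‖p i - c‖ := by
        unfold SD
        rw [← sum_filter_add_sum_filter_not univ (fun i => p i = c)]
        rw [sum_eq_zero, zero_add]
        intro i hi
        rw [(mem_filter.1 hi).2, sub_self, norm_zero]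
      have e2 : SD p (c + t * u) ≤ A.card * t +
          ∑ i ∈ univ.filter (fun i => ¬ p i = c), (‖p i - c‖ -
            t * (conj (dir (p i - c)) * u).re + t ^ 2 * (1 / (2 * ‖p i - c‖))) := by
        unfold SD
        rw [← sum_filter_add_sum_filter_not univ (fun i => p i = c)]
        apply add_le_add
        · rw [← nsmul_eq_mul, ← sum_const]
          apply sum_le_sum
          intro i hi
          rw [(mem_filter.1 hi).2, show c - (c + t * u) = -(t * u) by ring, norm_neg, norm_mul,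
            Complex.norm_real, hu1, mul_one, Real.norm_of_nonneg ht.le]
        · apply sum_le_sum
          intro i hi
          have hne : p i - c ≠ 0 := sub_ne_zero.2 (mem_filter.1 hi).2
          have h3 := norm_sub_le_quad (x := t * u) hne
          rw [show p i - (c + t * u) = p i - c - t * u by ring]
          refine h3.trans (le_of_eq ?_)
          rw [norm_mul, Complex.norm_real, hu1, mul_one, Real.norm_of_nonneg ht.le,
            show conj (dir (p i - c)) * (t * u) = t * (conj (dir (p i - c)) * u) by ring,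
            Complex.re_ofReal_mul]
          ring
      have e3 : ∑ i ∈ univ.filter (fun i => ¬ p i = c), (conj (dir (p i - c)) * u).re = ‖V‖ := by
        rw [← Complex.re_sum, ← sum_mul, ← map_sum, ← hV]
        have h4 := dir_sub (norm_pos_iff.1 hV0)
        rw [← h4, ← hu, ← Complex.conj_re (conj u * V), map_mul, Complex.conj_conj, mul_comm]
      rw [sum_add_distrib, sum_sub_distrib, ← mul_sum, ← mul_sum, e3, ← e1, ← hQ] at e2
      have h5 : 0 ≤ t * (A.card - ‖V‖ + t * Q) := by nlinarith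
      have h6 := nonneg_of_mul_nonneg_right h5 ht
      linarith
    have h7 := hstep ((‖V‖ - A.card) / (2 * (Q + 1))) (by
      apply div_pos (by linarith) (by positivity))
    have h8 : (‖V‖ - A.card) / (2 * (Q + 1)) * Q ≤ (‖V‖ - A.card) / 2 := by
      rw [div_mul_eq_mul_div, div_le_div_iff₀ (by positivity) (by norm_num)]
      nlinarith
    linarith
  refine ⟨c, fun i => if p i = c then -V / A.card else dir (p i - c), hc, ?_, ?_, ?_⟩
  · intro i
    by_cases hi : p i = c
    · simp only [hi, if_true]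
      have hcard : 0 < (A.card : ℝ) := by
        have : 0 < A.card := Finset.card_pos.2 ⟨i, by rw [hA]; simp [hi]⟩
        exact_mod_cast this
      rw [norm_div, norm_neg, Complex.norm_natCast, div_le_one hcard]
      exact hVle
    · simp only [hi, if_false]
      exact (norm_dir (sub_ne_zero.2 hi)).le
  · intro i
    by_cases hi : p i = c
    · simp [hi]
    · simp only [hi, if_false]
      exact dir_sub (sub_ne_zero.2 hi)
  · rw [sum_ite, sum_const, ← hA, ← hV, nsmul_eq_mul]
    rcases Nat.eq_zero_or_pos A.card with h0 | h0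
    · have : V = 0 := by
        rw [h0] at hVle
        simpa using hVle
      rw [this]
      simp
    · have : (A.card : ℂ) ≠ 0 := by exact_mod_cast h0.ne'
      field_simp
      ring

/-- the geometric median of `0, z 0, ..., z (N-1)` -/
theorem exists_med {N : ℕ} (z : Fin N → ℂ) :
    ∃ (c : ℂ) (σ : Fin N → ℂ) (σ₀ : ℂ), Med N z c σ σ₀ ∧
      ∀ c' : ℂ, ‖c‖ + ∑ j, ‖z j - c‖ ≤ ‖c'‖ + ∑ j, ‖z j - c'‖ := by
  obtain ⟨c, σ, h1, h2, h3, h4⟩ := exists_median (fun i : Option (Fin N) => i.elim 0 z)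
  refine ⟨c, fun j => σ (some j), σ none, ⟨fun j => h2 _, h2 _, fun j => h3 (some j), ?_, ?_⟩, ?_⟩
  · have := h3 none
    simp only [Option.elim] at this
    rw [this, zero_sub, norm_neg]
  · rw [Fintype.sum_option] at h4
    exact h4
  · intro c'
    have := h1 c'
    simpa [SD, Fintype.sum_option] using this

/-- the subgradient at the zero `0` -/
theorem Med.dir_eq {N : ℕ} {z : Fin N → ℂ} {c : ℂ} {σ : Fin N → ℂ} {σ₀ : ℂ}
    (hm : Med N z c σ σ₀) (hc : c ≠ 0) : c = -((‖c‖ : ℂ) * σ₀) ∧ ‖σ₀‖ = 1 := by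
  have h := eq_dir (v := 0 - c) hm.hσ₀ (by rw [hm.sub₀, zero_sub, norm_neg]) (by simpa using hc)
  rw [zero_sub, norm_neg] at h
  exact ⟨by rw [← h.1, neg_neg], h.2⟩

end Pool.Agent.Lib.MP_af3a4a_an.P1.H80
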