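import Pool.Agent.Lib.MP_af3a4a_an.P1.H80.Normal
import Pool.Agent.Lib.MP_af3a4a_an.P1.H80.GWS

/-!
# `N = 3`, `R ≤ 11/10` (council 2, helper80): the certificate `y = c` and Grace - Walsh - Szegő
-/

namespace Pool.Agent.Lib.MP_af3a4a_an.P1.H80

open Finset MeasureTheory intervalIntegral ComplexConjugate
open Pool.Agent.Lib.MP_af3a4a_an.SV (uu av sq EE)

/-! ### `fI` as a symmetric multiaffine function -/

theorem TT_congr {c c' : ℕ → ℂ} (h : ∀ j, c j = c' j) (us : List ℂ) : TT c us = TT c' us := by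
  have : c = c' := funext h
  rw [this]

theorem TT_int (us : List ℂ) : ∀ (φ : ℝ → ℂ) (y : ℂ), Continuous φ →
    TT (fun j => ∫ s in (0 : ℝ)..1, φ s * (-((s : ℂ) * y)) ^ j) us =
      ∫ s in (0 : ℝ)..1, φ s * (us.map fun u => 1 - (s : ℂ) * (y * u)).prod := by
  induction us with
  | nil => intro φ y _; simp [TT]
  | cons u us ih =>
    intro φ y hφ
    unfold TT
    have h1 := ih (fun s => φ s * (1 - (s : ℂ) * (y * u))) y (by fun_prop)
    have h2 : ∀ j : ℕ, (∫ s in (0 : ℝ)..1, φ s * (-((s : ℂ) * y)) ^ j) +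
        u * ∫ s in (0 : ℝ)..1, φ s * (-((s : ℂ) * y)) ^ (j + 1) =
        ∫ s in (0 : ℝ)..1, φ s * (1 - (s : ℂ) * (y * u)) * (-((s : ℂ) * y)) ^ j := by
      intro j
      rw [← intervalIntegral.integral_const_mul, ← intervalIntegral.integral_add]
      · congr 1
        funext s
        rw [pow_succ]
        ring
      · apply Continuous.intervalIntegrable
        fun_prop
      · apply Continuous.intervalIntegrable
        fun_prop
    rw [TT_congr h2, h1]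
    congr 1
    funext s
    simp only [List.map_cons, List.prod_cons]
    ring

theorem int_pow (y : ℂ) (j : ℕ) :
    ∫ s in (0 : ℝ)..1, (1 : ℂ) * (-((s : ℂ) * y)) ^ j = (-y) ^ j / ((j : ℂ) + 1) := by
  have h1 : ∀ s : ℝ, (1 : ℂ) * (-((s : ℂ) * y)) ^ j = (-y) ^ j * ((s ^ j : ℝ) : ℂ) := by
    intro s
    have : -((s : ℂ) * y) = (-y) * (s : ℂ) := by ring
    rw [this, mul_pow]
    push_cast
    ring
  simp only [h1]
  rw [intervalIntegral.integral_const_mul, intervalIntegral.integral_ofReal, integral_pow]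
  simp
  ring

/-- `fI` is the symmetric multiaffine function with coefficients `(-y)^j/(j+1)` -/
theorem fI_TT {N : ℕ} (w : Fin N → ℂ) (y : ℂ) :
    fI w y = TT (fun j => (-y) ^ j / ((j : ℂ) + 1)) (List.ofFn (uu w)) := by
  have h1 := TT_int (List.ofFn (uu w)) (fun _ => 1) y continuous_const
  have h2 : ∀ j : ℕ, (∫ s in (0 : ℝ)..1, (1 : ℂ) * (-((s : ℂ) * y)) ^ j) =
      (-y) ^ j / ((j : ℂ) + 1) := int_pow y
  rw [TT_congr h2] at h1
  rw [h1]
  unfold fI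
  congr 1
  funext s
  rw [one_mul, List.map_ofFn, List.prod_ofFn]
  rfl

/-- the diagonal polynomial of `fI`: `y (n+1) p(z) z = (1 - (1 - y z)^(n+1))` -/
theorem diag_fI (n : ℕ) (y z : ℂ) :
    (∑ j ∈ range (n + 1), (-y) ^ j / ((j : ℂ) + 1) * (n.choose j : ℂ) * z ^ j) *
      (((n : ℂ) + 1) * (y * z)) = 1 - (1 - y * z) ^ (n + 1) := by
  have h1 : (1 - y * z) ^ (n + 1) = ∑ j ∈ range (n + 2), (-(y * z)) ^ j * ((n + 1).choose j : ℂ) := by
    have := (add_pow (-(y * z)) 1 (n + 1))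
    rw [show (1 : ℂ) - y * z = -(y * z) + 1 by ring, this]
    refine Finset.sum_congr rfl fun j _ => ?_
    rw [one_pow, mul_one]
  rw [h1, Finset.sum_range_succ' _ (n + 1), Finset.sum_mul]
  simp only [pow_zero, Nat.choose_zero_right, Nat.cast_one, mul_one]
  rw [sub_add_eq_sub_sub_swap, sub_self, zero_sub, ← Finset.sum_neg_distrib]
  refine Finset.sum_congr rfl fun j _ => ?_
  have h2 := Nat.add_one_mul_choose_eq n j
  have h3 : ((n : ℂ) + 1) * (n.choose j : ℂ) = ((n + 1).choose (j + 1) : ℂ) * ((j : ℂ) + 1) := by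
    exact_mod_cast h2
  have h4 : ((j : ℂ) + 1) ≠ 0 := by
    have : ((j : ℂ) + 1) = ((j + 1 : ℕ) : ℂ) := by push_cast; ring
    rw [this]
    exact_mod_cast Nat.succ_ne_zero j
  have h5 : (-y) ^ j / ((j : ℂ) + 1) * (n.choose j : ℂ) * z ^ j * (((n : ℂ) + 1) * (y * z)) =
      (-y) ^ j * z ^ j * (y * z) * ((((n : ℂ) + 1) * (n.choose j : ℂ)) / ((j : ℂ) + 1)) := by
    ring
  rw [h5, h3, mul_div_assoc, div_self h4]
  have h6 : (-(y * z)) ^ (j + 1) = -((-y) ^ j * z ^ j * (y * z)) := by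
    rw [pow_succ, show -(y * z) = (-y) * z by ring, mul_pow]
    ring
  rw [h6]
  ring

/-- transfer of an inequality `K |g| ≤ |f|` from the diagonal -/
theorem gws_le {us : List ℂ} (hu : ∀ u ∈ us, ‖u‖ ≤ 1) {f g : ℕ → ℂ} {K : ℝ}
    (hf : ∀ z : ℂ, ‖z‖ ≤ 1 →
      ∑ j ∈ range (us.length + 1), f j * (us.length.choose j : ℂ) * z ^ j ≠ 0)
    (h : ∀ z : ℂ, ‖z‖ ≤ 1 →
      K * ‖∑ j ∈ range (us.length + 1), g j * (us.length.choose j : ℂ) * z ^ j‖ ≤
        ‖∑ j ∈ range (us.length + 1), f j * (us.length.choose j : ℂ) * z ^ j‖) :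
    K * ‖TT g us‖ ≤ ‖TT f us‖ := by
  by_contra hcon
  push Not at hcon
  have hg0 : TT g us ≠ 0 := by
    intro h0
    rw [h0, norm_zero, mul_zero] at hcon
    exact absurd hcon (not_lt.2 (norm_nonneg _))
  set ω := TT f us / TT g us with hω
  have hωn : ‖ω‖ < K := by
    rw [hω, norm_div, div_lt_iff₀ (norm_pos_iff.2 hg0)]
    exact hcon
  have hlin : ∀ (us : List ℂ) (f g : ℕ → ℂ) (ω : ℂ),
      TT (fun j => f j - ω * g j) us = TT f us - ω * TT g us := by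
    intro us
    induction us with
    | nil => intro f g ω; simp [TT]
    | cons u us ih =>
      intro f g ω
      unfold TT
      rw [← ih]
      apply TT_congr
      intro j
      ring
  have hz : TT (fun j => f j - ω * g j) us = 0 := by
    rw [hlin, hω]
    field_simp
    ring
  refine gws us _ hu ?_ hz
  intro z hz1 h0
  have h1 : ∑ j ∈ range (us.length + 1), f j * (us.length.choose j : ℂ) * z ^ j =
      ω * ∑ j ∈ range (us.length + 1), g j * (us.length.choose j : ℂ) * z ^ j := by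
    rw [← sub_eq_zero, ← h0, Finset.mul_sum, ← Finset.sum_sub_distrib]
    exact Finset.sum_congr rfl fun j _ => by ring
  have h2 := h z hz1
  rw [h1, norm_mul] at h2
  have h3 := hf z hz1
  rw [h1] at h3
  have h4 : 0 < ‖∑ j ∈ range (us.length + 1), g j * (us.length.choose j : ℂ) * z ^ j‖ :=
    norm_pos_iff.2 (right_ne_zero_of_mul h3)
  have h5 := mul_lt_mul_of_pos_right hωn h4
  linarith

/-- maximum principle: it is enough to compare on the circle -/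
theorem circle_le {F G : ℂ → ℂ} (hF : Differentiable ℂ F) (hG : Differentiable ℂ G) {K : ℝ}
    (hK : 0 ≤ K) (hF0 : ∀ z : ℂ, ‖z‖ ≤ 1 → F z ≠ 0)
    (h : ∀ z : ℂ, ‖z‖ = 1 → K * ‖G z‖ ≤ ‖F z‖) {z : ℂ} (hz : ‖z‖ ≤ 1) :
    K * ‖G z‖ ≤ ‖F z‖ := by
  have h1 : ‖(fun z => (K : ℂ) * G z / F z) z‖ ≤ 1 := by
    apply Complex.norm_le_of_forall_mem_frontier_norm_le (U := Metric.ball 0 1)
      (f := fun z => (K : ℂ) * G z / F z) Metric.isBounded_ball
    · constructor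
      · intro x hx
        rw [mem_ball_zero_iff] at hx
        exact (((hG x).const_mul _).div (hF x) (hF0 x hx.le)).differentiableWithinAt
      · rw [closure_ball (0 : ℂ) one_ne_zero]
        apply ContinuousOn.div
        · exact (continuous_const.mul hG.continuous).continuousOn
        · exact hF.continuous.continuousOn
        · intro x hx
          rw [mem_closedBall_zero_iff] at hx
          exact hF0 x hx
    · intro x hx
      rw [frontier_ball (0 : ℂ) one_ne_zero, mem_sphere_zero_iff_norm] at hx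
      rw [norm_div, norm_mul, Complex.norm_real]
      have h2 := h x hx
      have h3 : 0 < ‖F x‖ := norm_pos_iff.2 (hF0 x hx.le)
      rw [Real.norm_of_nonneg hK]
      exact (div_le_one h3).2 h2
    · rw [closure_ball (0 : ℂ) one_ne_zero, mem_closedBall_zero_iff]
      exact hz
  simp only at h1
  rw [norm_div, norm_mul, Complex.norm_real, Real.norm_of_nonneg hK] at h1
  exact (div_le_one (norm_pos_iff.2 (hF0 z hz))).1 h1

/-! ### The case `N = 3` -/

/-- the coefficients of `g = 1 + k E₂(u - 1)` -/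
noncomputable def gc (k : ℝ) : ℕ → ℂ
  | 0 => 1 + k
  | 1 => -(2 * k / 3)
  | 2 => k / 3
  | _ => 0

theorem TT_three (c : ℕ → ℂ) (a b d : ℂ) :
    TT c [a, b, d] = c 0 + (a + b + d) * c 1 + (a * b + a * d + b * d) * c 2 + a * b * d * c 3 := by
  simp only [TT]
  ring

/-- lower bound of `g` -/
theorem gc_lower {k : ℝ} (hk : 0 ≤ k) {u : Fin 3 → ℂ} (hu : ∀ j, ‖u j‖ ≤ 1) :
    1 - k * (av u).im ^ 2 ≤ ‖TT (gc k) [u 0, u 1, u 2]‖ := by
  have hre : ∀ j, 0 ≤ 1 - (u j).re := fun j => by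
    have := (Complex.re_le_norm (u j)).trans (hu j)
    linarith
  refine le_trans ?_ (Complex.re_le_norm _)
  rw [TT_three]
  have him : (av u).im = ((u 0).im + (u 1).im + (u 2).im) / 3 := by
    unfold av
    rw [Fin.sum_univ_three]
    have : (1 / ((3 : ℕ) : ℂ)) * (u 0 + u 1 + u 2) = ((1 / 3 : ℝ) : ℂ) * (u 0 + u 1 + u 2) := by
      push_cast; ring
    rw [this, Complex.im_ofReal_mul]
    simp only [Complex.add_im]
    ring
  rw [him]
  have e : (gc k 0 + (u 0 + u 1 + u 2) * gc k 1 + (u 0 * u 1 + u 0 * u 2 + u 1 * u 2) * gc k 2 +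
      u 0 * u 1 * u 2 * gc k 3).re = 1 + k / 3 * ((1 - (u 0).re) * (1 - (u 1).re) +
      (1 - (u 0).re) * (1 - (u 2).re) + (1 - (u 1).re) * (1 - (u 2).re) -
      ((u 0).im * (u 1).im + (u 0).im * (u 2).im + (u 1).im * (u 2).im)) := by
    have e0 : gc k 0 + (u 0 + u 1 + u 2) * gc k 1 + (u 0 * u 1 + u 0 * u 2 + u 1 * u 2) * gc k 2 +
        u 0 * u 1 * u 2 * gc k 3 = 1 + ((k / 3 : ℝ) : ℂ) * (u 0 * u 1 + u 0 * u 2 + u 1 * u 2 -
        2 * (u 0 + u 1 + u 2) + 3) := by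
      simp only [gc]
      push_cast
      ring
    rw [e0, Complex.add_re, Complex.re_ofReal_mul, Complex.one_re]
    simp only [Complex.add_re, Complex.sub_re, Complex.mul_re, Complex.re_ofNat, Complex.im_ofNat,
      Complex.add_im]
    ring
  rw [e]
  have h01 := mul_nonneg (hre 0) (hre 1)
  have h02 := mul_nonneg (hre 0) (hre 2)
  have h12 := mul_nonneg (hre 1) (hre 2)
  have hq : (u 0).im * (u 1).im + (u 0).im * (u 2).im + (u 1).im * (u 2).im ≤
      ((u 0).im + (u 1).im + (u 2).im) ^ 2 / 3 := by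
    nlinarith [sq_nonneg ((u 0).im - (u 1).im), sq_nonneg ((u 0).im - (u 2).im),
      sq_nonneg ((u 1).im - (u 2).im)]
  have hk3 : 0 ≤ k / 3 := by linarith
  have := mul_le_mul_of_nonneg_left hq hk3
  nlinarith [mul_nonneg hk3 h01, mul_nonneg hk3 h02, mul_nonneg hk3 h12]

/-- the diagonal polynomial of `4 fI` for `N = 3` -/
noncomputable def F3 (R : ℝ) (z : ℂ) : ℂ := (2 - R * z) * (2 - 2 * (R * z) + (R * z) ^ 2)

noncomputable def G3 (k : ℝ) (z : ℂ) : ℂ := 1 + k * (z - 1) ^ 2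

theorem F3_ne {R : ℝ} (h0 : 0 ≤ R) (h1 : R ≤ 11 / 10) {z : ℂ} (hz : ‖z‖ ≤ 1) : F3 R z ≠ 0 := by
  have hx : ‖(R : ℂ) * z‖ ≤ 11 / 10 := by
    rw [norm_mul, Complex.norm_real, Real.norm_of_nonneg h0]
    nlinarith [norm_nonneg z]
  unfold F3
  apply mul_ne_zero
  · intro h
    have : (R : ℂ) * z = 2 := by linear_combination -h
    rw [this, Complex.norm_ofNat] at hx
    norm_num at hx
  · intro h
    have h2 : ((R : ℂ) * z - 1 - Complex.I) * ((R : ℂ) * z - 1 + Complex.I) = 0 := by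
      have := Complex.I_sq
      linear_combination h - this
    have h3 : ∀ e : ℂ, (R : ℂ) * z = e → ‖e‖ ^ 2 = 2 → False := by
      intro e he hn
      rw [he] at hx
      nlinarith [norm_nonneg e]
    rcases mul_eq_zero.1 h2 with h | h
    · refine h3 (1 + Complex.I) (by linear_combination h) ?_
      rw [norm_sq_re_im]; simp; norm_num
    · refine h3 (1 - Complex.I) (by linear_combination h) ?_
      rw [norm_sq_re_im]; simp; norm_num

/-- the squares on the circle -/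
theorem F3_sq {R : ℝ} {z : ℂ} (hz : ‖z‖ = 1) : ‖F3 R z‖ ^ 2 =
    (4 - 4 * R * z.re + R ^ 2) * (4 + R ^ 4 - 8 * R * z.re - 4 * R ^ 3 * z.re
      + 8 * R ^ 2 * z.re ^ 2) := by
  have h1 : z.re ^ 2 + z.im ^ 2 = 1 := by
    rw [← norm_sq_re_im, hz]; norm_num
  have a1 : ‖(2 : ℂ) - R * z‖ ^ 2 = 4 - 4 * R * z.re + R ^ 2 := by
    have r1 : ((2 : ℂ) - R * z).re = 2 - R * z.re := by simp
    have r2 : ((2 : ℂ) - R * z).im = -(R * z.im) := by simp
    rw [norm_sq_re_im, r1, r2]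
    linear_combination R ^ 2 * h1
  have a2 : ‖(2 : ℂ) - 2 * (R * z) + (R * z) ^ 2‖ ^ 2 =
      4 + R ^ 4 - 8 * R * z.re - 4 * R ^ 3 * z.re + 8 * R ^ 2 * z.re ^ 2 := by
    have r1 : ((2 : ℂ) - 2 * (R * z) + (R * z) ^ 2).re =
        2 - 2 * (R * z.re) + R ^ 2 * (z.re ^ 2 - z.im ^ 2) := by
      simp [pow_two]
      ring
    have r2 : ((2 : ℂ) - 2 * (R * z) + (R * z) ^ 2).im =
        -(2 * (R * z.im)) + 2 * R ^ 2 * z.re * z.im := by
      simp [pow_two]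
      ring
    rw [norm_sq_re_im, r1, r2]
    linear_combination (R ^ 4 * (z.re ^ 2 + z.im ^ 2 + 1) - 4 * R ^ 3 * z.re) * h1
  unfold F3
  rw [norm_mul, mul_pow, a1, a2]

theorem G3_sq {k : ℝ} {z : ℂ} (hz : ‖z‖ = 1) : ‖G3 k z‖ ^ 2 =
    1 - 4 * k * (1 - z.re) * z.re + 4 * k ^ 2 * (1 - z.re) ^ 2 := by
  have h1 : z.re ^ 2 + z.im ^ 2 = 1 := by
    rw [← norm_sq_re_im, hz]; norm_num
  have r1 : (G3 k z).re = 1 + k * ((z.re - 1) ^ 2 - z.im ^ 2) := by
    unfold G3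
    simp [pow_two]
  have r2 : (G3 k z).im = 2 * k * (z.re - 1) * z.im := by
    unfold G3
    simp [pow_two]
    ring
  rw [norm_sq_re_im, r1, r2]
  linear_combination (-2 * k + k ^ 2 * (4 - 4 * z.re + (z.re ^ 2 + z.im ^ 2 - 1))) * h1

/-- the constant `K = (1 - (1 - R)^4)/R` -/
noncomputable def K3 (R : ℝ) : ℝ := (2 - R) * (2 - 2 * R + R ^ 2)

theorem K3_pos {R : ℝ} (h1 : R ≤ 11 / 10) : 0 < K3 R := by
  unfold K3
  apply mul_pos (by linarith)
  nlinarith [sq_nonneg (R - 1)]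

/-- `e^(1-R) ≤ K` -/
theorem exp_le_K3 {R : ℝ} (h0 : 0 ≤ R) (h1 : R ≤ 11 / 10) : Real.exp (1 - R) ≤ K3 R := by
  unfold K3
  rcases le_total R 1 with h | h
  · have h2 := Real.exp_bound' (x := 1 - R) (by linarith) (by linarith) (n := 2) (by norm_num)
    simp only [Finset.sum_range_succ, Finset.sum_range_zero, Nat.factorial, pow_zero, pow_one]
      at h2
    norm_num at h2
    have h3 : 0 ≤ (1 - R) ^ 2 := sq_nonneg _
    have h4 : 0 ≤ (1 - R) ^ 3 := pow_nonneg (by linarith) 3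
    nlinarith
  · set s := R - 1 with hs
    have hs0 : 0 ≤ s := by linarith
    have hs1 : s ≤ 1 / 10 := by linarith
    have h2 := Real.quadratic_le_exp_of_nonneg hs0
    have h3 : Real.exp (1 - R) * Real.exp s = 1 := by
      rw [← Real.exp_add]
      have : 1 - R + s = 0 := by rw [hs]; ring
      rw [this, Real.exp_zero]
    have hR : R = 1 + s := by rw [hs]; ring
    have h4 : 1 ≤ (2 - R) * (2 - 2 * R + R ^ 2) * (1 + s + s ^ 2 / 2) := by
      rw [hR]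
      have h5 : (2 - (1 + s)) * (2 - 2 * (1 + s) + (1 + s) ^ 2) * (1 + s + s ^ 2 / 2) =
          1 + s ^ 2 / 2 * (1 - s - s ^ 2 - s ^ 3) := by ring
      rw [h5]
      have h6 : 0 ≤ 1 - s - s ^ 2 - s ^ 3 := by
        have : s ^ 2 ≤ s * 1 := by nlinarith
        have : s ^ 3 ≤ s * 1 := by nlinarith [pow_nonneg hs0 2, pow_nonneg hs0 3]
        linarith
      have := mul_nonneg (by positivity : 0 ≤ s ^ 2 / 2) h6
      linarith
    have hK : 0 < (2 - R) * (2 - 2 * R + R ^ 2) := K3_pos h1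
    have h7 : 1 ≤ (2 - R) * (2 - 2 * R + R ^ 2) * Real.exp s :=
      h4.trans (mul_le_mul_of_nonneg_left h2 hK.le)
    have h8 : 0 < Real.exp s := Real.exp_pos s
    have h9 : Real.exp (1 - R) * Real.exp s ≤ (2 - R) * (2 - 2 * R + R ^ 2) * Real.exp s := by
      rw [h3]; exact h7
    exact le_of_mul_le_mul_right h9 h8

/-- the circle inequality, `R ≤ 9/10`, `k = 0` -/
theorem circle_a {R x : ℝ} (h0 : 0 ≤ R) (h1 : R ≤ 9 / 10) (hx : x ≤ 1) :
    K3 R ^ 2 ≤ (4 - 4 * R * x + R ^ 2) * (4 + R ^ 4 - 8 * R * x - 4 * R ^ 3 * x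
      + 8 * R ^ 2 * x ^ 2) := by
  unfold K3
  obtain ⟨w, rfl⟩ : ∃ w, x = 1 - w := ⟨1 - x, by ring⟩
  have hw : 0 ≤ w := by linarith
  have hq : 0 ≤ 32 - 64 * R + 48 * R ^ 2 - 24 * R ^ 3 + 7 * R ^ 4 := by
    obtain ⟨t, ht⟩ : ∃ t, t = 9 / 10 - R := ⟨_, rfl⟩
    have ht0 : 0 ≤ t := by linarith
    have ht1 : t ≤ 1 := by linarith
    have hR : R = 9 / 10 - t := by linarith
    have e : 32 - 64 * R + 48 * R ^ 2 - 24 * R ^ 3 + 7 * R ^ 4 =
        3767 / 10000 + 15508 / 1000 * t + 1722 / 100 * t ^ 2 - 12 / 10 * t ^ 3 + 7 * t ^ 4 := by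
      rw [hR]; ring
    rw [e]
    have h2 : 0 ≤ t ^ 2 := sq_nonneg t
    have h3 : t ^ 3 ≤ t ^ 2 := by nlinarith
    have h4 : 0 ≤ t ^ 4 := by positivity
    nlinarith
  have hm : 0 ≤ (12 - 32 * R + 30 * R ^ 2 - 12 * R ^ 3 + 2 * R ^ 4) +
      2 * R * (8 - 12 * R + 3 * R ^ 2) * w + 8 * R ^ 2 * w ^ 2 := by
    nlinarith [sq_nonneg (8 * R * w + (8 - 12 * R + 3 * R ^ 2))]
  have hRw : 0 ≤ 4 * R * w := by positivity
  have := mul_nonneg hRw hm
  nlinarith

/-- the circle inequality, `9/10 ≤ R ≤ 11/10`, `k = 11/20` -/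
theorem circle_b {R x : ℝ} (h0 : 9 / 10 ≤ R) (h1 : R ≤ 11 / 10) (hx : x ≤ 1) :
    K3 R ^ 2 * (1 - 4 * (11 / 20) * (1 - x) * x + 4 * (11 / 20) ^ 2 * (1 - x) ^ 2) ≤
      (4 - 4 * R * x + R ^ 2) * (4 + R ^ 4 - 8 * R * x - 4 * R ^ 3 * x
      + 8 * R ^ 2 * x ^ 2) := by
  unfold K3
  obtain ⟨w, rfl⟩ : ∃ w, x = 1 - w := ⟨1 - x, by ring⟩
  obtain ⟨t, rfl⟩ : ∃ t, R = 1 + t := ⟨R - 1, by ring⟩
  have hw : 0 ≤ w := by linarith
  have ht0 : -(1 / 10) ≤ t := by linarith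
  have ht1 : t ≤ 1 / 10 := by linarith
  set K2 : ℝ := (1 - t) ^ 2 * (1 + t ^ 2) ^ 2 with hK2
  have hs2 : 0 ≤ t ^ 2 := sq_nonneg t
  have hs2' : t ^ 2 ≤ 1 / 100 := by nlinarith
  -- (i)
  have i1 : 0 ≤ 8 * t ^ 2 * (1 + t) * (3 - 2 * t + t ^ 2) + 4 * (11 / 20) * K2 -
      (213 / 1000) ^ 2 * (32 * (1 + t) ^ 3) := by
    have hK : (1 - t) ^ 2 * (1 + 2 * t ^ 2) ≤ K2 := by
      rw [hK2]
      apply mul_le_mul_of_nonneg_left _ (sq_nonneg _)
      nlinarith [sq_nonneg (t ^ 2)]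
    have h2 := mul_nonneg (by linarith : 0 ≤ 1 / 10 - t) (by linarith : 0 ≤ 1 / 10 + t)
    nlinarith [mul_nonneg h2 hs2, mul_nonneg (by linarith : 0 ≤ 1 / 10 - t) hs2,
      mul_nonneg (mul_nonneg h2 hs2) (by linarith : 0 ≤ 1 / 10 - t)]
  -- (ii)
  have i2 : 0 ≤ 8 * (1 + t) ^ 2 * (-1 - 6 * t + 3 * t ^ 2) - 4 * (11 / 20) * (31 / 20) * K2 +
      2 * (213 / 1000) * (32 * (1 + t) ^ 3) := by
    have hK : K2 ≤ (1 - t) ^ 2 * (1 + 201 / 100 * t ^ 2) := by
      rw [hK2]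
      apply mul_le_mul_of_nonneg_left _ (sq_nonneg _)
      nlinarith [sq_nonneg (t ^ 2)]
    have h2 := mul_nonneg (by linarith : 0 ≤ 1 / 10 - t) (by linarith : 0 ≤ 1 / 10 + t)
    nlinarith [mul_nonneg h2 hs2, mul_nonneg (by linarith : 0 ≤ 1 / 10 - t) hs2,
      mul_nonneg (mul_nonneg h2 hs2) (by linarith : 0 ≤ 1 / 10 - t)]
  have hd2 : 0 ≤ 32 * (1 + t) ^ 3 := by
    have : 0 ≤ 1 + t := by linarith
    positivity
  have hm : 0 ≤ (8 * t ^ 2 * (1 + t) * (3 - 2 * t + t ^ 2) + 4 * (11 / 20) * K2) +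
      (8 * (1 + t) ^ 2 * (-1 - 6 * t + 3 * t ^ 2) - 4 * (11 / 20) * (31 / 20) * K2) * w +
      32 * (1 + t) ^ 3 * w ^ 2 := by
    have h3 := mul_nonneg i2 hw
    have h4 := mul_nonneg hd2 (sq_nonneg (w - 213 / 1000))
    nlinarith
  have := mul_nonneg hw hm
  have e : (4 - 4 * (1 + t) * (1 - w) + (1 + t) ^ 2) * (4 + (1 + t) ^ 4 -
      8 * (1 + t) * (1 - w) - 4 * (1 + t) ^ 3 * (1 - w) + 8 * (1 + t) ^ 2 * (1 - w) ^ 2) -
      ((2 - (1 + t)) * (2 - 2 * (1 + t) + (1 + t) ^ 2)) ^ 2 * (1 - 4 * (11 / 20) *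
      (1 - (1 - w)) * (1 - w) + 4 * (11 / 20) ^ 2 * (1 - (1 - w)) ^ 2) =
      w * ((8 * t ^ 2 * (1 + t) * (3 - 2 * t + t ^ 2) + 4 * (11 / 20) * K2) +
      (8 * (1 + t) ^ 2 * (-1 - 6 * t + 3 * t ^ 2) - 4 * (11 / 20) * (31 / 20) * K2) * w +
      32 * (1 + t) ^ 3 * w ^ 2) := by
    rw [hK2]
    ring
  linarith

/-- the coefficients of `4 fI` -/
noncomputable def fc (R : ℝ) (j : ℕ) : ℂ := 4 * ((-(R : ℂ)) ^ j / ((j : ℂ) + 1))

theorem fc_diag (R : ℝ) (z : ℂ) :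
    ∑ j ∈ range (3 + 1), fc R j * (Nat.choose 3 j : ℂ) * z ^ j = F3 R z := by
  simp only [Finset.sum_range_succ, Finset.sum_range_zero, fc, F3]
  norm_num [Nat.choose]
  ring

theorem gc_diag (k : ℝ) (z : ℂ) :
    ∑ j ∈ range (3 + 1), gc k j * (Nat.choose 3 j : ℂ) * z ^ j = G3 k z := by
  simp only [Finset.sum_range_succ, Finset.sum_range_zero, gc, G3]
  norm_num [Nat.choose]
  ring

theorem F3_diff (R : ℝ) : Differentiable ℂ (F3 R) := by
  unfold F3
  fun_prop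

theorem G3_diff (k : ℝ) : Differentiable ℂ (G3 k) := by
  unfold G3
  fun_prop

/-- comparison on the closed disc -/
theorem disc_le {R k : ℝ} (h0 : 0 ≤ R) (h1 : R ≤ 11 / 10)
    (h : ∀ x : ℝ, x ≤ 1 → K3 R ^ 2 * (1 - 4 * k * (1 - x) * x + 4 * k ^ 2 * (1 - x) ^ 2) ≤
      (4 - 4 * R * x + R ^ 2) * (4 + R ^ 4 - 8 * R * x - 4 * R ^ 3 * x + 8 * R ^ 2 * x ^ 2))
    {z : ℂ} (hz : ‖z‖ ≤ 1) : K3 R * ‖G3 k z‖ ≤ ‖F3 R z‖ := by
  have hK := (K3_pos h1).le
  refine circle_le (F3_diff R) (G3_diff k) hK (fun z hz => F3_ne h0 h1 hz) ?_ hz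
  intro z hz
  have hx : z.re ≤ 1 := (Complex.re_le_norm z).trans hz.le
  have h2 := h z.re hx
  rw [← F3_sq hz, ← G3_sq hz, ← mul_pow] at h2
  exact (pow_le_pow_iff_left₀ (mul_nonneg hK (norm_nonneg _)) (norm_nonneg _) two_ne_zero).1 h2

/-- lower bound of `4 |fI|` for `N = 3` -/
theorem fI3_lower {w : Fin 3 → ℂ} (hu : ∀ k, ‖uu w k‖ ≤ 1) {R : ℝ} (h0 : 0 ≤ R)
    (h1 : R ≤ 11 / 10) :
    K3 R * (1 - 11 / 20 * (av (uu w)).im ^ 2) ≤ 4 * ‖fI w (R : ℂ)‖ := by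
  have hK := (K3_pos h1).le
  have hmem : ∀ u ∈ [uu w 0, uu w 1, uu w 2], ‖u‖ ≤ 1 := by
    intro u hu'
    simp only [List.mem_cons, List.not_mem_nil, or_false] at hu'
    rcases hu' with rfl | rfl | rfl
    · exact hu 0
    · exact hu 1
    · exact hu 2
  have hlist : List.ofFn (uu w) = [uu w 0, uu w 1, uu w 2] := by
    simp [List.ofFn_succ]
  have hlin : ∀ (us : List ℂ) (f : ℕ → ℂ) (a : ℂ), TT (fun j => a * f j) us = a * TT f us := by
    intro us
    induction us with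
    | nil => intro f a; simp [TT]
    | cons u us ih =>
      intro f a
      unfold TT
      rw [← ih]
      apply TT_congr
      intro j
      ring
  have hfI : TT (fc R) [uu w 0, uu w 1, uu w 2] = 4 * fI w (R : ℂ) := by
    rw [fI_TT, ← hlist, ← hlin]
    rfl
  have key : ∀ k : ℝ, (∀ x : ℝ, x ≤ 1 → K3 R ^ 2 *
      (1 - 4 * k * (1 - x) * x + 4 * k ^ 2 * (1 - x) ^ 2) ≤
      (4 - 4 * R * x + R ^ 2) * (4 + R ^ 4 - 8 * R * x - 4 * R ^ 3 * x + 8 * R ^ 2 * x ^ 2)) →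
      0 ≤ k → K3 R * (1 - k * (av (uu w)).im ^ 2) ≤ 4 * ‖fI w (R : ℂ)‖ := by
    intro k hk hk0
    have h2 := gws_le (us := [uu w 0, uu w 1, uu w 2]) hmem (f := fc R) (g := gc k) (K := K3 R)
      (fun z hz => by
        have : [uu w 0, uu w 1, uu w 2].length = 3 := rfl
        rw [this, fc_diag]
        exact F3_ne h0 h1 hz)
      (fun z hz => by
        have : [uu w 0, uu w 1, uu w 2].length = 3 := rfl
        rw [this, fc_diag, gc_diag]
        exact disc_le h0 h1 hk hz)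
    rw [hfI, norm_mul, Complex.norm_ofNat] at h2
    exact (mul_le_mul_of_nonneg_left (gc_lower hk0 hu) hK).trans h2
  rcases le_total R (9 / 10) with h | h
  · have h2 := key 0 (fun x hx => by
      have := circle_a h0 h hx
      simpa using this) le_rfl
    have h3 : K3 R * (1 - 11 / 20 * (av (uu w)).im ^ 2) ≤ K3 R * (1 - 0 * (av (uu w)).im ^ 2) := by
      apply mul_le_mul_of_nonneg_left _ hK
      nlinarith [sq_nonneg (av (uu w)).im]
    exact h3.trans h2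
  · exact key (11 / 20) (fun x hx => circle_b h h1 hx) (by norm_num)

/-- the gain for small `τ` -/
theorem gain_small {τ : ℝ} (h0 : 0 ≤ τ) (h1 : τ ≤ 9 / 40) :
    0 ≤ 3 * (Real.log (1 - τ ^ 2) / 2) + 4 * τ * τ + Real.log (1 - 11 / 20 * τ ^ 2) := by
  have hs : 0 ≤ τ ^ 2 := sq_nonneg τ
  have hs1 : τ ^ 2 ≤ 81 / 1600 := by nlinarith
  have e1 : ∀ x : ℝ, 0 ≤ x → x ≤ 1 / 10 → -(10 / 9 * x) ≤ Real.log (1 - x) := by
    intro x hx0 hx1
    have h2 := Real.one_sub_inv_le_log_of_pos (by linarith : 0 < 1 - x)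
    have h3 : -(10 / 9 * x) ≤ 1 - (1 - x)⁻¹ := by
      have h4 : (1 - x)⁻¹ ≤ 1 + 10 / 9 * x := by
        rw [inv_le_iff_one_le_mul₀ (by linarith)]
        nlinarith
      linarith
    exact h3.trans h2
  have a1 := e1 (τ ^ 2) hs (by linarith)
  have a2 := e1 (11 / 20 * τ ^ 2) (by positivity) (by linarith)
  nlinarith

/-- the gain for large `τ` -/
theorem gain_large {τ : ℝ} (h0 : 9 / 40 ≤ τ) (h1 : τ ≤ 1) :
    0 ≤ 3 * (Real.log (1 - (9 / 40) ^ 2) / 2) + 4 * (9 / 40) * τ +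
      Real.log (1 - 11 / 20 * τ ^ 2) := by
  have hpos : 0 < 1 - 11 / 20 * τ ^ 2 := by nlinarith
  have a1 : -(8 / 100) ≤ 3 * (Real.log (1 - (9 / 40) ^ 2) / 2) := by
    have h2 := Real.one_sub_inv_le_log_of_pos (by norm_num : (0 : ℝ) < 1 - (9 / 40) ^ 2)
    have h3 : (1 : ℝ) - (1 - (9 / 40) ^ 2)⁻¹ ≥ -(16 / 300) := by norm_num
    linarith
  have a2 : 8 / 100 - 9 / 10 * τ ≤ Real.log (1 - 11 / 20 * τ ^ 2) := by
    rw [Real.le_log_iff_exp_le hpos]
    -- convexity of the exponential on `[9/40, 1]`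
    have hθ0 : 0 ≤ (τ - 9 / 40) / (31 / 40) := by
      apply div_nonneg (by linarith) (by norm_num)
    have hθ1 : 0 ≤ (1 - τ) / (31 / 40) := by
      apply div_nonneg (by linarith) (by norm_num)
    have hc := convexOn_exp.2 (Set.mem_univ (8 / 100 - 9 / 10 * (9 / 40) : ℝ))
      (Set.mem_univ (8 / 100 - 9 / 10 * 1 : ℝ)) hθ1 hθ0 (by ring)
    simp only [smul_eq_mul] at hc
    have e1 : (1 - τ) / (31 / 40) * (8 / 100 - 9 / 10 * (9 / 40)) + (τ - 9 / 40) / (31 / 40) *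
        (8 / 100 - 9 / 10 * 1) = 8 / 100 - 9 / 10 * τ := by ring
    rw [e1] at hc
    have b1 : Real.exp (8 / 100 - 9 / 10 * (9 / 40)) ≤ 9 / 10 := by
      have h3 : Real.exp (8 / 100 - 9 / 10 * (9 / 40)) * Real.exp (9 / 10 * (9 / 40) - 8 / 100) = 1 := by
        rw [← Real.exp_add]
        norm_num
      have h4 := Real.add_one_le_exp (9 / 10 * (9 / 40) - 8 / 100 : ℝ)
      have h5 := Real.exp_pos (8 / 100 - 9 / 10 * (9 / 40))
      nlinarith
    have b2 : Real.exp (8 / 100 - 9 / 10 * 1) ≤ 45 / 100 := by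
      have h3 : Real.exp (8 / 100 - 9 / 10 * 1) * Real.exp (82 / 100) = 1 := by
        rw [← Real.exp_add]
        norm_num
      have h4 : (100 / 45 : ℝ) ≤ Real.exp (82 / 100) := by
        have h6 := Real.sum_le_exp_of_nonneg (x := 82 / 100) (by norm_num) 5
        simp only [Finset.sum_range_succ, Finset.sum_range_zero, Nat.factorial] at h6
        norm_num at h6
        linarith
      have h5 := Real.exp_pos (8 / 100 - 9 / 10 * 1)
      nlinarith
    have h7 : (1 - τ) / (31 / 40) * Real.exp (8 / 100 - 9 / 10 * (9 / 40)) +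
        (τ - 9 / 40) / (31 / 40) * Real.exp (8 / 100 - 9 / 10 * 1) ≤
        (1 - τ) / (31 / 40) * (9 / 10) + (τ - 9 / 40) / (31 / 40) * (45 / 100) :=
      add_le_add (mul_le_mul_of_nonneg_left b1 hθ1) (mul_le_mul_of_nonneg_left b2 hθ0)
    nlinarith
  linarith

/-- **`N = 3`, `R ≤ 11/10`** -/
theorem n3_small {z w : Fin 3 → ℂ} {R : ℝ} {σ : Fin 3 → ℂ} (hR : R ≤ 11 / 10) :
    ¬ Cfg2 3 z w R σ := by
  intro hC
  have hR0 := hC.hR
  have hu := hC.u_le
  have hlow := fI3_lower hu hR0.le hR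
  have hτ0 := hC.him
  have hτ1 : (av (uu w)).im ≤ 1 :=
    ((le_abs_self _).trans (Complex.abs_im_le_norm _)).trans hC.av_le
  set τ := (av (uu w)).im with hτ
  have hK := exp_le_K3 hR0.le hR
  have hpos : 0 < 1 - 11 / 20 * τ ^ 2 := by nlinarith
  have hf0 : fI w (R : ℂ) ≠ 0 := by
    intro h
    rw [h, norm_zero, mul_zero] at hlow
    have := mul_pos (K3_pos hR) hpos
    linarith
  have hfpos : 0 < ‖fI w (R : ℂ)‖ := norm_pos_iff.2 hf0
  have hlog : 1 - R + Real.log (1 - 11 / 20 * τ ^ 2) ≤ Real.log (4 * ‖fI w (R : ℂ)‖) := by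
    have h2 : Real.exp (1 - R) * (1 - 11 / 20 * τ ^ 2) ≤ 4 * ‖fI w (R : ℂ)‖ :=
      (mul_le_mul_of_nonneg_right hK hpos.le).trans hlow
    have h3 := Real.log_le_log (by positivity) h2
    rwa [Real.log_mul (Real.exp_pos _).ne' hpos.ne', Real.log_exp] at h3
  -- the certificate
  have cert : ∀ a : ℝ, 0 ≤ a → a ≤ 9 / 40 →
      3 * (1 + Real.log (1 - a ^ 2) / 2) + 4 * a * τ + R + Real.log (4 * ‖fI w (R : ℂ)‖) < 4 := by
    intro a ha0 ha1
    have hc : CertAt a 0 Complex.I ((R - R : ℝ) : ℂ) := by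
      refine ⟨ha0, by linarith, Or.inl ⟨by simp, le_rfl⟩⟩
    have h := hC.cert (a := a) (l := 0) (e := Complex.I) (y := R) (by simp) hc
      (by push_cast; linarith) hR0.le le_rfl (by simp) (by linarith) (by nlinarith) hf0
    have e1 : (conj Complex.I * conj (av (uu w))).re = -τ := by
      rw [hτ]
      simp
    rw [e1] at h
    simp only [Complex.I_re] at h
    push_cast at h
    have e2 : (3 : ℝ) + 1 = 4 := by norm_num
    rw [e2] at h
    linarith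
  rcases le_total τ (9 / 40) with h | h
  · have h1 := cert τ hτ0 h
    have h2 := gain_small hτ0 h
    linarith
  · have h1 := cert (9 / 40) (by norm_num) le_rfl
    have h2 := gain_large h hτ1
    linarith

end Pool.Agent.Lib.MP_af3a4a_an.P1.H80
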