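import Pool.Agent.Lib.MP_af3a4a_an.P1.H80.Cfg

/-!
# The pointwise Riccati bound of helper81 (Lean: helper80)

For `|u| ≤ 1`, `0 ≤ x < 1`, `A = artanh x`:
`|log (1 - x u) - (1/2) log (1 - x^2) + u A - A^2/2| ≤ A^2/2`.
-/

namespace Pool.Agent.Lib.MP_af3a4a_an.P1.H80

open Finset ComplexConjugate Set
open Pool.Agent.Lib.MP_af3a4a_an.SV (uu av sq EE)

theorem kap_hasDerivAt {x : ℝ} (h0 : -1 < x) (h1 : x < 1) :
    HasDerivAt kap (1 / (1 - x ^ 2)) x := by
  have e1 : HasDerivAt (fun x : ℝ => Real.log (1 + x)) (1 / (1 + x)) x := by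
    have := ((hasDerivAt_id x).const_add 1).log (by simp only [id]; linarith only [h0])
    simpa using this
  have e2 : HasDerivAt (fun x : ℝ => Real.log (1 - x)) (-1 / (1 - x)) x := by
    have := ((hasDerivAt_id x).const_sub 1).log (by simp only [id]; linarith only [h1])
    simpa using this
  have h := (e1.sub e2).div_const 2
  refine h.congr_deriv ?_
  have p1 : 1 + x ≠ 0 := by linarith only [h0]
  have p2 : 1 - x ≠ 0 := by linarith only [h1]
  have p3 : 1 - x ^ 2 ≠ 0 := by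
    have : 1 - x ^ 2 = (1 + x) * (1 - x) := by ring
    rw [this]; exact mul_ne_zero p1 p2
  field_simp
  ring

@[simp] theorem kap_zero : kap 0 = 0 := by unfold kap; simp

theorem kap_nonneg {x : ℝ} (h0 : 0 ≤ x) (h1 : x < 1) : 0 ≤ kap x := h0.trans (le_kap h0 h1)

theorem one_sub_ne {u : ℂ} (hu : ‖u‖ ≤ 1) {x : ℝ} (h0 : 0 ≤ x) (h1 : x < 1) :
    0 < (1 - (x : ℂ) * u).re := by
  have : ((x : ℂ) * u).re ≤ x := by
    refine (Complex.re_le_norm _).trans ?_
    rw [norm_mul, Complex.norm_real, Real.norm_of_nonneg h0]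
    nlinarith only [hu, h0, norm_nonneg u]
  rw [Complex.sub_re, Complex.one_re]
  linarith only [h1, this]

/-- the disc automorphism -/
theorem norm_b_le {u : ℂ} (hu : ‖u‖ ≤ 1) {x : ℝ} (h0 : 0 ≤ x) (h1 : x < 1) :
    ‖(u - x) / (1 - (x : ℂ) * u)‖ ≤ 1 := by
  have hne : 1 - (x : ℂ) * u ≠ 0 := by
    intro h
    have := one_sub_ne hu h0 h1
    rw [h] at this
    simp at this
  rw [norm_div, div_le_one (norm_pos_iff.2 hne)]
  have h2 : ‖u - x‖ ^ 2 ≤ ‖1 - (x : ℂ) * u‖ ^ 2 := by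
    rw [norm_sq_re_im, norm_sq_re_im]
    have h3 : u.re ^ 2 + u.im ^ 2 ≤ 1 := by
      rw [← norm_sq_re_im]
      nlinarith only [hu, norm_nonneg u]
    simp only [Complex.sub_re, Complex.sub_im, Complex.mul_re, Complex.mul_im, Complex.ofReal_re,
      Complex.ofReal_im, Complex.one_re, Complex.one_im]
    have h4 : 0 ≤ (1 - x ^ 2) * (1 - (u.re ^ 2 + u.im ^ 2)) :=
      mul_nonneg (by nlinarith only [h0, h1]) (by linarith only [h3])
    linarith only [h4]
  exact (pow_le_pow_iff_left₀ (norm_nonneg _) (norm_nonneg _) two_ne_zero).1 h2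

/-- **Riccati bound** -/
theorem riccati {u : ℂ} (hu : ‖u‖ ≤ 1) {x : ℝ} (h0 : 0 ≤ x) (h1 : x < 1) :
    ‖Complex.log (1 - (x : ℂ) * u) - ((Real.log (1 - x ^ 2) / 2 : ℝ) : ℂ) + u * kap x
      - ((kap x ^ 2 / 2 : ℝ) : ℂ)‖ ≤ kap x ^ 2 / 2 := by
  have hne : ∀ t : ℝ, 0 ≤ t → t < 1 → 1 - (t : ℂ) * u ≠ 0 := by
    intro t ht0 ht1 h
    have := one_sub_ne hu ht0 ht1
    rw [h] at this
    simp at this
  have hp : ∀ t : ℝ, 0 ≤ t → t < 1 → (0 : ℝ) < 1 - t ^ 2 := by
    intro t ht0 ht1; nlinarith only [ht0, ht1]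
  -- the function b
  set b : ℝ → ℂ := fun t => (u - t) / (1 - (t : ℂ) * u) with hb
  have hbd : ∀ t : ℝ, 0 ≤ t → t < 1 →
      HasDerivAt b ((b t ^ 2 - 1) * ((1 / (1 - t ^ 2) : ℝ) : ℂ)) t := by
    intro t ht0 ht1
    have e1 : HasDerivAt (fun t : ℝ => u - (t : ℂ)) (-1) t := by
      simpa using (Complex.ofRealCLM.hasDerivAt (x := t)).const_sub u
    have e2 : HasDerivAt (fun t : ℝ => 1 - (t : ℂ) * u) (-u) t := by
      simpa using ((Complex.ofRealCLM.hasDerivAt (x := t)).mul_const u).const_sub 1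
    have e3 := e1.div e2 (hne t ht0 ht1)
    refine e3.congr_deriv ?_
    have hq := hne t ht0 ht1
    have hc : ((1 - t ^ 2 : ℝ) : ℂ) ≠ 0 := by exact_mod_cast (hp t ht0 ht1).ne'
    have hc' : (1 - (t : ℂ) ^ 2) ≠ 0 := by
      have : (1 - (t : ℂ) ^ 2) = ((1 - t ^ 2 : ℝ) : ℂ) := by push_cast; ring
      rw [this]; exact hc
    simp only [hb]
    push_cast
    field_simp
    ring
  have hkd : ∀ t : ℝ, 0 ≤ t → t < 1 →
      HasDerivAt (fun t => ((kap t : ℝ) : ℂ)) ((1 / (1 - t ^ 2) : ℝ) : ℂ) t := by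
    intro t ht0 ht1
    exact (kap_hasDerivAt (by linarith only [ht0]) ht1).ofReal_comp
  -- first step: |u - b - A| ≤ A
  have step1 : ∀ t : ℝ, 0 ≤ t → t < 1 → ‖u - b t - kap t‖ ≤ kap t := by
    intro t ht0 ht1
    have hmain := image_norm_le_of_norm_deriv_right_le_deriv_boundary'
      (f := fun t => u - b t - kap t) (f' := fun t => -(b t ^ 2 * ((1 / (1 - t ^ 2) : ℝ) : ℂ)))
      (a := 0) (b := t) (B := kap) (B' := fun t => 1 / (1 - t ^ 2)) ?_ ?_ ?_ ?_ ?_ ?_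
      (x := t) ⟨ht0, le_rfl⟩
    · exact hmain
    · intro s hs
      have hs1 : s < 1 := lt_of_le_of_lt hs.2 ht1
      exact (((hbd s hs.1 hs1).const_sub u).sub (hkd s hs.1 hs1)).continuousAt.continuousWithinAt
    · intro s hs
      have hs1 : s < 1 := lt_trans hs.2 ht1
      refine ((((hbd s hs.1 hs1).const_sub u).sub (hkd s hs.1 hs1)).congr_deriv ?_).hasDerivWithinAt
      ring
    · simp [hb]
    · intro s hs
      have hs1 : s < 1 := lt_of_le_of_lt hs.2 ht1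
      exact (kap_hasDerivAt (by linarith only [hs, hs.1]) hs1).continuousAt.continuousWithinAt
    · intro s hs
      have hs1 : s < 1 := lt_trans hs.2 ht1
      exact (kap_hasDerivAt (by linarith only [hs, hs.1]) hs1).hasDerivWithinAt
    · intro s hs
      have hs1 : s < 1 := lt_trans hs.2 ht1
      have h2 := norm_b_le hu hs.1 hs1
      rw [norm_neg, norm_mul, norm_pow, Complex.norm_real,
        Real.norm_of_nonneg (one_div_nonneg.2 (hp s hs.1 hs1).le)]
      have h3 : ‖b s‖ ^ 2 ≤ 1 := pow_le_one₀ (norm_nonneg _) h2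
      exact mul_le_of_le_one_left (one_div_nonneg.2 (hp s hs.1 hs1).le) h3
  -- second step
  have hmain := image_norm_le_of_norm_deriv_right_le_deriv_boundary'
    (f := fun t => Complex.log (1 - (t : ℂ) * u) - ((Real.log (1 - t ^ 2) / 2 : ℝ) : ℂ) + u * kap t
      - ((kap t ^ 2 / 2 : ℝ) : ℂ))
    (f' := fun t => (u - b t - kap t) * ((1 / (1 - t ^ 2) : ℝ) : ℂ))
    (a := 0) (b := x) (B := fun t => kap t ^ 2 / 2) (B' := fun t => kap t * (1 / (1 - t ^ 2)))
    ?_ ?_ ?_ ?_ ?_ ?_ (x := x) ⟨h0, le_rfl⟩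
  · exact hmain
  all_goals
    have hfd : ∀ s : ℝ, 0 ≤ s → s < 1 → HasDerivAt
        (fun t : ℝ => Complex.log (1 - (t : ℂ) * u) - ((Real.log (1 - t ^ 2) / 2 : ℝ) : ℂ)
          + u * kap t - ((kap t ^ 2 / 2 : ℝ) : ℂ))
        ((u - b s - kap s) * ((1 / (1 - s ^ 2) : ℝ) : ℂ)) s := by
      intro s hs0 hs1
      have e2 : HasDerivAt (fun t : ℝ => 1 - (t : ℂ) * u) (-u) s := by
        simpa using ((Complex.ofRealCLM.hasDerivAt (x := s)).mul_const u).const_sub 1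
      have e3 := e2.clog_real (Or.inl (one_sub_ne hu hs0 hs1))
      have e4 : HasDerivAt (fun t : ℝ => Real.log (1 - t ^ 2) / 2) (-s / (1 - s ^ 2)) s := by
        have h5 := (((hasDerivAt_pow 2 s).const_sub 1).log (hp s hs0 hs1).ne').div_const 2
        refine h5.congr_deriv ?_
        have := (hp s hs0 hs1).ne'
        field_simp
        ring
      have e5 : HasDerivAt (fun t : ℝ => kap t ^ 2 / 2) (kap s * (1 / (1 - s ^ 2))) s := by
        have h5 := ((kap_hasDerivAt (by linarith) hs1).pow 2).div_const 2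
        refine h5.congr_deriv ?_
        ring
      have e6 := ((e3.sub e4.ofReal_comp).add ((hkd s hs0 hs1).const_mul u)).sub e5.ofReal_comp
      refine e6.congr_deriv ?_
      have hq := hne s hs0 hs1
      have hc' : (1 - (s : ℂ) ^ 2) ≠ 0 := by
        have : (1 - (s : ℂ) ^ 2) = ((1 - s ^ 2 : ℝ) : ℂ) := by push_cast; ring
        rw [this]; exact_mod_cast (hp s hs0 hs1).ne'
      have hq2 : 1 - u * (s : ℂ) ≠ 0 := by rwa [mul_comm u]
      have hkey : (u - b s - kap s) * (1 / (1 - (s : ℂ) ^ 2)) =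
          -u / (1 - (s : ℂ) * u) + s / (1 - (s : ℂ) ^ 2) + u * (1 / (1 - (s : ℂ) ^ 2)) -
            kap s * (1 / (1 - (s : ℂ) ^ 2)) := by
        have h9 : b s = u * (1 - (s : ℂ) ^ 2) / (1 - (s : ℂ) * u) - s := by
          simp only [hb]
          rw [eq_sub_iff_add_eq, div_add' _ _ _ hq]
          congr 1
          ring
        rw [h9]
        field_simp
        ring
      push_cast
      rw [hkey]
      ring
  · intro s hs
    exact (hfd s hs.1 (lt_of_le_of_lt hs.2 h1)).continuousAt.continuousWithinAt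
  · intro s hs
    exact (hfd s hs.1 (lt_trans hs.2 h1)).hasDerivWithinAt
  · simp
  · intro s hs
    have hs1 : s < 1 := lt_of_le_of_lt hs.2 h1
    exact ((((kap_hasDerivAt (by linarith only [hs, hs.1]) hs1).pow 2).div_const 2)).continuousAt.continuousWithinAt
  · intro s hs
    have hs1 : s < 1 := lt_trans hs.2 h1
    have h5 := ((kap_hasDerivAt (by linarith only [hs, hs.1]) hs1).pow 2).div_const 2
    refine (h5.congr_deriv ?_).hasDerivWithinAt
    ring
  · intro s hs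
    have hs1 : s < 1 := lt_trans hs.2 h1
    rw [norm_mul, Complex.norm_real, Real.norm_of_nonneg (one_div_nonneg.2 (hp s hs.1 hs1).le)]
    exact mul_le_mul_of_nonneg_right (step1 s hs.1 hs1) (one_div_nonneg.2 (hp s hs.1 hs1).le)

/-- **The product** `q(x) = ∏ (1 - x e u_k)` for `|u_k| ≤ 1`, `|e| = 1`, `0 ≤ x < 1`, `A = artanh x`:
`q(x) = (1 - x^2)^(N/2) exp (-N e m A + N A^2/2 + Z)` with `|Z| ≤ N A^2/2`, `m = av u`. -/
theorem q_repr {N : ℕ} (hN : 1 ≤ N) {u : Fin N → ℂ} (hu : ∀ k, ‖u k‖ ≤ 1) {e : ℂ} (he : ‖e‖ = 1)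
    {x : ℝ} (h0 : 0 ≤ x) (h1 : x < 1) :
    ∃ Z : ℂ, ‖Z‖ ≤ N * (kap x ^ 2 / 2) ∧
      ∏ k, (1 - (x : ℂ) * (e * u k)) = Complex.exp ((N : ℂ) * ((Real.log (1 - x ^ 2) / 2 : ℝ)
        - e * av u * kap x + ((kap x ^ 2 / 2 : ℝ) : ℂ)) + Z) := by
  refine ⟨∑ k, (Complex.log (1 - (x : ℂ) * (e * u k)) - ((Real.log (1 - x ^ 2) / 2 : ℝ) : ℂ)
    + (e * u k) * kap x - ((kap x ^ 2 / 2 : ℝ) : ℂ)), ?_, ?_⟩
  · refine (norm_sum_le _ _).trans ?_
    calc ∑ k, ‖Complex.log (1 - (x : ℂ) * (e * u k)) - ((Real.log (1 - x ^ 2) / 2 : ℝ) : ℂ)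
          + (e * u k) * kap x - ((kap x ^ 2 / 2 : ℝ) : ℂ)‖ ≤ ∑ _k : Fin N, kap x ^ 2 / 2 := by
          apply Finset.sum_le_sum
          intro k _
          exact riccati (by rw [norm_mul, he, one_mul]; exact hu k) h0 h1
      _ = N * (kap x ^ 2 / 2) := by simp
  · have hne : ∀ k, 1 - (x : ℂ) * (e * u k) ≠ 0 := by
      intro k h
      have := one_sub_ne (u := e * u k) (by rw [norm_mul, he, one_mul]; exact hu k) h0 h1
      rw [h] at this
      simp at this
    have hN0 : (N : ℂ) ≠ 0 := by exact_mod_cast (by omega : N ≠ 0)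
    have e1 : (N : ℂ) * ((Real.log (1 - x ^ 2) / 2 : ℝ) - e * av u * kap x
        + ((kap x ^ 2 / 2 : ℝ) : ℂ)) + ∑ k, (Complex.log (1 - (x : ℂ) * (e * u k))
        - ((Real.log (1 - x ^ 2) / 2 : ℝ) : ℂ) + (e * u k) * kap x - ((kap x ^ 2 / 2 : ℝ) : ℂ)) =
        ∑ k, Complex.log (1 - (x : ℂ) * (e * u k)) := by
      rw [Finset.sum_sub_distrib, Finset.sum_add_distrib, Finset.sum_sub_distrib,
        ← Finset.sum_mul, ← Finset.mul_sum]
      unfold av
      simp only [Finset.sum_const, Finset.card_univ, Fintype.card_fin, nsmul_eq_mul]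
      field_simp
      ring
    rw [e1, Complex.exp_sum]
    exact Finset.prod_congr rfl fun k _ => (Complex.exp_log (hne k)).symm

/-- sum form of a pointwise bound under the constraint `t ≤ 1` -/
theorem q_norm_le {N : ℕ} {w : Fin N → ℂ} {c y : ℂ} {K g : ℝ} (hw : ∀ k, 1 ≤ ‖w k‖)
    (ht : ∑ k, ‖w k - c‖ ≤ N) (hK : 0 ≤ K)
    (h : ∀ v : ℂ, 1 ≤ ‖v‖ → ‖1 - y * v⁻¹‖ ≤ Real.exp (K * (‖v - c‖ - 1) - g)) :
    ‖∏ k, (1 - y * uu w k)‖ ≤ Real.exp (-(N * g)) := by
  rw [norm_prod]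
  calc ∏ k, ‖1 - y * uu w k‖ ≤ ∏ k, Real.exp (K * (‖w k - c‖ - 1) - g) := by
        apply Finset.prod_le_prod
        · exact fun _ _ => norm_nonneg _
        · intro k _
          exact h (w k) (hw k)
    _ = Real.exp (∑ k, (K * (‖w k - c‖ - 1) - g)) := (Real.exp_sum _ _).symm
    _ ≤ Real.exp (-(N * g)) := by
        apply Real.exp_le_exp.2
        rw [Finset.sum_sub_distrib, ← Finset.mul_sum, Finset.sum_sub_distrib]
        simp only [Finset.sum_const, Finset.card_univ, Fintype.card_fin, nsmul_eq_mul, mul_one]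
        have : K * (∑ k, ‖w k - c‖ - N) ≤ 0 :=
          mul_nonpos_of_nonneg_of_nonpos hK (by linarith only [ht])
        linarith only [this]

end Pool.Agent.Lib.MP_af3a4a_an.P1.H80
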