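import Pool.Agent.Lib.MP_af3a4a_an.P1.H80.Riccati

/-!
# The disc lemma (Schwarz - Pick for a finite mean), council 2, helper80

`u_k` in the closed unit disc, `m = av u`, `λ(x) = av (u/(1 - x u))`:
`|λ - m/(1 - x m)| ≤ x (1 - |m|²)/(|1 - x m| (|1 - x m| - x |x - m|))` for `0 ≤ x < 1`.
-/

namespace Pool.Agent.Lib.MP_af3a4a_an.P1.H80

open Finset ComplexConjugate
open Pool.Agent.Lib.MP_af3a4a_an.SV (uu av sq EE)

theorem cs_sum {N : ℕ} (f g : Fin N → ℂ) :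
    ‖∑ k, f k * g k‖ ^ 2 ≤ (∑ k, ‖f k‖ ^ 2) * ∑ k, ‖g k‖ ^ 2 := by
  have h1 : ‖∑ k, f k * g k‖ ≤ ∑ k, ‖f k‖ * ‖g k‖ := by
    refine (norm_sum_le _ _).trans (le_of_eq ?_)
    exact Finset.sum_congr rfl fun k _ => norm_mul _ _
  calc ‖∑ k, f k * g k‖ ^ 2 ≤ (∑ k, ‖f k‖ * ‖g k‖) ^ 2 := pow_le_pow_left₀ (norm_nonneg _) h1 2
    _ ≤ _ := Finset.sum_mul_sq_le_sq_mul_sq _ _ _

theorem sum_av {N : ℕ} (hN : 1 ≤ N) (f : Fin N → ℂ) : ∑ k, f k = N * av f := by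
  have hN0 : (N : ℂ) ≠ 0 := by exact_mod_cast (by omega : N ≠ 0)
  unfold av
  field_simp

theorem sum_var {N : ℕ} (hN : 1 ≤ N) (f : Fin N → ℂ) :
    ∑ k, ‖f k - av f‖ ^ 2 = ∑ k, ‖f k‖ ^ 2 - N * ‖av f‖ ^ 2 := by
  have h1 : ∀ k, ‖f k - av f‖ ^ 2 = ‖f k‖ ^ 2 - 2 * (f k * conj (av f)).re + ‖av f‖ ^ 2 := by
    intro k
    rw [norm_sq_re_im, norm_sq_re_im, norm_sq_re_im]
    simp only [Complex.sub_re, Complex.sub_im, Complex.mul_re, Complex.conj_re, Complex.conj_im]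
    ring
  simp only [h1]
  rw [Finset.sum_add_distrib, Finset.sum_sub_distrib, ← Finset.mul_sum, ← Complex.re_sum,
    ← Finset.sum_mul, sum_av hN, mul_assoc, Complex.mul_conj, Complex.normSq_eq_norm_sq]
  simp only [Finset.sum_const, Finset.card_univ, Fintype.card_fin, nsmul_eq_mul]
  have : ((N : ℂ) * ((‖av f‖ ^ 2 : ℝ) : ℂ)).re = N * ‖av f‖ ^ 2 := by
    rw [← Complex.ofReal_natCast, ← Complex.ofReal_mul, Complex.ofReal_re]
  rw [this]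
  ring

/-- pointwise: `(1 - x²) |1/(1 - x u)|² ≤ 2 Re (1/(1 - x u)) - 1` -/
theorem point_pv {u : ℂ} (hu : ‖u‖ ≤ 1) {x : ℝ} (h0 : 0 ≤ x) (h1 : x < 1) :
    (1 - x ^ 2) * ‖(1 - (x : ℂ) * u)⁻¹‖ ^ 2 ≤ 2 * ((1 - (x : ℂ) * u)⁻¹).re - 1 := by
  have hre := one_sub_ne hu h0 h1
  set v := 1 - (x : ℂ) * u with hv
  have hv0 : 0 < ‖v‖ ^ 2 := by
    have : v ≠ 0 := by
      intro h
      rw [h] at hre
      simp at hre
    positivity
  have h2 : ‖v‖ ^ 2 - 2 * v.re + 1 ≤ x ^ 2 := by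
    have h3 : ‖1 - v‖ ^ 2 ≤ x ^ 2 := by
      have h4 : 1 - v = x * u := by rw [hv]; ring
      rw [h4, norm_mul, Complex.norm_real, Real.norm_of_nonneg h0]
      have h5 : x * ‖u‖ ≤ x := by nlinarith
      exact pow_le_pow_left₀ (by positivity) h5 2
    rw [norm_sq_re_im] at h3 ⊢
    simp only [Complex.sub_re, Complex.sub_im, Complex.one_re, Complex.one_im] at h3
    nlinarith
  rw [norm_inv, Complex.inv_re, Complex.normSq_eq_norm_sq]
  have h6 : (1 - x ^ 2) * (‖v‖⁻¹) ^ 2 = (1 - x ^ 2) / ‖v‖ ^ 2 := by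
    rw [inv_pow]; ring
  have h7 : 2 * (v.re / ‖v‖ ^ 2) - 1 = (2 * v.re - ‖v‖ ^ 2) / ‖v‖ ^ 2 := by
    rw [sub_div, div_self hv0.ne']
    ring
  rw [h6, h7]
  apply div_le_div_of_nonneg_right _ hv0.le
  linarith

/-- Schwarz - Pick for a finite mean, first form -/
theorem schur_sq {N : ℕ} (hN : 1 ≤ N) {u : Fin N → ℂ} (hu : ∀ k, ‖u k‖ ≤ 1) {x : ℝ} (h0 : 0 ≤ x)
    (h1 : x < 1) :
    (1 - x ^ 2) * ‖(1 - (x : ℂ) * av u) * av (fun k => (1 - (x : ℂ) * u k)⁻¹) - 1‖ ^ 2 ≤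
      x ^ 2 * (1 - ‖av u‖ ^ 2) * (2 * (av (fun k => (1 - (x : ℂ) * u k)⁻¹)).re - 1
        - (1 - x ^ 2) * ‖av (fun k => (1 - (x : ℂ) * u k)⁻¹)‖ ^ 2) := by
  have hNpos : (0 : ℝ) < N := by exact_mod_cast hN
  have hx2 : 0 < 1 - x ^ 2 := by nlinarith
  have hne : ∀ k, 1 - (x : ℂ) * u k ≠ 0 := by
    intro k h
    have := one_sub_ne (hu k) h0 h1
    rw [h] at this
    simp at this
  set p : Fin N → ℂ := fun k => (1 - (x : ℂ) * u k)⁻¹ with hp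
  set P := av p with hP
  set m := av u with hm
  have c1 := cs_sum (fun k => u k - m) (fun k => p k - P)
  rw [sum_var hN u, sum_var hN p] at c1
  -- the left side
  have c2 : (x : ℂ) * ∑ k, (u k - m) * (p k - P) = N * ((1 - (x : ℂ) * m) * P - 1) := by
    have e1 : ∀ k, (x : ℂ) * ((u k - m) * (p k - P)) =
        p k - 1 - (x * m) * p k - (x * P) * u k + x * m * P := by
      intro k
      have e2 : (x : ℂ) * u k * p k = p k - 1 := by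
        have e3 : (1 - (x : ℂ) * u k) * p k = 1 := by
          rw [hp]
          exact mul_inv_cancel₀ (hne k)
        linear_combination -e3
      linear_combination e2
    rw [Finset.mul_sum]
    simp only [e1]
    rw [Finset.sum_add_distrib, Finset.sum_sub_distrib, Finset.sum_sub_distrib,
      Finset.sum_sub_distrib, ← Finset.mul_sum, ← Finset.mul_sum, sum_av hN u, sum_av hN p]
    simp only [Finset.sum_const, Finset.card_univ, Fintype.card_fin, nsmul_eq_mul]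
    rw [← hP, ← hm]
    ring
  have c3 : (N : ℝ) ^ 2 * ‖(1 - (x : ℂ) * m) * P - 1‖ ^ 2 =
      x ^ 2 * ‖∑ k, (u k - m) * (p k - P)‖ ^ 2 := by
    have := congrArg norm c2
    rw [norm_mul, norm_mul, Complex.norm_real, Complex.norm_natCast, Real.norm_of_nonneg h0] at this
    rw [← mul_pow, ← mul_pow, this]
  -- the right side
  have d1 : ∑ k, ‖u k‖ ^ 2 ≤ N := by
    calc ∑ k, ‖u k‖ ^ 2 ≤ ∑ _k : Fin N, (1 : ℝ) :=
          Finset.sum_le_sum fun k _ => pow_le_one₀ (norm_nonneg _) (hu k)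
      _ = N := by simp
  have d2 : (1 - x ^ 2) * ∑ k, ‖p k‖ ^ 2 ≤ N * (2 * P.re - 1) := by
    rw [Finset.mul_sum]
    calc ∑ k, (1 - x ^ 2) * ‖p k‖ ^ 2 ≤ ∑ k, (2 * (p k).re - 1) :=
          Finset.sum_le_sum fun k _ => point_pv (hu k) h0 h1
      _ = N * (2 * P.re - 1) := by
          rw [Finset.sum_sub_distrib, ← Finset.mul_sum, ← Complex.re_sum, sum_av hN p]
          simp only [Finset.sum_const, Finset.card_univ, Fintype.card_fin, nsmul_eq_mul, mul_one]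
          have : ((N : ℂ) * av p).re = N * P.re := by
            rw [← Complex.ofReal_natCast, Complex.re_ofReal_mul]
          rw [this]
          ring
  have d3 : 0 ≤ ∑ k, ‖p k‖ ^ 2 - N * ‖P‖ ^ 2 := by
    rw [← sum_var hN p]
    positivity
  have d4 : ‖∑ k, (u k - m) * (p k - P)‖ ^ 2 ≤ (N - N * ‖m‖ ^ 2) *
      (∑ k, ‖p k‖ ^ 2 - N * ‖P‖ ^ 2) := by
    refine c1.trans ?_
    apply mul_le_mul_of_nonneg_right _ d3
    linarith
  have hm1 : ‖m‖ ≤ 1 := by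
    have : ‖m‖ ^ 2 ≤ 1 := by
      have := sum_var hN u
      have h5 : 0 ≤ ∑ k, ‖u k - av u‖ ^ 2 := by positivity
      rw [this] at h5
      have h6 : (N : ℝ) * ‖m‖ ^ 2 ≤ N * 1 := by rw [mul_one]; linarith
      exact le_of_mul_le_mul_left h6 hNpos
    nlinarith [norm_nonneg m]
  have d5 : 0 ≤ (N : ℝ) - N * ‖m‖ ^ 2 := by
    have h8 : ‖m‖ ^ 2 ≤ 1 := pow_le_one₀ (norm_nonneg m) hm1
    have h9 : 0 ≤ (N : ℝ) * (1 - ‖m‖ ^ 2) := mul_nonneg hNpos.le (by linarith)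
    linarith
  have d6 : (1 - x ^ 2) * ‖∑ k, (u k - m) * (p k - P)‖ ^ 2 ≤ (N - N * ‖m‖ ^ 2) *
      (N * (2 * P.re - 1) - (1 - x ^ 2) * (N * ‖P‖ ^ 2)) := by
    calc (1 - x ^ 2) * ‖∑ k, (u k - m) * (p k - P)‖ ^ 2 ≤ (1 - x ^ 2) * ((N - N * ‖m‖ ^ 2) *
      (∑ k, ‖p k‖ ^ 2 - N * ‖P‖ ^ 2)) := mul_le_mul_of_nonneg_left d4 hx2.le
      _ = (N - N * ‖m‖ ^ 2) * ((1 - x ^ 2) * ∑ k, ‖p k‖ ^ 2 - (1 - x ^ 2) * (N * ‖P‖ ^ 2)) := by
        ring
      _ ≤ _ := by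
        apply mul_le_mul_of_nonneg_left _ d5
        linarith
  have hfin : (N : ℝ) ^ 2 * ((1 - x ^ 2) * ‖(1 - (x : ℂ) * m) * P - 1‖ ^ 2) ≤
      (N : ℝ) ^ 2 * (x ^ 2 * (1 - ‖m‖ ^ 2) * (2 * P.re - 1 - (1 - x ^ 2) * ‖P‖ ^ 2)) := by
    calc (N : ℝ) ^ 2 * ((1 - x ^ 2) * ‖(1 - (x : ℂ) * m) * P - 1‖ ^ 2)
        = (1 - x ^ 2) * ((N : ℝ) ^ 2 * ‖(1 - (x : ℂ) * m) * P - 1‖ ^ 2) := by ring
      _ = x ^ 2 * ((1 - x ^ 2) * ‖∑ k, (u k - m) * (p k - P)‖ ^ 2) := by rw [c3]; ring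
      _ ≤ x ^ 2 * ((N - N * ‖m‖ ^ 2) *
      (N * (2 * P.re - 1) - (1 - x ^ 2) * (N * ‖P‖ ^ 2))) :=
          mul_le_mul_of_nonneg_left d6 (sq_nonneg x)
      _ = _ := by ring
  exact le_of_mul_le_mul_left hfin (by positivity)

theorem av_norm_le {N : ℕ} (hN : 1 ≤ N) {u : Fin N → ℂ} (hu : ∀ k, ‖u k‖ ≤ 1) : ‖av u‖ ≤ 1 := by
  have hNpos : (0 : ℝ) < N := by exact_mod_cast hN
  have h1 := congrArg norm (sum_av hN u)
  rw [norm_mul, Complex.norm_natCast] at h1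
  have h2 : ‖∑ k, u k‖ ≤ N := by
    refine (norm_sum_le _ _).trans ?_
    calc ∑ k, ‖u k‖ ≤ ∑ _k : Fin N, (1 : ℝ) := Finset.sum_le_sum fun k _ => hu k
      _ = N := by simp
  rw [h1] at h2
  have h3 : (N : ℝ) * ‖av u‖ ≤ N * 1 := by linarith
  exact le_of_mul_le_mul_left h3 hNpos

/-- the denominator of the disc lemma -/
noncomputable def dn (m : ℂ) (x : ℝ) : ℝ := ‖1 - (x : ℂ) * m‖ - x * ‖(x : ℂ) - m‖

theorem dn_sq (m : ℂ) (x : ℝ) : ‖1 - (x : ℂ) * m‖ ^ 2 - (x * ‖(x : ℂ) - m‖) ^ 2 =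
    (1 - x ^ 2) * (1 - 2 * x * m.re + x ^ 2) := by
  rw [mul_pow, norm_sq_re_im, norm_sq_re_im]
  simp only [Complex.sub_re, Complex.sub_im, Complex.mul_re, Complex.mul_im, Complex.one_re,
    Complex.one_im, Complex.ofReal_re, Complex.ofReal_im]
  ring

theorem dn_mul (m : ℂ) (x : ℝ) : dn m x * (‖1 - (x : ℂ) * m‖ + x * ‖(x : ℂ) - m‖) =
    (1 - x ^ 2) * (1 - 2 * x * m.re + x ^ 2) := by
  rw [← dn_sq]
  unfold dn
  ring

theorem dn_aux {m : ℂ} (hm : ‖m‖ ≤ 1) {x : ℝ} (h0 : 0 ≤ x) (h1 : x < 1) :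
    0 < 1 - 2 * x * m.re + x ^ 2 := by
  have := (Complex.re_le_norm m).trans hm
  nlinarith

theorem dn_pos {m : ℂ} (hm : ‖m‖ ≤ 1) {x : ℝ} (h0 : 0 ≤ x) (h1 : x < 1) : 0 < dn m x := by
  have h2 := dn_mul m x
  have h3 := dn_aux hm h0 h1
  have h4 : 0 < (1 - x ^ 2) * (1 - 2 * x * m.re + x ^ 2) := mul_pos (by nlinarith) h3
  rw [← h2] at h4
  exact (pos_iff_pos_of_mul_pos h4).2 (lt_of_le_of_ne (by positivity) fun h => by
    rw [← h, mul_zero] at h4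
    exact lt_irrefl _ h4)

theorem nrm_pos {m : ℂ} (hm : ‖m‖ ≤ 1) {x : ℝ} (h0 : 0 ≤ x) (h1 : x < 1) :
    0 < ‖1 - (x : ℂ) * m‖ := by
  have h := one_sub_ne hm h0 h1
  rw [norm_pos_iff]
  intro h2
  rw [h2] at h
  simp at h

/-- Schwarz - Pick for a finite mean, second form -/
theorem schur_dn {N : ℕ} (hN : 1 ≤ N) {u : Fin N → ℂ} (hu : ∀ k, ‖u k‖ ≤ 1) {x : ℝ} (h0 : 0 ≤ x)
    (h1 : x < 1) :
    ‖(1 - (x : ℂ) * av u) * av (fun k => (1 - (x : ℂ) * u k)⁻¹) - 1‖ * dn (av u) x ≤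
      x ^ 2 * (1 - ‖av u‖ ^ 2) := by
  have h := schur_sq hN hu h0 h1
  have hm := av_norm_le hN hu
  set m := av u with hmdef
  set P := av (fun k => (1 - (x : ℂ) * u k)⁻¹) with hP
  set d := (1 - (x : ℂ) * m) * P - 1 with hd
  have hx2 : 0 < 1 - x ^ 2 := by nlinarith
  have hr : 0 ≤ 1 - ‖m‖ ^ 2 := by nlinarith [norm_nonneg m]
  -- multiply by |A|²
  have e1 : ‖1 - (x : ℂ) * m‖ ^ 2 * (2 * P.re - 1 - (1 - x ^ 2) * ‖P‖ ^ 2) =
      x ^ 2 * (1 - ‖m‖ ^ 2) + 2 * x * (d * ((x : ℂ) - conj m)).re - (1 - x ^ 2) * ‖d‖ ^ 2 := by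
    have f1 : ‖1 - (x : ℂ) * m‖ ^ 2 * ‖P‖ ^ 2 = ‖1 + d‖ ^ 2 := by
      rw [← mul_pow, ← norm_mul]
      congr 2
      rw [hd]
      ring
    have f2 : ‖1 - (x : ℂ) * m‖ ^ 2 * P.re = (conj (1 - (x : ℂ) * m) * (1 + d)).re := by
      have : conj (1 - (x : ℂ) * m) * (1 + d) = ((‖1 - (x : ℂ) * m‖ ^ 2 : ℝ) : ℂ) * P := by
        rw [← Complex.normSq_eq_norm_sq, ← Complex.mul_conj, hd]
        ring
      rw [this, Complex.re_ofReal_mul]
    calc ‖1 - (x : ℂ) * m‖ ^ 2 * (2 * P.re - 1 - (1 - x ^ 2) * ‖P‖ ^ 2)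
        = 2 * (‖1 - (x : ℂ) * m‖ ^ 2 * P.re) - ‖1 - (x : ℂ) * m‖ ^ 2
          - (1 - x ^ 2) * (‖1 - (x : ℂ) * m‖ ^ 2 * ‖P‖ ^ 2) := by ring
      _ = _ := by
        rw [f1, f2, norm_sq_re_im, norm_sq_re_im, norm_sq_re_im, norm_sq_re_im]
        simp only [Complex.sub_re, Complex.sub_im, Complex.mul_re, Complex.mul_im, Complex.one_re,
          Complex.one_im, Complex.ofReal_re, Complex.ofReal_im, Complex.add_re, Complex.add_im,
          Complex.conj_re, Complex.conj_im, map_sub, map_one, map_mul, Complex.conj_ofReal]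
        ring
  have e2 : (d * ((x : ℂ) - conj m)).re ≤ ‖d‖ * ‖(x : ℂ) - m‖ := by
    refine (Complex.re_le_norm _).trans (le_of_eq ?_)
    rw [norm_mul]
    congr 1
    have : (x : ℂ) - conj m = conj ((x : ℂ) - m) := by
      rw [map_sub, Complex.conj_ofReal]
    rw [this, Complex.norm_conj]
  set A := ‖1 - (x : ℂ) * m‖ with hA
  set B := ‖(x : ℂ) - m‖ with hB
  set k := x ^ 2 * (1 - ‖m‖ ^ 2) with hk
  have hk0 : 0 ≤ k := mul_nonneg (sq_nonneg x) hr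
  have hB0 : 0 ≤ B := norm_nonneg _
  have hA0 : 0 < A := nrm_pos hm h0 h1
  have hd0 : 0 ≤ ‖d‖ := norm_nonneg _
  have e3 : (1 - x ^ 2) * A ^ 2 * ‖d‖ ^ 2 ≤ k * (k + 2 * x * (‖d‖ * B) - (1 - x ^ 2) * ‖d‖ ^ 2) := by
    calc (1 - x ^ 2) * A ^ 2 * ‖d‖ ^ 2 = A ^ 2 * ((1 - x ^ 2) * ‖d‖ ^ 2) := by ring
      _ ≤ A ^ 2 * (k * (2 * P.re - 1 - (1 - x ^ 2) * ‖P‖ ^ 2)) :=
          mul_le_mul_of_nonneg_left h (sq_nonneg A)
      _ = k * (A ^ 2 * (2 * P.re - 1 - (1 - x ^ 2) * ‖P‖ ^ 2)) := by ring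
      _ ≤ _ := by
          rw [e1]
          apply mul_le_mul_of_nonneg_left _ hk0
          have : 2 * x * (d * ((x : ℂ) - conj m)).re ≤ 2 * x * (‖d‖ * B) :=
            mul_le_mul_of_nonneg_left e2 (by linarith)
          linarith
  have e4 : (1 - x ^ 2) * (A ^ 2 + k) = A ^ 2 - (x * B) ^ 2 := by
    have h7 : (1 - x ^ 2) * (1 - ‖m‖ ^ 2) = A ^ 2 - B ^ 2 := by
      rw [hA, hB, norm_sq_re_im, norm_sq_re_im, norm_sq_re_im]
      simp only [Complex.sub_re, Complex.sub_im, Complex.mul_re, Complex.mul_im, Complex.one_re,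
        Complex.one_im, Complex.ofReal_re, Complex.ofReal_im]
      ring
    have h8 : (1 - x ^ 2) * k = x ^ 2 * (A ^ 2 - B ^ 2) := by rw [← h7, hk]; ring
    linear_combination h8
  have e5 : (‖d‖ * (A - x * B) - k) * (‖d‖ * (A + x * B) + k) ≤ 0 := by
    have : (‖d‖ * (A - x * B) - k) * (‖d‖ * (A + x * B) + k) =
        ‖d‖ ^ 2 * (A ^ 2 - (x * B) ^ 2) - 2 * x * k * B * ‖d‖ - k ^ 2 := by ring
    rw [this, ← e4]
    nlinarith
  have e6 : 0 ≤ ‖d‖ * (A + x * B) + k := by positivity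
  have hgoal : ‖d‖ * (A - x * B) ≤ k := by
    rcases e6.lt_or_eq with h9 | h9
    · by_contra hcon
      push Not at hcon
      have := mul_pos (sub_pos.2 hcon) h9
      linarith
    · have h10 : ‖d‖ * (A + x * B) = 0 := by
        have : 0 ≤ ‖d‖ * (A + x * B) := by positivity
        linarith
      have h11 : ‖d‖ = 0 := by
        rcases mul_eq_zero.1 h10 with h12 | h12
        · exact h12
        · have : 0 < A + x * B := by positivity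
          linarith
      rw [h11, zero_mul]
      exact hk0
  exact hgoal

/-- **Disc lemma.** -/
theorem schur_disc {N : ℕ} (hN : 1 ≤ N) {u : Fin N → ℂ} (hu : ∀ k, ‖u k‖ ≤ 1) {x : ℝ} (h0 : 0 ≤ x)
    (h1 : x < 1) :
    ‖av (fun k => u k / (1 - (x : ℂ) * u k)) - av u / (1 - (x : ℂ) * av u)‖ ≤
      x * (1 - ‖av u‖ ^ 2) / (‖1 - (x : ℂ) * av u‖ * dn (av u) x) := by
  have hm := av_norm_le hN hu
  have hdn := dn_pos hm h0 h1
  have hA := nrm_pos hm h0 h1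
  have hr : 0 ≤ 1 - ‖av u‖ ^ 2 := by nlinarith [norm_nonneg (av u)]
  have hne : ∀ k, 1 - (x : ℂ) * u k ≠ 0 := by
    intro k h
    have := one_sub_ne (hu k) h0 h1
    rw [h] at this
    simp at this
  rcases h0.eq_or_lt with hx | hx
  · subst hx
    simp
  · have h := schur_dn hN hu h0 h1
    have hAne : 1 - (x : ℂ) * av u ≠ 0 := norm_pos_iff.1 hA
    have key : (x : ℂ) * (1 - (x : ℂ) * av u) * (av (fun k => u k / (1 - (x : ℂ) * u k))
        - av u / (1 - (x : ℂ) * av u)) =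
        (1 - (x : ℂ) * av u) * av (fun k => (1 - (x : ℂ) * u k)⁻¹) - 1 := by
      have e1 : (x : ℂ) * av (fun k => u k / (1 - (x : ℂ) * u k)) =
          av (fun k => (1 - (x : ℂ) * u k)⁻¹) - 1 := by
        have hN0 : (N : ℂ) ≠ 0 := by exact_mod_cast (by omega : N ≠ 0)
        unfold av
        rw [mul_left_comm, Finset.mul_sum]
        have e2 : ∀ k, (x : ℂ) * (u k / (1 - (x : ℂ) * u k)) = (1 - (x : ℂ) * u k)⁻¹ - 1 := by
          intro k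
          field_simp [hne k]
          ring
        simp only [e2]
        rw [Finset.sum_sub_distrib]
        simp only [Finset.sum_const, Finset.card_univ, Fintype.card_fin, nsmul_eq_mul]
        field_simp
      calc (x : ℂ) * (1 - (x : ℂ) * av u) * (av (fun k => u k / (1 - (x : ℂ) * u k))
        - av u / (1 - (x : ℂ) * av u)) = (1 - (x : ℂ) * av u) *
          ((x : ℂ) * av (fun k => u k / (1 - (x : ℂ) * u k))) - x * av u *
          ((1 - (x : ℂ) * av u) / (1 - (x : ℂ) * av u)) := by ring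
        _ = _ := by
          rw [e1, div_self hAne]
          ring
    rw [← key, norm_mul, norm_mul, Complex.norm_real, Real.norm_of_nonneg h0] at h
    rw [le_div_iff₀ (mul_pos hA hdn)]
    have h2 : x * (‖av (fun k => u k / (1 - (x : ℂ) * u k)) - av u / (1 - (x : ℂ) * av u)‖ *
        (‖1 - (x : ℂ) * av u‖ * dn (av u) x)) ≤ x * (x * (1 - ‖av u‖ ^ 2)) := by
      calc _ = x * ‖1 - (x : ℂ) * av u‖ * ‖av (fun k => u k / (1 - (x : ℂ) * u k))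
        - av u / (1 - (x : ℂ) * av u)‖ * dn (av u) x := by ring
        _ ≤ _ := h
        _ = _ := by ring
    exact le_of_mul_le_mul_left h2 hx

end Pool.Agent.Lib.MP_af3a4a_an.P1.H80
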